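import Pool.Agent.Lib.MP_ae8a84_co.DP.Defs

/-!
Both pages of a compiled program have the same legs.
-/

namespace Pool.Agent.Lib.MP_ae8a84_co.DP

open Pool.Agent.Lib.MP_ae8a84_co.NP (Cl Leg)

namespace BothAux

theorem loc (g : ℕ) (hg : g < 6) (r : ℕ) :
    ((∃ C ∈ lp g, Leg C r) ∨ r ∈ outs g) ↔ ((∃ D ∈ ln g, Leg D r) ∨ r ∈ ins g) := by
  interval_cases g <;> simp [lp, ln, ins, outs, Leg] <;> omega

/-- the legs of one page inside the gate zone of a layer -/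
def Zone (A : List Cl) (L : List ℕ) (w b j t : ℕ) : Prop :=
  (∃ C ∈ A, Leg (mv (b + 4 * j) C) t) ∨ ∃ i < w, t = b + port L j i

theorem zone_loc {B : List Cl} {M : List ℕ} {wb b j r : ℕ} (hb : j + M.length ≤ wb)
    (h : (∃ D ∈ B, Leg D r) ∨ r ∈ M) : Zone B M wb b j (b + 4 * j + r) := by
  rcases h with ⟨D, hD, hr⟩ | hr
  · refine Or.inl ⟨D, hD, ?_⟩
    unfold Leg mv at *
    simp only
    omega
  · obtain ⟨x, hx, rfl⟩ := List.getElem_of_mem hr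
    refine Or.inr ⟨j + x, by omega, ?_⟩
    unfold port
    rw [if_neg (by omega), if_pos (by omega), Nat.add_sub_cancel_left, List.getD_eq_getElem _ _ hx]
    omega

theorem zone {A B : List Cl} {L M : List ℕ} {wa wb b j t : ℕ} (hb : j + M.length ≤ wb)
    (hw : wa + M.length = wb + L.length)
    (h : ∀ r, ((∃ C ∈ A, Leg C r) ∨ r ∈ L) → ((∃ D ∈ B, Leg D r) ∨ r ∈ M))
    (ht : Zone A L wa b j t) : Zone B M wb b j t := by
  rcases ht with ⟨C, hC, ht⟩ | ⟨i, hi, rfl⟩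
  · have : ∃ r, Leg C r ∧ t = b + 4 * j + r := by
      unfold Leg mv at *
      rcases ht with ht | ht | ht
      · exact ⟨_, Or.inl rfl, ht⟩
      · exact ⟨_, Or.inr (Or.inl rfl), ht⟩
      · exact ⟨_, Or.inr (Or.inr rfl), ht⟩
    obtain ⟨r, hr, rfl⟩ := this
    exact zone_loc hb (h r (Or.inl ⟨C, hC, hr⟩))
  · by_cases h1 : i < j
    · refine Or.inr ⟨i, by omega, ?_⟩
      unfold port
      rw [if_pos h1, if_pos h1]
    · by_cases h2 : i < j + L.length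
      · have hx : i - j < L.length := by omega
        have e : b + port L j i = b + 4 * j + L[i - j] := by
          unfold port
          rw [if_neg h1, if_pos h2, List.getD_eq_getElem _ _ hx]
          omega
        rw [e]
        exact zone_loc hb (h _ (Or.inr (List.getElem_mem hx)))
      · refine Or.inr ⟨i - L.length + M.length, by omega, ?_⟩
        unfold port
        rw [if_neg h1, if_neg h2, if_neg (by omega), if_neg (by omega)]
        omega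

theorem mem_pgP {p : Prog} {C : Cl} : C ∈ pgP p ↔ ∃ k, ∃ hk : k < p.length,
    (∃ D ∈ lp p[k].1, mv (base p.length k + 4 * p[k].2) D = C) ∨
      ∃ i < wid (p.take (k + 1)) 0,
        arc (base p.length k + port (outs p[k].1) p[k].2 i) (mT p.length k i) = C := by
  unfold pgP
  simp only [List.mem_flatMap, List.mem_append, List.mem_map, List.mem_range]
  constructor
  · rintro ⟨q, hq, h⟩
    obtain ⟨hk, e⟩ := List.mem_zipIdx' hq
    refine ⟨q.2, hk, ?_⟩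
    rw [← e]
    exact h
  · rintro ⟨k, hk, h⟩
    exact ⟨(p[k], k), List.mk_mem_zipIdx_iff_getElem?.2 (List.getElem?_eq_getElem hk), h⟩

theorem mem_pgN {p : Prog} {C : Cl} : C ∈ pgN p ↔ ∃ k, ∃ hk : k < p.length,
    (∃ D ∈ ln p[k].1, mv (base p.length k + 4 * p[k].2) D = C) ∨
      ∃ i < wid (p.take k) 0,
        arc (mT p.length (k - 1) i) (base p.length k + port (ins p[k].1) p[k].2 i) = C := by
  unfold pgN
  simp only [List.mem_flatMap, List.mem_append, List.mem_map, List.mem_range]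
  constructor
  · rintro ⟨q, hq, h⟩
    obtain ⟨hk, e⟩ := List.mem_zipIdx' hq
    refine ⟨q.2, hk, ?_⟩
    rw [← e]
    exact h
  · rintro ⟨k, hk, h⟩
    exact ⟨(p[k], k), List.mk_mem_zipIdx_iff_getElem?.2 (List.getElem?_eq_getElem hk), h⟩

theorem legP {p : Prog} {t : ℕ} : (∃ C ∈ pgP p, Leg C t) ↔ ∃ k, ∃ hk : k < p.length,
    Zone (lp p[k].1) (outs p[k].1) (wid (p.take (k + 1)) 0) (base p.length k) p[k].2 t ∨
      ∃ i < wid (p.take (k + 1)) 0, t = mT p.length k i := by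
  constructor
  · rintro ⟨C, hC, ht⟩
    obtain ⟨k, hk, ⟨D, hD, rfl⟩ | ⟨i, hi, rfl⟩⟩ := mem_pgP.1 hC
    · exact ⟨k, hk, Or.inl (Or.inl ⟨D, hD, ht⟩)⟩
    · rcases ht with ht | ht | ht
      · exact ⟨k, hk, Or.inl (Or.inr ⟨i, hi, ht⟩)⟩
      · exact ⟨k, hk, Or.inl (Or.inr ⟨i, hi, ht⟩)⟩
      · exact ⟨k, hk, Or.inr ⟨i, hi, ht⟩⟩
  · rintro ⟨k, hk, (⟨D, hD, ht⟩ | ⟨i, hi, ht⟩) | ⟨i, hi, ht⟩⟩
    · exact ⟨_, mem_pgP.2 ⟨k, hk, Or.inl ⟨D, hD, rfl⟩⟩, ht⟩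
    · exact ⟨_, mem_pgP.2 ⟨k, hk, Or.inr ⟨i, hi, rfl⟩⟩, Or.inl ht⟩
    · exact ⟨_, mem_pgP.2 ⟨k, hk, Or.inr ⟨i, hi, rfl⟩⟩, Or.inr (Or.inr ht)⟩

theorem legN {p : Prog} {t : ℕ} : (∃ C ∈ pgN p, Leg C t) ↔ ∃ k, ∃ hk : k < p.length,
    Zone (ln p[k].1) (ins p[k].1) (wid (p.take k) 0) (base p.length k) p[k].2 t ∨
      ∃ i < wid (p.take k) 0, t = mT p.length (k - 1) i := by
  constructor
  · rintro ⟨C, hC, ht⟩
    obtain ⟨k, hk, ⟨D, hD, rfl⟩ | ⟨i, hi, rfl⟩⟩ := mem_pgN.1 hC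
    · exact ⟨k, hk, Or.inl (Or.inl ⟨D, hD, ht⟩)⟩
    · rcases ht with ht | ht | ht
      · exact ⟨k, hk, Or.inr ⟨i, hi, ht⟩⟩
      · exact ⟨k, hk, Or.inr ⟨i, hi, ht⟩⟩
      · exact ⟨k, hk, Or.inl (Or.inr ⟨i, hi, ht⟩)⟩
  · rintro ⟨k, hk, (⟨D, hD, ht⟩ | ⟨i, hi, ht⟩) | ⟨i, hi, ht⟩⟩
    · exact ⟨_, mem_pgN.2 ⟨k, hk, Or.inl ⟨D, hD, rfl⟩⟩, ht⟩
    · exact ⟨_, mem_pgN.2 ⟨k, hk, Or.inr ⟨i, hi, rfl⟩⟩, Or.inr (Or.inr ht)⟩
    · exact ⟨_, mem_pgN.2 ⟨k, hk, Or.inr ⟨i, hi, rfl⟩⟩, Or.inl ht⟩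

theorem layer (h : StRun) {p : Prog} (hp : WF p 0) {k : ℕ} (hk : k < p.length) :
    p[k].1 < 6 ∧ p[k].2 + ni p[k].1 ≤ wid (p.take k) 0 ∧
      wid (p.take (k + 1)) 0 + ni p[k].1 = wid (p.take k) 0 + no p[k].1 := by
  obtain ⟨-, -, h3, h4, -⟩ := h
  have e : p = p.take k ++ p[k] :: p.drop (k + 1) := by
    rw [← List.drop_eq_getElem_cons hk, List.take_append_drop]
  have hp' := hp
  rw [e, h3] at hp'
  obtain ⟨a, b, c, -⟩ := hp'
  refine ⟨b, c, ?_⟩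
  rw [List.take_succ_eq_append_getElem hk, h4 _ _ _ a]
  have : wid [p[k]] (wid (p.take k) 0) = wid (p.take k) 0 + no p[k].1 - ni p[k].1 := by
    simp [wid]
  rw [this]
  omega

theorem wid_zero (p : Prog) : wid (p.take 0) 0 = 0 := by simp [wid]

end BothAux

open BothAux in
theorem both_thm (h : StRun) : StBoth := by
  intro p hp hw
  refine ⟨fun C hC t ht => ?_, fun C hC t ht => ?_, fun hne => ?_⟩
  · obtain ⟨k, hk, hz | ⟨i, hi, rfl⟩⟩ := legP.1 ⟨C, hC, ht⟩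
    · obtain ⟨a, b, c⟩ := layer h hp hk
      exact legN.2 ⟨k, hk, Or.inl (zone b c (fun r => (loc _ a r).1) hz)⟩
    · have hk' : k + 1 < p.length := by
        by_contra hc
        rw [List.take_of_length_le (by omega), hw] at hi
        omega
      exact legN.2 ⟨k + 1, hk', Or.inr ⟨i, hi, rfl⟩⟩
  · obtain ⟨k, hk, hz | ⟨i, hi, rfl⟩⟩ := legN.1 ⟨C, hC, ht⟩
    · obtain ⟨a, b, c⟩ := layer h hp hk
      unfold ni no at *
      exact legP.2 ⟨k, hk, Or.inl (zone (by omega) c.symm (fun r => (loc _ a r).2) hz)⟩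
    · obtain _ | k := k
      · rw [wid_zero] at hi
        omega
      · exact legP.2 ⟨k, by omega, Or.inr ⟨i, hi, rfl⟩⟩
  · have hk : 0 < p.length := List.length_pos_iff.2 hne
    obtain ⟨a, b, c⟩ := layer h hp hk
    rw [wid_zero] at b c
    have h2 : 0 < wid (p.take (0 + 1)) 0 := by
      generalize p[0].1 = g at a b c
      interval_cases g <;> simp [ni, no, ins, outs] at b c ⊢ <;> omega
    exact List.ne_nil_of_mem (mem_pgP.2 ⟨0, hk, Or.inr ⟨0, h2, rfl⟩⟩)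

end Pool.Agent.Lib.MP_ae8a84_co.DP
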