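import Pool.Agent.Lib.MP_ae8a84_co.DP.Defs

/-!
Formulas and their column formulas.
-/

namespace Pool.Agent.Lib.MP_ae8a84_co.DP

namespace ColsAux

variable {φ : List (List (Bool × ℕ))}

lemma mem_vs {v : ℕ} : v ∈ vs φ ↔ ∃ C ∈ φ, ∃ l ∈ C, l.2 = v := by
  simp only [vs, List.mem_dedup, List.mem_flatMap, List.mem_map]

lemma idx_lt {C : List (Bool × ℕ)} (hC : C ∈ φ) {l : Bool × ℕ} (hl : l ∈ C) :
    (vs φ).idxOf l.2 < (vs φ).length := List.idxOf_lt_length_iff.2 (mem_vs.2 ⟨C, hC, l, hl, rfl⟩)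

lemma noPure_iff : noPure φ = true ↔ ∀ v ∈ vs φ, ∀ b, ∃ C ∈ φ, (b, v) ∈ C := by
  simp only [noPure, List.all_eq_true, Bool.and_eq_true, List.any_eq_true, decide_eq_true_eq,
    Bool.forall_bool, and_comm]

lemma noPure_of (h : MU φ) : noPure φ = true := by
  refine noPure_iff.2 fun v hv b => by_contra fun hn => h.1 ?_
  obtain ⟨C, hC, l, hl, e⟩ := mem_vs.1 hv
  obtain ⟨τ, hτ⟩ := h.2 C hC
  have key : ∀ D ∈ φ, ∀ l ∈ D, l.2 = v → Function.update τ v (!b) l.2 = l.1 := by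
    rintro D hD ⟨c, w⟩ hw rfl
    rw [Function.update_self]
    cases b <;> cases c <;> first | rfl | exact absurd ⟨D, hD, hw⟩ hn
  refine ⟨Function.update τ v (!b), fun D hD => ?_⟩
  by_cases d : D = C
  · exact ⟨l, d ▸ hl, key C hC l hl e⟩
  · obtain ⟨l', a1, a2⟩ := hτ D hD d
    by_cases f : l'.2 = v
    · exact ⟨l', a1, key D hD l' a1 f⟩
    · exact ⟨l', a1, by rw [Function.update_of_ne f, a2]⟩

lemma len_cols : (cols φ).length = φ.dedup.length := List.length_map _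

lemma getD_cols {i : ℕ} (h : i < φ.dedup.length) : (cols φ).getD i [] =
    φ.dedup[i].map fun l => 2 * (vs φ).idxOf l.2 + l.1.toNat := by
  simp [cols, List.getD_eq_getElem?_getD, h]

lemma cols_ok (h : noPure φ = true) : Cols (cols φ) (vs φ).length := by
  constructor
  · intro C hC c hc
    obtain ⟨D, hD, rfl⟩ := List.mem_map.1 hC
    obtain ⟨l, hl, rfl⟩ := List.mem_map.1 hc
    have := idx_lt (List.mem_dedup.1 hD) hl
    have := Bool.toNat_le l.1
    omega
  · intro c hc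
    have lt : c / 2 < (vs φ).length := by omega
    obtain ⟨D, hD, hl⟩ := noPure_iff.1 h _ (List.getElem_mem lt) (c % 2 == 1)
    refine ⟨_, List.mem_map_of_mem (List.mem_dedup.2 hD), List.mem_map.2 ⟨_, hl, ?_⟩⟩
    have nd : (vs φ).Nodup := List.nodup_dedup _
    rw [nd.idxOf_getElem]
    rcases Nat.mod_two_eq_zero_or_one c with e | e <;> simp only [e] <;> simp <;> omega

lemma satC_iff (A : ℕ → Prop) : SatC (cols φ) (vs φ).length A ↔
    ∃ τ, ∀ i (h : i < φ.dedup.length), A i → Holds τ φ.dedup[i] := by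
  constructor
  · rintro ⟨s, h1, h2⟩
    refine ⟨fun v => s (2 * (vs φ).idxOf v + 1), fun i hi a => ?_⟩
    obtain ⟨c, c1, c2⟩ := h2 i (len_cols ▸ hi) a
    rw [getD_cols hi] at c1
    obtain ⟨⟨b, v⟩, hl, rfl⟩ := List.mem_map.1 c1
    refine ⟨_, hl, ?_⟩
    have := h1 _ (idx_lt (List.mem_dedup.1 (List.getElem_mem hi)) hl)
    cases b
    · simpa [show s (2 * (vs φ).idxOf v) = true from c2] using this
    · exact c2
  · rintro ⟨τ, h⟩
    refine ⟨fun c => τ ((vs φ).getD (c / 2) 0) == (c % 2 == 1), fun v _ => ?_, fun i hi a => ?_⟩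
    · simp only [show 2 * v / 2 = v by omega, show (2 * v + 1) / 2 = v by omega,
        show 2 * v % 2 = 0 by omega, show (2 * v + 1) % 2 = 1 by omega]
      cases τ ((vs φ).getD v 0) <;> rfl
    · rw [len_cols] at hi
      obtain ⟨⟨b, v⟩, hl, e⟩ := h i hi a
      have lt := idx_lt (List.mem_dedup.1 (List.getElem_mem hi)) hl
      have b1 := Bool.toNat_le b
      refine ⟨_, getD_cols hi ▸ List.mem_map_of_mem hl, ?_⟩
      dsimp only at e lt ⊢
      rw [show (2 * (vs φ).idxOf v + b.toNat) / 2 = (vs φ).idxOf v by omega,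
        show (2 * (vs φ).idxOf v + b.toNat) % 2 = b.toNat by omega, List.getD_eq_getElem _ _ lt,
        List.getElem_idxOf, e]
      cases b <;> rfl

end ColsAux

open ColsAux in
theorem cols_thm : StCols := by
  intro φ
  refine ⟨fun h => ⟨noPure_of h, fun e => h.1 ⟨fun _ => true, by simp [e]⟩⟩,
    fun h => ⟨cols_ok h, ?_⟩⟩
  have nd : φ.dedup.Nodup := List.nodup_dedup _
  have ex : ∀ C ∈ φ, ∃ i, ∃ h : i < φ.dedup.length, φ.dedup[i] = C :=
    fun C hC => List.getElem_of_mem (List.mem_dedup.2 hC)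
  have me : ∀ i (h : i < φ.dedup.length), φ.dedup[i] ∈ φ :=
    fun i h => List.mem_dedup.1 (List.getElem_mem h)
  simp only [MU, satC_iff, len_cols]
  refine and_congr (not_congr (exists_congr fun τ => ⟨fun a i hi _ => a _ (me i hi), fun a C hC => ?_⟩))
    ⟨fun a i hi => ?_, fun a C hC => ?_⟩
  · obtain ⟨i, hi, rfl⟩ := ex C hC
    exact a i hi trivial
  · exact (a _ (me i hi)).imp fun τ b j hj d => b _ (me j hj) fun e => d (nd.getElem_inj_iff.1 e)
  · obtain ⟨i, hi, rfl⟩ := ex C hC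
    refine (a i hi).imp fun τ b D hD d => ?_
    obtain ⟨j, hj, rfl⟩ := ex D hD
    exact b j hj fun e => d (by subst e; rfl)

end Pool.Agent.Lib.MP_ae8a84_co.DP
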