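import Pool.Agent.Lib.MP_ae8a84_co.DP.Defs

/-!
Explicit interval representations after the removal of one vertex.
-/

namespace Pool.Agent.Lib.MP_ae8a84_co.DP

open Pool.Agent.Lib.MP_ae8a84_co.NP (Cl Leg)

namespace DelAux

variable {sp sq : ℕ → Bool} {P N : List Cl} {C D : Cl} {d e : V} {t : ℕ} {q l r l' r' : ℤ}

/-- left ends -/
def fl (sp : ℕ → Bool) (z : ℕ) : ℤ := 10 * z +
  if z % 8 = 7 then (if sp ((z + 3) / 8) then 14 else -5)
  else if z % 8 = 0 then (if sp ((z + 3) / 8) then 6 else -10) else 0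

/-- right ends -/
def fr (sp : ℕ → Bool) (z : ℕ) : ℤ := 10 * z +
  if z % 8 = 1 then (if sp ((z + 3) / 8) then -14 else 5)
  else if z % 8 = 0 then (if sp ((z + 3) / 8) then -6 else 10) else 0

lemma fl7 (h : 1 ≤ t) : fl sp (8 * t - 1) = if sp t then 80 * (t : ℤ) + 4 else 80 * t - 15 := by
  rw [fl, show (8 * t - 1 + 3) / 8 = t by omega]; split_ifs <;> omega

lemma fl0 : fl sp (8 * t) = if sp t then 80 * (t : ℤ) + 6 else 80 * t - 10 := by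
  rw [fl, show (8 * t + 3) / 8 = t by omega]; split_ifs <;> omega

lemma fl5 (h : 1 ≤ t) : fl sp (8 * t - 3) = 80 * (t : ℤ) - 30 := by
  rw [fl]; split_ifs <;> omega

lemma fl2 : fl sp (8 * t + 2) = 80 * (t : ℤ) + 20 := by
  rw [fl]; split_ifs <;> omega

lemma fr1 : fr sp (8 * t + 1) = if sp t then 80 * (t : ℤ) - 4 else 80 * t + 15 := by
  rw [fr, show (8 * t + 1 + 3) / 8 = t by omega]; split_ifs <;> omega

lemma fr0 : fr sp (8 * t) = if sp t then 80 * (t : ℤ) - 6 else 80 * t + 10 := by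
  rw [fr, show (8 * t + 3) / 8 = t by omega]; split_ifs <;> omega

lemma fr6 (h : 1 ≤ t) : fr sp (8 * t - 2) = 80 * (t : ℤ) - 20 := by
  rw [fr]; split_ifs <;> omega

lemma fr3 : fr sp (8 * t + 3) = 80 * (t : ℤ) + 30 := by
  rw [fr]; split_ifs <;> omega

lemma adj_iff : adj d e = true ↔ e.1 ≤ d.2 ∧ d.1 ≤ e.2 := by simp [adj]

/-- the segments of a clause -/
def S (P : List Cl) (D : Cl) (e : V) : Prop := e = top D ∨ e = (8 * D.2.1, 8 * D.2.2) ∨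
  (D.1 < D.2.1 ∧ e = (8 * D.1, 8 * D.2.1)) ∨ (freeL P D = true ∧ e = (8 * D.1 - 3, 8 * D.1)) ∨
  (freeR P D = true ∧ e = (8 * D.2.2, 8 * D.2.2 + 3))

/-- the vertices that are not points -/
def NPt (P : List Cl) (e : V) : Prop :=
  (∃ t, 1 ≤ t ∧ (e = (8 * t - 3, 8 * t - 2) ∨ e = (8 * t + 2, 8 * t + 3))) ∨ ∃ D ∈ P, S P D e

/-- positions of the point of a satisfied clause -/
def Pos (sp : ℕ → Bool) (C : Cl) (q : ℤ) : Prop := (sp C.1 = true ∧ q = 80 * C.1 + 5) ∨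
  (sp C.2.2 = true ∧ q = 80 * C.2.2 - 5) ∨ (C.1 < C.2.1 ∧ sp C.2.1 = true ∧ q = 80 * C.2.1)

/-- the standard intervals -/
def G (sp sq : ℕ → Bool) (P N : List Cl) (d : V) (l r : ℤ) : Prop :=
  (NPt N d ∧ l = fl sp d.1 ∧ r = fr sp d.2) ∨ ∃ C ∈ P, d = pnt C ∧ l = r ∧ Pos sq C l

/-- admissible positions -/
def OK (sp : ℕ → Bool) (P : List Cl) (C : Cl) (q : ℤ) : Prop :=
  ((freeL P C = true ∧ 80 * C.1 - 50 < q) ∨ (sp C.1 = true ∧ 80 * C.1 - 4 < q) ∨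
    80 * C.1 + 15 < q) ∧
  ((freeR P C = true ∧ q < 80 * C.2.2 + 50) ∨ (sp C.2.2 = true ∧ q < 80 * C.2.2 + 4) ∨
    q < 80 * C.2.2 - 15) ∧
  (q < 80 * C.1 + 50 ∨ (80 * C.2.1 - 50 < q ∧ q < 80 * C.2.1 + 50) ∨ 80 * C.2.2 - 50 < q) ∧
  (q % 80 < 20 ∨ (30 < q % 80 ∧ q % 80 < 50) ∨ 60 < q % 80)

lemma freeL_ne (h : freeL P C = true) (hD : D ∈ P) : D.2.2 ≠ C.1 := by
  simpa using List.all_eq_true.1 h D hD

lemma freeR_ne (h : freeR P C = true) (hD : D ∈ P) : D.1 ≠ C.2.2 := by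
  simpa using List.all_eq_true.1 h D hD

lemma ss (h : ∀ t, sq t = !sp t) {lo hi : ℕ}
    (h1 : lo % 8 = 7 ∨ lo % 8 = 0 ∨ lo % 8 = 5 ∨ lo % 8 = 2)
    (h2 : hi % 8 = 1 ∨ hi % 8 = 0 ∨ hi % 8 = 6 ∨ hi % 8 = 3) : lo ≤ hi ↔ fl sp lo ≤ fr sq hi := by
  rw [fl, fr, h]
  by_cases e : (lo + 3) / 8 = (hi + 3) / 8
  · rw [e]
    cases sp ((hi + 3) / 8) <;> simp only [Bool.not_true, Bool.not_false, Bool.false_eq_true,
      if_true, if_false] <;> split_ifs <;> omega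
  · split_ifs <;> omega

lemma NPt.res (g : Good P) (h : NPt P e) :
    (e.1 % 8 = 7 ∨ e.1 % 8 = 0 ∨ e.1 % 8 = 5 ∨ e.1 % 8 = 2) ∧
    (e.2 % 8 = 1 ∨ e.2 % 8 = 0 ∨ e.2 % 8 = 6 ∨ e.2 % 8 = 3) ∧
    (e.2 % 8 = 6 → e.1 + 1 = e.2) ∧ (e.1 % 8 = 2 → e.1 + 1 = e.2) ∧ fl sp e.1 ≤ fr sp e.2 := by
  rcases h with ⟨t, ht, rfl | rfl⟩ | ⟨D, hD, h⟩
  · simp only [fl5 ht, fr6 ht]; omega
  · dsimp only; rw [fl2, fr3]; omega
  · have w := g.wf D hD
    rcases h with rfl | rfl | ⟨_, rfl⟩ | ⟨_, rfl⟩ | ⟨_, rfl⟩ <;>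
      simp only [top, fl7 w.1, fl5 w.1, fl0, fr1, fr0, fr3] <;> split_ifs <;> omega

lemma other (g : Good P) (hC : C ∈ P) (hD : D ∈ P) (ne : C ≠ D) (h : S P D e) (hq : OK sp P C q) :
    adj (pnt C) e = true ↔ fl sp e.1 ≤ q ∧ q ≤ fr sp e.2 := by
  have w := g.wf D hD
  have w' := g.wf C hC
  have a1 := fun x => freeL_ne (C := C) x hD
  have a2 := fun x => freeR_ne (C := C) x hD
  have a3 := fun x => freeL_ne (C := D) x hC
  have a4 := fun x => freeR_ne (C := D) x hC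
  have m := g.lam C hC D hD ne
  obtain ⟨q1, q2, q3, -⟩ := hq
  obtain ⟨a, b, c⟩ := C
  obtain ⟨a', b', c'⟩ := D
  rw [adj_iff]
  simp only [Inside, pnt] at *
  rcases h with rfl | rfl | ⟨_, rfl⟩ | ⟨_, rfl⟩ | ⟨_, rfl⟩ <;>
    simp only [top, fl7 w.1, fl5 w.1, fl0, fr1, fr0, fr3] <;> grind (splits := 40)

lemma ps (g : Good P) (hC : C ∈ P) (hq : OK sp P C q) (h : NPt P e)
    (own : S P C e → (adj (pnt C) e = true ↔ fl sp e.1 ≤ q ∧ q ≤ fr sp e.2)) :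
    adj (pnt C) e = true ↔ fl sp e.1 ≤ q ∧ q ≤ fr sp e.2 := by
  have w := g.wf C hC
  rcases h with ⟨t, ht, h⟩ | ⟨D, hD, h⟩
  · have := hq.2.2.2
    rcases h with rfl | rfl <;> simp only [adj_iff, pnt, fl5 ht, fr6 ht, fl2, fr3] <;> omega
  · by_cases x : C = D
    exacts [own (x ▸ h), other g hC hD x h hq]

lemma Pos.ps (g : Good P) (hC : C ∈ P) (hq : Pos sp C q) (h : NPt P e) :
    adj (pnt C) e = true ↔ fl sp e.1 ≤ q ∧ q ≤ fr sp e.2 := by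
  have w := g.wf C hC
  refine DelAux.ps g hC ?_ h fun h => ?_
  · unfold OK
    unfold Pos at hq
    grind (splits := 40)
  · rcases h with rfl | rfl | ⟨_, rfl⟩ | ⟨_, rfl⟩ | ⟨_, rfl⟩ <;>
      simp only [adj_iff, pnt, top, fl7 w.1, fl5 w.1, fl0, fr1, fr0, fr3] <;> unfold Pos at hq <;>
      grind

lemma adj_comm : adj d e = adj e d := Bool.and_comm _ _

lemma std (gP : Good P) (gN : Good N) (h : ∀ t, sp t = !sq t) (h1 : G sp sq P N d l r)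
    (h2 : G sq sp N P e l' r') : adj d e = true ↔ l' ≤ r ∧ l ≤ r' := by
  rcases h1 with ⟨a, rfl, rfl⟩ | ⟨C, hC, rfl, rfl, a⟩ <;>
    rcases h2 with ⟨b, rfl, rfl⟩ | ⟨D, hD, rfl, rfl, b⟩
  · rw [adj_iff, ss h (b.res (sp := sp) gP).1 (a.res (sp := sp) gN).2.1,
      ss (sp := sp) (sq := sq) (fun t => by rw [h, Bool.not_not]) (a.res (sp := sp) gN).1
        (b.res (sp := sp) gP).2.1]
  · rw [adj_comm, b.ps gN hD a, and_comm]
  · exact a.ps gP hC b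
  · have := gP.wf C hC
    have := gN.wf D hD
    simp only [adj_iff, pnt, Pos, h] at *
    grind

lemma addp (gP : Good P) (gN : Good N) (hC : C ∈ P) (hq : OK sq P C q)
    (h5 : q % 80 ≠ 0 ∧ q % 80 ≠ 5 ∧ q % 80 ≠ 75) (h2 : G sq sp N P e l' r')
    (own : S P C e → (adj (pnt C) e = true ↔ fl sq e.1 ≤ q ∧ q ≤ fr sq e.2)) :
    adj (pnt C) e = true ↔ l' ≤ q ∧ q ≤ r' := by
  rcases h2 with ⟨b, rfl, rfl⟩ | ⟨D, hD, rfl, rfl, b⟩
  · exact ps gP hC hq b own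
  · have := gP.wf C hC
    have := gN.wf D hD
    simp only [adj_iff, pnt, Pos] at *
    omega

lemma seg_S (h : e ∈ segs P C) : S P C e := by
  simp only [segs, List.mem_cons, List.not_mem_nil, or_false] at h
  unfold S
  cases x : freeL P C <;> cases y : freeR P C <;> simp only [x, y, cond_true, cond_false] at h <;>
    split_ifs at h <;> tauto

lemma pts_cases (h : d ∈ pts P C) : d = pnt C ∨
    (freeL P C = true ∧ d = (8 * C.1 - 3, 8 * C.1 - 2)) ∨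
    (freeR P C = true ∧ d = (8 * C.2.2 + 2, 8 * C.2.2 + 3)) := by
  simp only [pts, List.mem_cons, List.not_mem_nil, or_false] at h
  cases x : freeL P C <;> cases y : freeR P C <;> simp only [x, y, cond_true, cond_false] at h <;>
    tauto

lemma ex (gP : Good P) (gN : Good N) {A : Cl → Prop}
    (hs : ∀ D ∈ P, A D → ∃ t, Leg D t ∧ sq t = true) (hd : d ∈ verts P N) :
    (∃ l r, l ≤ r ∧ G sp sq P N d l r) ∨ ∃ D ∈ P, ¬ A D ∧ d = pnt D := by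
  have k : NPt N d → ∃ l r, l ≤ r ∧ G sp sq P N d l r := fun h =>
    ⟨_, _, (h.res gN).2.2.2.2, .inl ⟨h, rfl, rfl⟩⟩
  simp only [verts, List.mem_dedup, List.mem_append, List.mem_flatMap] at hd
  rcases hd with ⟨D, hD, h⟩ | ⟨D, hD, h⟩
  · have w := gP.wf D hD
    rcases pts_cases h with rfl | ⟨-, rfl⟩ | ⟨-, rfl⟩
    · by_cases x : A D
      · obtain ⟨t, y, z⟩ := hs D hD x
        have : ∃ q, Pos sq D q := by
          rcases w.2.1.eq_or_lt with u | u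
          · rcases y with rfl | rfl | rfl
            exacts [⟨_, .inl ⟨z, rfl⟩⟩, ⟨_, .inl ⟨u ▸ z, rfl⟩⟩, ⟨_, .inr (.inl ⟨z, rfl⟩)⟩]
          · rcases y with rfl | rfl | rfl
            exacts [⟨_, .inl ⟨z, rfl⟩⟩, ⟨_, .inr (.inr ⟨u, z, rfl⟩)⟩, ⟨_, .inr (.inl ⟨z, rfl⟩)⟩]
        obtain ⟨q, hq⟩ := this
        exact .inl ⟨q, q, le_rfl, .inr ⟨D, hD, rfl, rfl, hq⟩⟩
      · exact .inr ⟨D, hD, x, rfl⟩
    · exact .inl (k (.inl ⟨_, w.1, .inl rfl⟩))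
    · exact .inl (k (.inl ⟨_, by omega, .inr rfl⟩))
  · exact .inl (k (.inr ⟨D, hD, seg_S h⟩))

lemma rep_of {A B : Set V} (X Y : V → ℤ → ℤ → Prop) (h1 : ∀ d ∈ A, ∃ l r, l ≤ r ∧ X d l r)
    (h2 : ∀ e ∈ B, ∃ l r, l ≤ r ∧ Y e l r)
    (h3 : ∀ d e l r l' r', X d l r → Y e l' r' → (adj d e = true ↔ l' ≤ r ∧ l ≤ r')) :
    Rep A B := by
  have k : ∀ (A : Set V) (X : V → ℤ → ℤ → Prop), (∀ d ∈ A, ∃ l r, l ≤ r ∧ X d l r) →
      ∃ l r : V → ℤ, ∀ d, l d ≤ r d ∧ (d ∈ A → X d (l d) (r d)) := fun A X h => by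
    have : ∀ d, ∃ l r : ℤ, l ≤ r ∧ (d ∈ A → X d l r) := fun d => by
      by_cases x : d ∈ A
      · obtain ⟨l, r, a, b⟩ := h d x
        exact ⟨l, r, a, fun _ => b⟩
      · exact ⟨0, 0, le_rfl, fun y => absurd y x⟩
    choose l r h using this
    exact ⟨l, r, h⟩
  obtain ⟨l, r, a⟩ := k A X h1
  obtain ⟨l', r', b⟩ := k B Y h2
  refine ⟨fun d => l d, fun d => r d, fun d => l' d, fun d => r' d,
    fun d => Int.cast_le.2 (a d).1, fun d => Int.cast_le.2 (b d).1, fun d hd e he => ?_⟩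
  simp only [Int.cast_le]
  exact h3 _ _ _ _ _ _ ((a d).2 hd) ((b e).2 he)

lemma full : StFull := by
  rintro P N gP gN ⟨τ, h1, h2⟩
  refine rep_of (G (fun t => !τ t) τ P N) (G τ (fun t => !τ t) N P) (fun d hd => ?_)
    (fun d hd => ?_) fun _ _ _ _ _ _ => std gP gN fun _ => rfl
  · exact (ex gP gN h1 hd).resolve_right (by simp)
  · exact (ex (A := fun _ => True) gN gP (by simpa using h2) hd).resolve_right (by simp)

lemma rep_mono {A B A' B' : Set V} (h : Rep A B) (h1 : A' ⊆ A) (h2 : B' ⊆ B) : Rep A' B' :=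
  let ⟨l, r, l', r', a, b, c⟩ := h
  ⟨l, r, l', r', a, b, fun d hd e he => c d (h1 hd) e (h2 he)⟩

/-- one exceptional point, one removed vertex, one exceptional or removed segment -/
lemma master (gP : Good P) (gN : Good N) (hC : C ∈ P) {τ : ℕ → Bool}
    (h1 : ∀ D ∈ P, D ≠ C → ∃ t, Leg D t ∧ τ t = true)
    (h2 : ∀ D ∈ N, True → ∃ t, Leg D t ∧ τ t = false) {A B : Set V} (x y : V) (q a b : ℤ)
    (hA : ∀ d ∈ A, d ∈ verts P N) (hB : ∀ e ∈ B, e ∈ verts N P) (hq : OK τ P C q)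
    (h5 : q % 80 ≠ 0 ∧ q % 80 ≠ 5 ∧ q % 80 ≠ 75)
    (own : ∀ e, e ≠ y → S P C e → (adj (pnt C) e = true ↔ fl τ e.1 ≤ q ∧ q ≤ fr τ e.2))
    (hy : y ∈ B → x ∉ A ∧ a ≤ b ∧ (adj (pnt C) y = true ↔ a ≤ q ∧ q ≤ b) ∧ ∀ d l r, d ≠ x →
      G (fun t => !τ t) τ P N d l r → (adj d y = true ↔ a ≤ r ∧ l ≤ b)) : Rep A B := by
  refine rep_of (fun d l r => (d ∈ A ∧ G (fun t => !τ t) τ P N d l r) ∨ (d = pnt C ∧ l = q ∧ r = q))
    (fun e l r => (e ≠ y ∧ G τ (fun t => !τ t) N P e l r) ∨ (y ∈ B ∧ e = y ∧ l = a ∧ r = b))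
    (fun d hd => ?_) (fun e he => ?_) ?_
  · rcases ex (sp := fun t => !τ t) gP gN h1 (hA d hd) with ⟨l, r, u, v⟩ | ⟨D, -, u, v⟩
    · exact ⟨l, r, u, .inl ⟨hd, v⟩⟩
    · exact ⟨q, q, le_rfl, .inr ⟨not_not.1 u ▸ v, rfl, rfl⟩⟩
  · by_cases z : e = y
    · exact ⟨a, b, (hy (z ▸ he)).2.1, .inr ⟨z ▸ he, z, rfl, rfl⟩⟩
    · obtain ⟨l, r, u, v⟩ := (ex (sp := τ) (sq := fun t => !τ t) (A := fun _ => True) gN gP
        (by simpa using h2) (hB e he)).resolve_right (by simp)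
      exact ⟨l, r, u, .inl ⟨z, v⟩⟩
  · rintro d e l r l' r' (⟨u, v⟩ | ⟨rfl, rfl, rfl⟩) (⟨w, z⟩ | ⟨w, rfl, rfl, rfl⟩)
    · exact std gP gN (fun _ => rfl) v z
    · exact (hy w).2.2.2 d l r (fun e => (hy w).1 (e ▸ u)) v
    · exact addp gP gN hC hq h5 z (own e w)
    · exact (hy w).2.2.1

lemma del : StDel := by
  rintro P N gP gN C hC ⟨τ, h1, h2⟩
  by_cases hs : ∃ t, Leg C t ∧ τ t = true
  · have := full P N gP gN ⟨τ, fun D hD _ => by
      by_cases x : D = C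
      exacts [x ▸ hs, h1 D hD x], h2⟩
    exact ⟨fun _ _ => rep_mono this (fun _ x => x.1) le_rfl,
      fun _ _ => rep_mono this le_rfl fun _ x => x.1⟩
  have w := gP.wf C hC
  have ta : τ C.1 = false := Bool.eq_false_iff.2 fun x => hs ⟨_, .inl rfl, x⟩
  have tb : τ C.2.1 = false := Bool.eq_false_iff.2 fun x => hs ⟨_, .inr (.inl rfl), x⟩
  have tc : τ C.2.2 = false := Bool.eq_false_iff.2 fun x => hs ⟨_, .inr (.inr rfl), x⟩
  have key : ∀ (y : V) (q : ℤ), OK τ P C q → q % 80 ≠ 0 ∧ q % 80 ≠ 5 ∧ q % 80 ≠ 75 →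
      (∀ e, e ≠ y → S P C e → (adj (pnt C) e = true ↔ fl τ e.1 ≤ q ∧ q ≤ fr τ e.2)) →
      Rep {x | x ∈ verts P N} {e | e ∈ verts N P ∧ e ≠ y} := fun y q a b c =>
    master gP gN hC h1 h2 y y q 0 0 (fun _ x => x) (fun _ x => x.1) a b c fun x => absurd rfl x.2
  have own : ∀ (y : V) (q : ℤ), (y = top C ∧ (q = 80 * C.1 - 40 ∨ q = 80 * C.2.2 + 40)) ∨
      (y = (8 * C.2.1, 8 * C.2.2) ∧ q = 80 * C.2.1 + 40) ∨
      (C.1 < C.2.1 ∧ y = (8 * C.1, 8 * C.2.1) ∧ q = 80 * C.1 + 40) ∨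
      (y = (8 * C.1 - 3, 8 * C.1) ∧ q = 80 * C.1 - 12) ∨
      (y = (8 * C.2.2, 8 * C.2.2 + 3) ∧ q = 80 * C.2.2 + 12) →
      ∀ e, e ≠ y → S P C e → (adj (pnt C) e = true ↔ fl τ e.1 ≤ q ∧ q ≤ fr τ e.2) := by
    intro y q hy e ne h
    rcases h with rfl | rfl | ⟨_, rfl⟩ | ⟨_, rfl⟩ | ⟨_, rfl⟩ <;>
      simp only [adj_iff, pnt, top, fl7 w.1, fl5 w.1, fl0, fr1, fr0, fr3, ta, tb, tc,
        Bool.false_eq_true, if_false] at * <;>
      rcases hy with ⟨rfl, _⟩ | ⟨rfl, _⟩ | ⟨_, rfl, _⟩ | ⟨rfl, _⟩ | ⟨rfl, _⟩ <;>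
      first | exact absurd rfl ne | omega
  refine ⟨fun d hd => ?_, fun e he => ?_⟩
  · rcases pts_cases hd with rfl | ⟨f, rfl⟩ | ⟨f, rfl⟩
    · refine rep_of (G (fun t => !τ t) τ P N) (G τ (fun t => !τ t) N P) (fun d hd => ?_)
        (fun d hd => ?_) fun _ _ _ _ _ _ => std gP gN fun _ => rfl
      · exact (ex gP gN h1 hd.1).resolve_right fun ⟨D, _, u, v⟩ => hd.2 (not_not.1 u ▸ v)
      · exact (ex (A := fun _ => True) gN gP (by simpa using h2) hd).resolve_right (by simp)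
    · refine master gP gN hC h1 h2 (8 * C.1 - 3, 8 * C.1 - 2) (8 * C.1 - 3, 8 * C.1)
        (80 * C.1 - 12) (80 * C.1 - 10) (80 * C.1 + 10) (fun _ x => x.1) (fun _ x => x)
        (by simp only [OK, f, true_and]; omega) (by omega) (own _ _ (by simp))
        fun _ => ⟨fun x => x.2 rfl, by omega, by simp only [adj_iff, pnt]; omega, ?_⟩
      intro d l r ne hd
      rw [std gP gN (fun _ => rfl) hd (.inl ⟨.inr ⟨C, hC, .inr (.inr (.inr (.inl ⟨f, rfl⟩)))⟩,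
        rfl, rfl⟩)]
      simp only [fl5 w.1, fr0, ta, Bool.false_eq_true, if_false]
      refine and_congr_left' ?_
      rcases hd with ⟨u, -, rfl⟩ | ⟨D, -, -, rfl, u⟩
      · obtain ⟨-, u2, u3, -⟩ := u.res (sp := τ) gN
        have : ¬ (d.1 = 8 * C.1 - 3 ∧ d.2 = 8 * C.1 - 2) := fun x => ne (Prod.ext x.1 x.2)
        rw [fr]
        by_cases e : (d.2 + 3) / 8 = C.1
        · simp only [e, ta, Bool.not_false, if_true]
          split_ifs <;> omega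
        · split_ifs <;> omega
      · unfold Pos at u
        omega
    · refine master gP gN hC h1 h2 (8 * C.2.2 + 2, 8 * C.2.2 + 3) (8 * C.2.2, 8 * C.2.2 + 3)
        (80 * C.2.2 + 12) (80 * C.2.2 - 10) (80 * C.2.2 + 10) (fun _ x => x.1) (fun _ x => x)
        (by simp only [OK, f, true_and]; omega) (by omega) (own _ _ (by simp))
        fun _ => ⟨fun x => x.2 rfl, by omega, by simp only [adj_iff, pnt]; omega, ?_⟩
      intro d l r ne hd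
      rw [std gP gN (fun _ => rfl) hd (.inl ⟨.inr ⟨C, hC, .inr (.inr (.inr (.inr ⟨f, rfl⟩)))⟩,
        rfl, rfl⟩)]
      simp only [fr3, fl0, tc, Bool.false_eq_true, if_false]
      refine and_congr_right' ?_
      rcases hd with ⟨u, rfl, -⟩ | ⟨D, -, -, rfl, u⟩
      · obtain ⟨u2, -, -, u3, -⟩ := u.res (sp := τ) gN
        have : ¬ (d.1 = 8 * C.2.2 + 2 ∧ d.2 = 8 * C.2.2 + 3) := fun x => ne (Prod.ext x.1 x.2)
        rw [fl]
        split_ifs <;> omega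
      · unfold Pos at u
        omega
  · rcases seg_S he with rfl | rfl | ⟨f, rfl⟩ | ⟨f, rfl⟩ | ⟨f, rfl⟩
    · rcases gP.fr C hC with f | f
      · exact key _ (80 * C.1 - 40) (by simp only [OK, f, true_and]; omega) (by omega)
          (own _ _ (by simp))
      · exact key _ (80 * C.2.2 + 40) (by simp only [OK, f, true_and]; omega) (by omega)
          (own _ _ (by simp))
    · exact key _ (80 * C.2.1 + 40) (by simp only [OK]; omega) (by omega) (own _ _ (by simp))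
    · exact key _ (80 * C.1 + 40) (by simp only [OK]; omega) (by omega) (own _ _ (by simp [f]))
    · exact key _ (80 * C.1 - 12) (by simp only [OK, f, true_and]; omega) (by omega)
        (own _ _ (by simp))
    · exact key _ (80 * C.2.2 + 12) (by simp only [OK, f, true_and]; omega) (by omega)
        (own _ _ (by simp))

end DelAux

theorem del_thm : StFull ∧ StDel := ⟨DelAux.full, DelAux.del⟩

end Pool.Agent.Lib.MP_ae8a84_co.DP
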