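import Pool.Agent.Lib.MP_ae8a84_co.DP.Defs

/-!
Single gates, moving a wire, and feeding a column into an accumulator.
-/

namespace Pool.Agent.Lib.MP_ae8a84_co.DP

open Function

namespace FeedAux

lemma congr {p : Prog} {w : ℕ} {f g : St → St} (h : Tight p w f) (e : ∀ s i, f s i = g s i) :
    Tight p w g := by
  rwa [show g = f from funext fun s => funext fun i => (e s i).symm]

lemma one {q : ℕ × ℕ} {w : ℕ} {f : St → St} (h1 : WF [q] w) (h2 : ∀ s t, Run [q] s t ↔ t ≤ f s)
    (h3 : ∀ j < w, ∃ i < wid [q] w, ∀ s, update (f s) i true ≤ f (update s j true)) :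
    Tight [q] w f := by
  refine ⟨h1, h2, fun k hk j hj => ?_⟩
  rcases k with _ | _ | k
  · obtain ⟨i, a, b⟩ := h3 j hj
    exact ⟨i, a, fun s => ⟨s, le_rfl, (h2 _ _).2 (b s)⟩⟩
  · exact ⟨j, hj, fun s => ⟨f s, (h2 _ _).2 le_rfl, le_rfl⟩⟩
  · simp at hk

lemma zero : Tight [(0, 0), (3, 0)] 0 fun s i => if i = 0 then false else s (i - 1) := by
  have key : ∀ (s t : St) (a b : Bool), (∀ i, t (i + 1) ≤ s i) → (t 0 = true → a = true ∧ b = true) →
      Run [(3, 0)] (fun i => if i = 0 then a else if i = 1 then b else s (i - 2)) t := by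
    intro s t a b h1 h2
    refine ⟨t, ⟨by simp, fun i => ?_, ?_⟩, le_rfl⟩
    · simpa [no, ni, outs, ins, add_comm 1 i, add_comm 2 i] using h1 i
    · cases h : t 0 <;> simp_all [rel]
  have src : ∀ (s : St) (a b : Bool), (a && b) = false →
      Step (0, 0) s fun i => if i = 0 then a else if i = 1 then b else s (i - 2) := by
    intro s a b h
    refine ⟨by simp, fun i => ?_, ?_⟩
    · simp [no, ni, outs, ins, add_comm 2 i]
    · simpa [rel, -Bool.and_eq_false_imp, -Bool.not_and] using h
  have run : ∀ s t : St, Run [(0, 0), (3, 0)] s t ↔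
      t ≤ fun i => if i = 0 then false else s (i - 1) := by
    refine fun s t => ⟨?_, fun h => ⟨_, src s false false rfl, key s t _ _
      (fun i => by simpa using h (i + 1)) fun e => absurd (h 0) (by rw [e]; exact (by decide : ¬ true ≤ false))⟩⟩
    rintro ⟨u, ⟨-, a, b⟩, v, ⟨-, c, d⟩, e⟩ i
    refine (e i).trans ?_
    rcases i with _ | i
    · simp only [rel, zero_add] at b d
      revert b d
      cases u 0 <;> cases u 1 <;> cases v 0 <;> simp
    · have c' := c i
      have a' := a i
      simp only [no, ni, outs, ins] at a' c'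
      simpa [add_comm i 1] using c'.trans a'
  refine ⟨⟨by decide, by decide, by decide, by decide, trivial⟩, run, fun k hk j hj => ?_⟩
  rcases k with _ | _ | _ | k
  · simp [wid] at hj
  · refine ⟨0, by decide, fun s => ⟨_, ⟨_, src s (j != 0) (j == 0) (by cases j <;> simp), le_rfl⟩, ?_⟩⟩
    have hj' : j < 2 := hj
    have := key s (update (fun i => if i = 0 then false else s (i - 1)) 0 true) true true
      (fun i => by simp) fun _ => ⟨rfl, rfl⟩
    refine (congrArg (Run [(3, 0)] · _) (funext fun i => ?_)).mpr this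
    interval_cases j <;> rcases i with _ | _ | i <;> simp
  · exact ⟨j, hj, fun s => ⟨_, (run _ _).2 le_rfl, le_rfl⟩⟩
  · simp at hk

lemma dup : Tight [(4, 0)] 1 fun s i => s (i - 1) := by
  refine one ⟨by decide, by decide, trivial⟩ (fun s t => ⟨?_, fun h => ⟨t, ⟨by simp, fun i => ?_, ?_⟩,
    le_rfl⟩⟩) fun j hj => ⟨0, by decide, fun s i => ?_⟩
  · rintro ⟨u, ⟨-, a, b⟩, e⟩ i
    refine (e i).trans ?_
    simp only [rel, zero_add] at b
    rcases i with _ | _ | i
    · revert b; cases h : s 0 <;> cases u 0 <;> simp [h]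
    · revert b; cases h : s 0 <;> cases u 1 <;> simp [h]
    · simpa [no, ni, outs, ins, add_comm 1 i, add_comm 2 i] using a i
  · simpa [no, ni, outs, ins, add_comm 1 i, add_comm 2 i] using h (i + 2)
  · have h0 := h 0
    have h1 := h 1
    simp only [rel, zero_add] at *
    revert h0 h1
    cases s 0 <;> cases t 0 <;> cases t 1 <;> simp
  · obtain rfl : j = 0 := by omega
    rcases i with _ | _ | i <;> simp

lemma or : Tight [(2, 0)] 2 fun s i => if i = 0 then s 0 || s 1 else s (i + 1) := by
  refine one ⟨by decide, by decide, trivial⟩ (fun s t => ⟨?_, fun h => ⟨t, ⟨by simp, fun i => ?_, ?_⟩,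
    le_rfl⟩⟩) fun j hj => ⟨0, by decide, fun s i => ?_⟩
  · rintro ⟨u, ⟨-, a, b⟩, e⟩ i
    refine (e i).trans ?_
    simp only [rel, zero_add] at b
    rcases i with _ | i
    · revert b; cases s 0 <;> cases s 1 <;> cases u 0 <;> simp
    · simpa [no, ni, outs, ins, add_comm 1 i, add_comm 2 i] using a i
  · simpa [no, ni, outs, ins, add_comm 1 i, add_comm 2 i] using h (i + 1)
  · have h0 := h 0
    simp only [rel, zero_add] at *
    revert h0
    cases s 0 <;> cases s 1 <;> cases t 0 <;> simp
  · interval_cases j <;> rcases i with _ | i <;> simp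

/-- the position read by the wire `x` after `down a d` -/
def dn (a d x : ℕ) : ℕ := if x < a then x else if x = a then a + d else if x ≤ a + d then x - 1 else x

lemma down_tight (h1 : StRun) (h2 : StComp) (h3 : StFrame) (h4 : StUsw) (a W : ℕ) :
    ∀ d, a + d < W → Tight (down a d) W (fun s x => s (dn a d x)) ∧ wid (down a d) W = W := by
  intro d
  induction d with
  | zero =>
    refine fun _ => ⟨congr (h2.1 W) fun s i => congrArg s ?_, by simp [down, wid]⟩
    unfold dn
    split_ifs <;> omega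
  | succ d ih =>
    intro h
    have e : down a (d + 1) = shift (a + d) usw ++ down a d := by
      simp [down, List.range_succ]
    obtain ⟨f1, f2⟩ := h3 usw 2 _ (a + d) W h4.1 (by omega)
    have f3 : wid (shift (a + d) usw) W = W := by have := h4.2; omega
    obtain ⟨i1, i2⟩ := ih (by omega)
    rw [e, h1.2.2.2.1 _ _ _ f1.1, f3]
    refine ⟨congr (h2.2 _ _ W _ _ f1 (f3.symm ▸ i1)) fun s x => ?_, i2⟩
    simp only [comp_apply, frame, Equiv.swap_apply_def, dn]
    split_ifs <;> first | rfl | omega | (refine congrArg s ?_; omega)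

lemma last_tight (h1 : StRun) (h2 : StComp) (h3 : StFrame) (h4 : StUsw) {m i W : ℕ} (hi : i < m)
    (hW : m < W) : Tight (last m i) W
      (fun s x => if x = i then s i || s m else if x < m then s x else s (x + 1)) ∧
    wid (last m i) W + 1 = W := by
  obtain ⟨d1, d2⟩ := down_tight h1 h2 h3 h4 (i + 1) W (m - (i + 1)) (by omega)
  obtain ⟨f1, f2⟩ := h3 _ 2 _ i W or (by omega)
  have f3 : wid [(2, 0)] 2 = 1 := by decide
  rw [last, h1.2.2.2.1 _ _ _ d1.1, d2]
  refine ⟨congr (h2.2 _ _ W _ _ d1 (d2.symm ▸ f1)) fun s x => ?_, by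
    have : wid [(2, i)] W + 2 = W + wid [(2, 0)] 2 := f2
    omega⟩
  simp only [comp_apply, frame, dn]
  split_ifs <;> first | rfl | omega | (congr 1; omega) | (congr 2; omega)

end FeedAux

open FeedAux in
theorem feed_thm (h1 : StRun) (h2 : StComp) (h3 : StFrame) (h4 : StUsw) : StGates ∧ StFeed := by
  refine ⟨⟨zero, dup, or⟩, fun m i c W hi hW => ⟨?_, last_tight h1 h2 h3 h4 hi (by omega)⟩⟩
  obtain ⟨f1, f2⟩ := h3 _ 1 _ (m + c) W dup (by omega)
  have f3 : wid [(4, 0)] 1 = 2 := by decide
  have f4 : wid (shift (m + c) [(4, 0)]) W = W + 1 := by omega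
  obtain ⟨l1, l2⟩ := last_tight h1 h2 h3 h4 (m := m + c) (i := i) (W := W + 1) (by omega) (by omega)
  have e : feed m i c = shift (m + c) [(4, 0)] ++ last (m + c) i := rfl
  rw [e, h1.2.2.2.1 _ _ _ f1.1, f4]
  refine ⟨congr (h2.2 _ _ W _ _ f1 (f4.symm ▸ l1)) fun s x => ?_, by omega⟩
  simp only [comp_apply, frame, update_apply]
  split_ifs <;> first | rfl | omega | (congr 1; omega) | (congr 2; omega)

end Pool.Agent.Lib.MP_ae8a84_co.DP
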