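import Pool.Agent.Lib.MP_ae8a84_co.DP.Defs

/-!
Moved programs are tight.
-/

namespace Pool.Agent.Lib.MP_ae8a84_co.DP

open Function

namespace FrameAux

lemma sum_le : ∀ (p : Prog) (w : ℕ), WF p w →
    (p.map fun q => ni q.1).sum ≤ w + (p.map fun q => no q.1).sum
  | [], _, _ => by simp
  | q :: p, w, h => by
    have := sum_le p _ h.2.2
    have := h.2.1
    simp only [List.map_cons, List.sum_cons]
    omega

lemma wid_shift {p : Prog} {w j W : ℕ} (h : WF p w) (hw : j + w ≤ W) :
    wid (shift j p) W + w = W + wid p w := by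
  have := sum_le p w h
  simp only [wid, shift, List.map_map, comp_def]
  omega

lemma wf_shift (j : ℕ) : ∀ (p : Prog) (w W : ℕ), WF p w → j + w ≤ W → WF (shift j p) W
  | [], _, _, _, _ => trivial
  | q :: p, w, W, h, hw => by
    have := h.2.1
    exact ⟨h.1, by dsimp only; omega, wf_shift j p _ _ h.2.2 (by dsimp only; omega)⟩

lemma le_iff (j : ℕ) (s t : St) :
    t ≤ s ↔ (∀ i < j, t i ≤ s i) ∧ (fun x => t (j + x)) ≤ fun x => s (j + x) := by
  refine ⟨fun h => ⟨fun i _ => h i, fun x => h _⟩, fun h i => ?_⟩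
  rcases lt_or_ge i j with a | a
  · exact h.1 i a
  · obtain ⟨x, rfl⟩ := Nat.exists_eq_add_of_le a
    exact h.2 x

/-- the first `j` values of `s`, followed by `u` -/
def glue (j : ℕ) (s u : St) : St := fun i => if i < j then s i else u (i - j)

lemma glue_lt {j i : ℕ} (s u : St) (h : i < j) : glue j s u i = s i := if_pos h

lemma glue_add (j : ℕ) (s u : St) (x : ℕ) : glue j s u (j + x) = u x := by simp [glue]

lemma run_shift (j : ℕ) : ∀ (p : Prog) (s t : St), Run (shift j p) s t ↔
    (∀ i < j, t i ≤ s i) ∧ Run p (fun x => s (j + x)) fun x => t (j + x)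
  | [], s, t => le_iff j s t
  | q :: p, s, t => by
    constructor
    · rintro ⟨u, ⟨a, b, c⟩, d⟩
      obtain ⟨e, f⟩ := (run_shift j p u t).1 d
      refine ⟨fun i hi => (e i hi).trans (a i (by dsimp only; omega)), _,
        ⟨fun i hi => a _ (by dsimp only; omega), fun i => ?_, c⟩, f⟩
      simpa only [add_assoc] using b i
    · rintro ⟨e, u, ⟨a, b, c⟩, f⟩
      refine ⟨glue j s u, ⟨fun i hi => ?_, fun i => ?_, ?_⟩, (run_shift j p _ t).2
        ⟨fun i hi => by rw [glue_lt _ _ hi]; exact e i hi, by simpa only [glue_add] using f⟩⟩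
      · rcases lt_or_ge i j with g | g
        · rw [glue_lt _ _ g]
        · obtain ⟨x, rfl⟩ := Nat.exists_eq_add_of_le g
          rw [glue_add]
          exact a x (by dsimp only at hi; omega)
      · simpa only [add_assoc, glue_add] using b i
      · simpa only [add_assoc, glue_add] using c

lemma rel_mono : ∀ g < 6, ∀ a b c d a' b' c' d' : Bool, (0 < no g → c' = c) →
    (1 < no g → d' = d) → a ≤ a' → b ≤ b' → rel g a b c d = true → rel g a' b' c' d' = true := by
  intro g hg a b c d a' b' c' d'
  interval_cases g <;> cases a <;> cases b <;> cases c <;> cases d <;>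
    revert a' b' c' d' <;> decide

lemma le_upd (s : St) (x i : ℕ) : s i ≤ update s x true i := by
  rcases eq_or_ne i x with rfl | h
  · simp
  · rw [update_of_ne h]

lemma tail (y : ℕ) : ∀ (p : Prog) (w : ℕ) (s t : St), WF p w → Run p s t →
    Run p (update s (w + y) true) (update t (wid p w + y) true)
  | [], w, s, t, _, h => by
    simp only [wid, List.map_nil, List.sum_nil, add_zero, Nat.sub_zero]
    exact update_le_update_iff.2 ⟨le_rfl, fun i _ => h i⟩
  | q :: p, w, s, t, h, ⟨u, ⟨a, b, c⟩, d⟩ => by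
    have h1 := h.2.1
    have e : wid (q :: p) w = wid p (w + no q.1 - ni q.1) := by
      simp only [wid, List.map_cons, List.sum_cons]
      omega
    rw [e]
    refine ⟨_, ⟨fun i hi => ?_, fun i => ?_, ?_⟩, tail y p _ u t h.2.2 d⟩
    · rw [update_of_ne (by omega)]
      exact (a i hi).trans (le_upd _ _ _)
    · by_cases g : q.2 + ni q.1 + i = w + y
      · rw [g, update_self]
        exact le_top
      · rw [update_of_ne (by omega)]
        exact (b i).trans (le_upd _ _ _)
    · exact rel_mono _ h.1 _ _ _ _ _ _ _ _ (fun g => update_of_ne (by omega) ..)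
        (fun g => update_of_ne (by omega) ..) (le_upd _ _ _) (le_upd _ _ _) c

lemma upd_add (j x : ℕ) (s : St) :
    (fun y => update s (j + x) true (j + y)) = update (fun y => s (j + y)) x true := by
  funext y
  simp [update_apply]

lemma upd_lt {j x : ℕ} (h : x < j) (s : St) :
    (fun y => update s x true (j + y)) = fun y => s (j + y) :=
  funext fun y => update_of_ne (by omega) ..

lemma frun {j k x : ℕ} {p : Prog} {s t u : St} (a : Run (p.take k) (fun y => s (j + y)) u)
    (b : ∀ i < j, t i ≤ update (glue j s u) x true i)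
    (c : Run (p.drop k) (fun y => update (glue j s u) x true (j + y)) fun y => t (j + y)) :
    FRun (shift j p) k x s t := by
  refine ⟨glue j s u, ?_, ?_⟩
  · rw [shift, ← List.map_take]
    exact (run_shift j _ _ _).2
      ⟨fun i hi => by rw [glue_lt _ _ hi], by simpa only [glue_add] using a⟩
  · rw [shift, ← List.map_drop]
    exact (run_shift j _ _ _).2 ⟨b, c⟩

end FrameAux

open FrameAux

theorem frame_thm (h : StRun) : StFrame := by
  rintro p w act j W ⟨h1, h2, h3⟩ hw
  have hW := wid_shift h1 hw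
  have fr : ∀ s, frame j act s = glue j s (act fun x => s (j + x)) := fun _ => rfl
  refine ⟨⟨wf_shift j p w W h1 hw, fun s t => ?_, fun k hk x hx => ?_⟩, hW⟩
  · rw [run_shift, h2, le_iff j (frame j act s), fr]
    simp only [glue_add]
    exact and_congr_left fun _ => forall₂_congr fun i hi => by rw [glue_lt _ _ hi]
  have h4 := (h.2.2.1 (p.take k) (p.drop k) w).1 (by rwa [List.take_append_drop])
  have h5 := h.2.2.2.1 (p.take k) (p.drop k) w h4.1
  have h6 := wid_shift h4.1 hw
  have h7 : ∀ s, ∃ u, Run (p.take k) s u ∧ Run (p.drop k) u (act s) := fun s =>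
    (h.2.1 _ _ _ _).1 (by rw [List.take_append_drop]; exact (h2 _ _).2 le_rfl)
  rw [List.take_append_drop] at h5
  rw [shift, ← List.map_take] at hx
  change x < wid (shift j (p.take k)) W at hx
  rcases lt_or_ge x j with g | g
  · refine ⟨x, by omega, fun s => ?_⟩
    obtain ⟨u, a, b⟩ := h7 fun y => s (j + y)
    refine frun a (fun i hi => ?_) ?_
    · simp only [update_apply, fr, glue_lt _ _ hi, le_refl]
    · simpa only [upd_lt g, fr, glue_add] using b
  obtain ⟨x, rfl⟩ := Nat.exists_eq_add_of_le g
  have key : ∃ i, j + i < wid (shift j p) W ∧ ∀ s, FRun p k x s (update (act s) i true) := by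
    rcases lt_or_ge x (wid (p.take k) w) with g' | g'
    · obtain ⟨i, a, b⟩ := h3 k (by simpa [shift] using hk) x g'
      exact ⟨i, by omega, b⟩
    · obtain ⟨y, rfl⟩ := Nat.exists_eq_add_of_le g'
      refine ⟨wid p w + y, by omega, fun s => ?_⟩
      obtain ⟨u, a, b⟩ := h7 s
      exact ⟨u, a, h5 ▸ tail y _ _ _ _ h4.2 b⟩
  obtain ⟨i, a, b⟩ := key
  refine ⟨j + i, a, fun s => ?_⟩
  obtain ⟨u, c, d⟩ := b fun y => s (j + y)
  refine frun c (fun l hl => ?_) ?_
  · rw [update_of_ne (by omega), update_of_ne (by omega), fr, glue_lt _ _ hl, glue_lt _ _ hl]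
  · simpa only [upd_add, fr, glue_add] using d

end Pool.Agent.Lib.MP_ae8a84_co.DP
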