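import Pool.Agent.Lib.MP_ae8a84_co.DP.Defs

/-!
The two pages of a well formed program are in normal form.
-/

namespace Pool.Agent.Lib.MP_ae8a84_co.DP

open Pool.Agent.Lib.MP_ae8a84_co.NP (Cl Leg)

namespace GoodAux

theorem wid_take (h : StRun) (p : Prog) (hp : WF p 0) (k : ℕ) :
    wid (p.take k) 0 ≤ 2 * k ∧ WF (p.drop k) (wid (p.take k) 0) := by
  have h1 := (h.2.2.1 (p.take k) (p.drop k) 0).1 (by rwa [List.take_append_drop])
  refine ⟨?_, h1.2⟩
  have h2 := h.2.2.2.2 _ _ h1.1
  have h3 : (p.take k).length ≤ k := List.length_take_le _ _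
  omega

theorem gate (h : StRun) (p : Prog) (hp : WF p 0) (k : ℕ) (q : ℕ × ℕ) (hq : p[k]? = some q) :
    k < p.length ∧ q.1 < 6 ∧ q.2 ≤ 2 * k := by
  obtain ⟨hk, rfl⟩ := List.getElem?_eq_some_iff.1 hq
  have h1 := wid_take h p hp k
  rw [List.drop_eq_getElem_cons hk] at h1
  obtain ⟨h2, h3, h4, -⟩ := h1
  exact ⟨hk, h3, by omega⟩

theorem base_lt (n : ℕ) {k l : ℕ} (hkl : k < l) : base n k + (10 * n + 4) ≤ base n l := by
  have h : (k + 1) * (10 * n + 4) ≤ l * (10 * n + 4) := Nat.mul_le_mul_right _ hkl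
  unfold base
  rw [Nat.add_mul] at h
  omega

theorem base_succ (n k : ℕ) : base n (k + 1) = base n k + (10 * n + 4) := by
  unfold base
  ring

theorem base_pos (n k : ℕ) : 1 ≤ base n k := by
  unfold base
  omega

/-- the lists of port times -/
def PL (L : List ℕ) : Prop :=
  L = [] ∨ (∃ a, a ≤ 3 ∧ L = [a]) ∨ ∃ a b, a < b ∧ b ≤ 3 ∧ L = [a, b]

theorem pl_ins {g : ℕ} (hg : g < 6) : PL (ins g) := by
  unfold PL
  interval_cases g <;> simp [ins]

theorem pl_outs {g : ℕ} (hg : g < 6) : PL (outs g) := by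
  unfold PL
  interval_cases g <;> simp [outs]

theorem port_nil (j i : ℕ) : (i < j ∧ port [] j i = 4 * i) ∨ (j ≤ i ∧ port [] j i = 4 * i + 4) := by
  unfold port
  simp only [List.length_nil]
  split_ifs <;> omega

theorem port_one (a j i : ℕ) : (i ≠ j ∧ port [a] j i = 4 * i) ∨
    (i = j ∧ port [a] j i = 4 * j + a) := by
  unfold port
  simp only [List.length_singleton]
  split_ifs with h1 h2
  · omega
  · have : i - j = 0 := by omega
    rw [this, List.getD_cons_zero]
    omega
  · omega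

theorem port_two (a b j i : ℕ) : (i < j ∧ port [a, b] j i = 4 * i) ∨
    (i = j ∧ port [a, b] j i = 4 * j + a) ∨ (i = j + 1 ∧ port [a, b] j i = 4 * j + b) ∨
    (j + 2 ≤ i ∧ port [a, b] j i + 4 = 4 * i) := by
  unfold port
  simp only [List.length_cons, List.length_nil]
  split_ifs with h1 h2
  · omega
  · by_cases h3 : i = j
    · have : i - j = 0 := by omega
      rw [this, List.getD_cons_zero]
      omega
    · have : i - j = 1 := by omega
      rw [this, List.getD_cons_succ, List.getD_cons_zero]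
      omega
  · omega

theorem port_le {L : List ℕ} (hL : PL L) (j i : ℕ) : port L j i ≤ 4 * i + 4 := by
  rcases hL with rfl | ⟨a, ha, rfl⟩ | ⟨a, b, hab, hb, rfl⟩
  · have := port_nil j i
    omega
  · have := port_one a j i
    omega
  · have := port_two a b j i
    omega

theorem port_lt {L : List ℕ} (hL : PL L) (j : ℕ) {i i' : ℕ} (hi : i < i') :
    port L j i < port L j i' := by
  rcases hL with rfl | ⟨a, ha, rfl⟩ | ⟨a, b, hab, hb, rfl⟩
  · have := port_nil j i
    have := port_nil j i'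
    omega
  · have := port_one a j i
    have := port_one a j i'
    omega
  · have := port_two a b j i
    have := port_two a b j i'
    omega

theorem lp_facts {g : ℕ} (hg : g < 6) {c : Cl} (hc : c ∈ lp g) :
    c.1 ≤ c.2.1 ∧ c.2.1 < c.2.2 ∧ c.2.2 ≤ 3 ∧ (∀ d ∈ lp g, d = c) ∧
      ∀ j i, port (outs g) j i < 4 * j + c.1 ∨ 4 * j + c.2.2 ≤ port (outs g) j i := by
  interval_cases g
  · simp [lp] at hc
  · obtain rfl : c = (0, 0, 1) := by simpa [lp] using hc
    refine ⟨by simp, by simp, by simp, by simp [lp], fun j i => ?_⟩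
    have := port_nil j i
    change port [] j i < 4 * j + 0 ∨ 4 * j + 1 ≤ port [] j i
    omega
  · obtain rfl : c = (0, 1, 2) := by simpa [lp] using hc
    refine ⟨by simp, by simp, by simp, by simp [lp], fun j i => ?_⟩
    have := port_one 3 j i
    change port [3] j i < 4 * j + 0 ∨ 4 * j + 2 ≤ port [3] j i
    omega
  · obtain rfl : c = (1, 1, 2) := by simpa [lp] using hc
    refine ⟨by simp, by simp, by simp, by simp [lp], fun j i => ?_⟩
    have := port_one 0 j i
    change port [0] j i < 4 * j + 1 ∨ 4 * j + 2 ≤ port [0] j i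
    omega
  · obtain rfl : c = (1, 1, 2) := by simpa [lp] using hc
    refine ⟨by simp, by simp, by simp, by simp [lp], fun j i => ?_⟩
    have := port_two 0 2 j i
    change port [0, 2] j i < 4 * j + 1 ∨ 4 * j + 2 ≤ port [0, 2] j i
    omega
  · obtain rfl : c = (0, 0, 1) := by simpa [lp] using hc
    refine ⟨by simp, by simp, by simp, by simp [lp], fun j i => ?_⟩
    have := port_two 2 3 j i
    change port [2, 3] j i < 4 * j + 0 ∨ 4 * j + 1 ≤ port [2, 3] j i
    omega

theorem ln_facts {g : ℕ} (hg : g < 6) {c : Cl} (hc : c ∈ ln g) :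
    c.1 ≤ c.2.1 ∧ c.2.1 < c.2.2 ∧ c.2.2 ≤ 3 ∧ (∀ d ∈ ln g, d = c) ∧
      ∀ j i, port (ins g) j i ≤ 4 * j + c.1 ∨ 4 * j + c.2.2 < port (ins g) j i := by
  interval_cases g
  · obtain rfl : c = (0, 0, 1) := by simpa [ln] using hc
    refine ⟨by simp, by simp, by simp, by simp [ln], fun j i => ?_⟩
    have := port_nil j i
    change port [] j i ≤ 4 * j + 0 ∨ 4 * j + 1 < port [] j i
    omega
  · simp [ln] at hc
  · obtain rfl : c = (2, 2, 3) := by simpa [ln] using hc
    refine ⟨by simp, by simp, by simp, by simp [ln], fun j i => ?_⟩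
    have := port_two 0 1 j i
    change port [0, 1] j i ≤ 4 * j + 2 ∨ 4 * j + 3 < port [0, 1] j i
    omega
  · obtain rfl : c = (0, 0, 1) := by simpa [ln] using hc
    refine ⟨by simp, by simp, by simp, by simp [ln], fun j i => ?_⟩
    have := port_two 0 2 j i
    change port [0, 2] j i ≤ 4 * j + 0 ∨ 4 * j + 1 < port [0, 2] j i
    omega
  · obtain rfl : c = (0, 0, 1) := by simpa [ln] using hc
    refine ⟨by simp, by simp, by simp, by simp [ln], fun j i => ?_⟩
    have := port_one 2 j i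
    change port [2] j i ≤ 4 * j + 0 ∨ 4 * j + 1 < port [2] j i
    omega
  · obtain rfl : c = (1, 2, 3) := by simpa [ln] using hc
    refine ⟨by simp, by simp, by simp, by simp [ln], fun j i => ?_⟩
    have := port_one 0 j i
    change port [0] j i ≤ 4 * j + 1 ∨ 4 * j + 3 < port [0] j i
    omega

/-- a local clause of the positive page -/
def LocP (n k : ℕ) (q : ℕ × ℕ) (C : Cl) : Prop :=
  ∃ c ∈ lp q.1, C = (base n k + 4 * q.2 + c.1, base n k + 4 * q.2 + c.2.1,
    base n k + 4 * q.2 + c.2.2)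

/-- an arc of the positive page -/
def ArcP (n k : ℕ) (q : ℕ × ℕ) (C : Cl) : Prop :=
  ∃ i < 2 * n, ∃ m, m + i = base n k + (10 * n + 3) ∧
    C = (base n k + port (outs q.1) q.2 i, base n k + port (outs q.1) q.2 i, m)

/-- a local clause of the negative page -/
def LocN (n k : ℕ) (q : ℕ × ℕ) (C : Cl) : Prop :=
  ∃ c ∈ ln q.1, C = (base n k + 4 * q.2 + c.1, base n k + 4 * q.2 + c.2.1,
    base n k + 4 * q.2 + c.2.2)

/-- an arc of the negative page -/
def ArcN (n k : ℕ) (q : ℕ × ℕ) (C : Cl) : Prop :=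
  ∃ i < 2 * n, ∃ m, 1 ≤ m ∧ m + i + 1 = base n k ∧
    C = (m, m, base n k + port (ins q.1) q.2 i)

theorem memP (h : StRun) (p : Prog) (hp : WF p 0) {C : Cl} (hC : C ∈ pgP p) :
    ∃ k q, p[k]? = some q ∧ (LocP p.length k q C ∨ ArcP p.length k q C) := by
  unfold pgP at hC
  obtain ⟨⟨q, k⟩, hq, hC⟩ := List.mem_flatMap.1 hC
  have hq' : p[k]? = some q := List.mk_mem_zipIdx_iff_getElem?.1 hq
  refine ⟨k, q, hq', ?_⟩
  rcases List.mem_append.1 hC with hC | hC
  · obtain ⟨c, hc, rfl⟩ := List.mem_map.1 hC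
    exact Or.inl ⟨c, hc, rfl⟩
  · obtain ⟨i, hi, rfl⟩ := List.mem_map.1 hC
    have h1 := List.mem_range.1 hi
    have h2 := (wid_take h p hp (k + 1)).1
    have h3 := (gate h p hp k q hq').1
    have h4 : i < 2 * p.length := by
      dsimp only at h1
      omega
    refine Or.inr ⟨i, h4, mT p.length k i, ?_, rfl⟩
    unfold mT
    omega

theorem memN (h : StRun) (p : Prog) (hp : WF p 0) {C : Cl} (hC : C ∈ pgN p) :
    ∃ k q, p[k]? = some q ∧ (LocN p.length k q C ∨ ArcN p.length k q C) := by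
  unfold pgN at hC
  obtain ⟨⟨q, k⟩, hq, hC⟩ := List.mem_flatMap.1 hC
  have hq' : p[k]? = some q := List.mk_mem_zipIdx_iff_getElem?.1 hq
  refine ⟨k, q, hq', ?_⟩
  rcases List.mem_append.1 hC with hC | hC
  · obtain ⟨c, hc, rfl⟩ := List.mem_map.1 hC
    exact Or.inl ⟨c, hc, rfl⟩
  · obtain ⟨i, hi, rfl⟩ := List.mem_map.1 hC
    have h1 := List.mem_range.1 hi
    have h2 := (wid_take h p hp k).1
    have h3 := (gate h p hp k q hq').1
    dsimp only at h1
    have h4 : i < 2 * p.length := by omega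
    obtain ⟨l, rfl⟩ : ∃ l, k = l + 1 := ⟨k - 1, by omega⟩
    have h5 := base_succ p.length l
    have h6 := base_pos p.length l
    refine Or.inr ⟨i, h4, mT p.length l i, ?_, ?_, rfl⟩
    · unfold mT
      omega
    · unfold mT
      omega

theorem locP_b {n k : ℕ} {q : ℕ × ℕ} {C : Cl} (hg : q.1 < 6) (hk : k < n) (hj : q.2 ≤ 2 * k)
    (hC : LocP n k q C) :
    base n k ≤ C.1 ∧ C.1 ≤ C.2.1 ∧ C.2.1 < C.2.2 ∧ C.2.2 < base n k + (8 * n + 4) := by
  obtain ⟨c, hc, rfl⟩ := hC
  obtain ⟨h1, h2, h3, -⟩ := lp_facts hg hc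
  dsimp only
  omega

theorem arcP_b {n k : ℕ} {q : ℕ × ℕ} {C : Cl} (hg : q.1 < 6) (hC : ArcP n k q C) :
    base n k ≤ C.1 ∧ C.1 = C.2.1 ∧ C.2.1 < base n k + (8 * n + 4) ∧
      base n k + (8 * n + 4) ≤ C.2.2 ∧ C.2.2 < base n k + (10 * n + 4) := by
  obtain ⟨i, hi, m, hm, rfl⟩ := hC
  have := port_le (pl_outs hg) q.2 i
  dsimp only
  omega

theorem locN_b {n k : ℕ} {q : ℕ × ℕ} {C : Cl} (hg : q.1 < 6) (hk : k < n) (hj : q.2 ≤ 2 * k)
    (hC : LocN n k q C) :
    base n k ≤ C.1 ∧ C.1 ≤ C.2.1 ∧ C.2.1 < C.2.2 ∧ C.2.2 < base n k + (8 * n + 4) := by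
  obtain ⟨c, hc, rfl⟩ := hC
  obtain ⟨h1, h2, h3, -⟩ := ln_facts hg hc
  dsimp only
  omega

theorem arcN_b {n k : ℕ} {q : ℕ × ℕ} {C : Cl} (hg : q.1 < 6) (hC : ArcN n k q C) :
    1 ≤ C.1 ∧ base n k ≤ C.1 + 2 * n ∧ C.1 = C.2.1 ∧ C.2.1 < base n k ∧
      base n k ≤ C.2.2 ∧ C.2.2 < base n k + (8 * n + 4) := by
  obtain ⟨i, hi, m, hm0, hm, rfl⟩ := hC
  have := port_le (pl_ins hg) q.2 i
  dsimp only
  omega

theorem loc_arc_P {n k : ℕ} {q : ℕ × ℕ} {C D : Cl} (hg : q.1 < 6) (hk : k < n) (hj : q.2 ≤ 2 * k)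
    (hC : LocP n k q C) (hD : ArcP n k q D) : C.2.2 ≤ D.1 ∨ Inside C D := by
  have b1 := locP_b hg hk hj hC
  have b2 := arcP_b hg hD
  obtain ⟨c, hc, rfl⟩ := hC
  obtain ⟨i, hi, m, hm, rfl⟩ := hD
  have := (lp_facts hg hc).2.2.2.2 q.2 i
  unfold Inside
  dsimp only at *
  omega

theorem loc_arc_N {n k : ℕ} {q : ℕ × ℕ} {C D : Cl} (hg : q.1 < 6)
    (hC : LocN n k q C) (hD : ArcN n k q D) : D.2.2 ≤ C.1 ∨ Inside C D := by
  obtain ⟨c, hc, rfl⟩ := hC
  obtain ⟨i, hi, m, hm0, hm, rfl⟩ := hD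
  have := (ln_facts hg hc).2.2.2.2 q.2 i
  unfold Inside
  dsimp only at *
  omega

theorem arc_arc_P {n k : ℕ} {q : ℕ × ℕ} {C D : Cl} (hg : q.1 < 6)
    (hC : ArcP n k q C) (hD : ArcP n k q D) (hne : C ≠ D) : Inside C D ∨ Inside D C := by
  obtain ⟨i, hi, m, hm, rfl⟩ := hC
  obtain ⟨i', hi', m', hm', rfl⟩ := hD
  unfold Inside
  dsimp only
  rcases lt_trichotomy i i' with h | h | h
  · have := port_lt (pl_outs hg) q.2 h
    omega
  · subst h
    obtain rfl : m = m' := by omega
    exact absurd rfl hne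
  · have := port_lt (pl_outs hg) q.2 h
    omega

theorem arc_arc_N {n k : ℕ} {q : ℕ × ℕ} {C D : Cl} (hg : q.1 < 6)
    (hC : ArcN n k q C) (hD : ArcN n k q D) (hne : C ≠ D) : Inside C D ∨ Inside D C := by
  obtain ⟨i, hi, m, hm0, hm, rfl⟩ := hC
  obtain ⟨i', hi', m', hm0', hm', rfl⟩ := hD
  unfold Inside
  dsimp only
  rcases lt_trichotomy i i' with h | h | h
  · have := port_lt (pl_ins hg) q.2 h
    omega
  · subst h
    obtain rfl : m = m' := by omega
    exact absurd rfl hne
  · have := port_lt (pl_ins hg) q.2 h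
    omega

theorem loc_loc_P {n k : ℕ} {q : ℕ × ℕ} {C D : Cl} (hg : q.1 < 6)
    (hC : LocP n k q C) (hD : LocP n k q D) : C = D := by
  obtain ⟨c, hc, rfl⟩ := hC
  obtain ⟨d, hd, rfl⟩ := hD
  rw [(lp_facts hg hc).2.2.2.1 d hd]

theorem loc_loc_N {n k : ℕ} {q : ℕ × ℕ} {C D : Cl} (hg : q.1 < 6)
    (hC : LocN n k q C) (hD : LocN n k q D) : C = D := by
  obtain ⟨c, hc, rfl⟩ := hC
  obtain ⟨d, hd, rfl⟩ := hD
  rw [(ln_facts hg hc).2.2.2.1 d hd]

theorem layP_b {n k : ℕ} {q : ℕ × ℕ} {C : Cl} (hg : q.1 < 6) (hk : k < n) (hj : q.2 ≤ 2 * k)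
    (hC : LocP n k q C ∨ ArcP n k q C) :
    base n k ≤ C.1 ∧ C.1 ≤ C.2.1 ∧ C.2.1 < C.2.2 ∧ C.2.2 < base n k + (10 * n + 4) ∧
      C.1 < base n k + (8 * n + 4) := by
  rcases hC with hC | hC
  · have := locP_b hg hk hj hC
    omega
  · have := arcP_b hg hC
    omega

theorem layN_b {n k : ℕ} {q : ℕ × ℕ} {C : Cl} (hg : q.1 < 6) (hk : k < n) (hj : q.2 ≤ 2 * k)
    (hC : LocN n k q C ∨ ArcN n k q C) :
    1 ≤ C.1 ∧ base n k ≤ C.1 + 2 * n ∧ C.1 ≤ C.2.1 ∧ C.2.1 < C.2.2 ∧
      C.2.2 < base n k + (8 * n + 4) ∧ base n k ≤ C.2.2 := by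
  have := base_pos n k
  rcases hC with hC | hC
  · have := locN_b hg hk hj hC
    omega
  · have := arcN_b hg hC
    omega

theorem goodP (h : StRun) : StGoodP := by
  intro p hp
  refine ⟨fun C hC => ?_, fun C hC D hD hne => ?_, fun C hC => ?_⟩
  · obtain ⟨k, q, hq, hC⟩ := memP h p hp hC
    obtain ⟨hk, hg, hj⟩ := gate h p hp k q hq
    have := layP_b hg hk hj hC
    have := base_pos p.length k
    omega
  · obtain ⟨k, q, hq, hC⟩ := memP h p hp hC
    obtain ⟨hk, hg, hj⟩ := gate h p hp k q hq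
    obtain ⟨l, r, hr, hD⟩ := memP h p hp hD
    obtain ⟨hl, hg', hj'⟩ := gate h p hp l r hr
    have b1 := layP_b hg hk hj hC
    have b2 := layP_b hg' hl hj' hD
    rcases lt_trichotomy k l with hkl | hkl | hkl
    · have := base_lt p.length hkl
      omega
    · subst hkl
      obtain rfl : q = r := Option.some.inj (hq.symm.trans hr)
      rcases hC with hC | hC <;> rcases hD with hD | hD
      · exact absurd (loc_loc_P hg hC hD) hne
      · have := loc_arc_P hg hk hj hC hD
        tauto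
      · have := loc_arc_P hg hk hj hD hC
        tauto
      · have := arc_arc_P hg hC hD hne
        tauto
    · have := base_lt p.length hkl
      omega
  · obtain ⟨k, q, hq, hC⟩ := memP h p hp hC
    obtain ⟨hk, hg, hj⟩ := gate h p hp k q hq
    have b1 := layP_b hg hk hj hC
    rcases hC with hC | hC
    · left
      unfold freeL
      rw [List.all_eq_true]
      intro D hD
      rw [bne_iff_ne]
      obtain ⟨l, r, hr, hD⟩ := memP h p hp hD
      obtain ⟨hl, hg', hj'⟩ := gate h p hp l r hr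
      have b2 := layP_b hg' hl hj' hD
      rcases lt_trichotomy k l with hkl | hkl | hkl
      · have := base_lt p.length hkl
        omega
      · subst hkl
        obtain rfl : q = r := Option.some.inj (hq.symm.trans hr)
        rcases hD with hD | hD
        · obtain rfl := loc_loc_P hg hC hD
          omega
        · have := arcP_b hg hD
          omega
      · have := base_lt p.length hkl
        omega
    · right
      unfold freeR
      rw [List.all_eq_true]
      intro D hD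
      rw [bne_iff_ne]
      obtain ⟨l, r, hr, hD⟩ := memP h p hp hD
      obtain ⟨hl, hg', hj'⟩ := gate h p hp l r hr
      have b2 := layP_b hg' hl hj' hD
      have b3 := arcP_b hg hC
      rcases lt_trichotomy k l with hkl | hkl | hkl
      · have := base_lt p.length hkl
        omega
      · subst hkl
        omega
      · have := base_lt p.length hkl
        omega

theorem goodN (h : StRun) : StGoodN := by
  intro p hp
  refine ⟨fun C hC => ?_, fun C hC D hD hne => ?_, fun C hC => ?_⟩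
  · obtain ⟨k, q, hq, hC⟩ := memN h p hp hC
    obtain ⟨hk, hg, hj⟩ := gate h p hp k q hq
    have := layN_b hg hk hj hC
    omega
  · obtain ⟨k, q, hq, hC⟩ := memN h p hp hC
    obtain ⟨hk, hg, hj⟩ := gate h p hp k q hq
    obtain ⟨l, r, hr, hD⟩ := memN h p hp hD
    obtain ⟨hl, hg', hj'⟩ := gate h p hp l r hr
    have b1 := layN_b hg hk hj hC
    have b2 := layN_b hg' hl hj' hD
    rcases lt_trichotomy k l with hkl | hkl | hkl
    · have := base_lt p.length hkl
      omega
    · subst hkl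
      obtain rfl : q = r := Option.some.inj (hq.symm.trans hr)
      rcases hC with hC | hC <;> rcases hD with hD | hD
      · exact absurd (loc_loc_N hg hC hD) hne
      · have := loc_arc_N hg hC hD
        tauto
      · have := loc_arc_N hg hD hC
        tauto
      · have := arc_arc_N hg hC hD hne
        tauto
    · have := base_lt p.length hkl
      omega
  · obtain ⟨k, q, hq, hC⟩ := memN h p hp hC
    obtain ⟨hk, hg, hj⟩ := gate h p hp k q hq
    have b1 := layN_b hg hk hj hC
    rcases hC with hC | hC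
    · right
      unfold freeR
      rw [List.all_eq_true]
      intro D hD
      rw [bne_iff_ne]
      obtain ⟨l, r, hr, hD⟩ := memN h p hp hD
      obtain ⟨hl, hg', hj'⟩ := gate h p hp l r hr
      have b2 := layN_b hg' hl hj' hD
      rcases lt_trichotomy k l with hkl | hkl | hkl
      · have := base_lt p.length hkl
        omega
      · subst hkl
        obtain rfl : q = r := Option.some.inj (hq.symm.trans hr)
        rcases hD with hD | hD
        · obtain rfl := loc_loc_N hg hC hD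
          omega
        · have := arcN_b hg hD
          omega
      · have := base_lt p.length hkl
        omega
    · left
      unfold freeL
      rw [List.all_eq_true]
      intro D hD
      rw [bne_iff_ne]
      obtain ⟨l, r, hr, hD⟩ := memN h p hp hD
      obtain ⟨hl, hg', hj'⟩ := gate h p hp l r hr
      have b2 := layN_b hg' hl hj' hD
      have b3 := arcN_b hg hC
      rcases lt_trichotomy k l with hkl | hkl | hkl
      · have := base_lt p.length hkl
        omega
      · subst hkl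
        omega
      · have := base_lt p.length hkl
        omega

end GoodAux

theorem good_thm (h : StRun) : StGoodP ∧ StGoodN := ⟨GoodAux.goodP h, GoodAux.goodN h⟩

end Pool.Agent.Lib.MP_ae8a84_co.DP
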