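import Pool.Agent.Lib.MP_ae8a84_co.DP.Defs

namespace Pool.Agent.Lib.MP_ae8a84_co.DP

open Pool.Agent.Lib.MP_ae8a84_co.NP (Cl Leg ofMatrix Rect)

namespace MatAux

variable {X Y : List V}

theorem mat_t (hX : X ≠ []) : (ofMatrix (mat X Y)).t = Y.length := by
  cases X with
  | nil => exact absurd rfl hX
  | cons d X => simp [ofMatrix, mat]

theorem mat_s : (ofMatrix (mat X Y)).s = X.length := by simp [ofMatrix, mat]

theorem rect_mat : Rect (mat X Y) := by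
  intro row h
  obtain ⟨d, hd, rfl⟩ := List.mem_map.1 h
  exact (List.length_map _).trans (mat_t (List.ne_nil_of_mem hd)).symm

theorem mat_E (hX : X ≠ []) (x : Fin (ofMatrix (mat X Y)).s) (y : Fin (ofMatrix (mat X Y)).t) :
    (ofMatrix (mat X Y)).E x y ↔ adj (X.getD x default) (Y.getD y default) = true := by
  have h1 : x.1 < X.length := mat_s ▸ x.2
  have h2 : y.1 < Y.length := mat_t hX ▸ y.2
  simp [ofMatrix, mat, h1, h2]

theorem Rep.mono {A A' B B' : Set V} (h : Rep A B) (a : A' ⊆ A) (b : B' ⊆ B) : Rep A' B' := by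
  obtain ⟨l, r, l', r', h1, h2, h3⟩ := h
  exact ⟨l, r, l', r', h1, h2, fun d hd e he => h3 d (a hd) e (b he)⟩

theorem intervalOn_iff {G : Bigraph} {u : Fin G.s → V} {v : Fin G.t → V}
    (h : ∀ x y, G.E x y ↔ adj (u x) (v y) = true) (S : Set (Fin G.s)) (T : Set (Fin G.t)) :
    G.IntervalOn S T ↔ Rep (u '' S) (v '' T) := by
  constructor
  · rintro ⟨l, r, l', r', h1, h2, h3⟩
    have e1 : ∀ d, ∃ a b : ℝ, a ≤ b ∧ (d ∈ u '' S → ∃ x ∈ S, u x = d ∧ a = l x ∧ b = r x) :=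
      fun d => by
        by_cases hd : d ∈ u '' S
        · obtain ⟨x, hx, rfl⟩ := hd
          exact ⟨_, _, h1 x, fun _ => ⟨x, hx, rfl, rfl, rfl⟩⟩
        · exact ⟨0, 0, le_rfl, fun h => absurd h hd⟩
    have e2 : ∀ d, ∃ a b : ℝ, a ≤ b ∧ (d ∈ v '' T → ∃ y ∈ T, v y = d ∧ a = l' y ∧ b = r' y) :=
      fun d => by
        by_cases hd : d ∈ v '' T
        · obtain ⟨x, hx, rfl⟩ := hd
          exact ⟨_, _, h2 x, fun _ => ⟨x, hx, rfl, rfl, rfl⟩⟩
        · exact ⟨0, 0, le_rfl, fun h => absurd h hd⟩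
    choose a b hab e1 using e1
    choose c d hcd e2 using e2
    refine ⟨a, b, c, d, hab, hcd, fun i hi j hj => ?_⟩
    obtain ⟨x, hx, rfl, x1, x2⟩ := e1 i hi
    obtain ⟨y, hy, rfl, y1, y2⟩ := e2 j hj
    rw [x1, x2, y1, y2, ← icc_inter_nonempty (h1 x) (h2 y), ← h3 x hx y hy, h]
  · rintro ⟨l, r, l', r', h1, h2, h3⟩
    exact ⟨fun x => l (u x), fun x => r (u x), fun y => l' (v y), fun y => r' (v y), fun _ => h1 _,
      fun _ => h2 _, fun x hx y hy => by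
        rw [h, h3 _ ⟨x, hx, rfl⟩ _ ⟨y, hy, rfl⟩, icc_inter_nonempty (h1 _) (h2 _)]⟩

theorem idx {k : ℕ} (hk : k = X.length) (hX : X.Nodup) :
    (Function.Injective fun x : Fin k => X.getD x default) ∧
      ∀ d, d ∈ X ↔ ∃ x : Fin k, X.getD x default = d := by
  subst hk
  refine ⟨fun x y h => ?_, fun d => ?_⟩
  · simp only [List.getD_eq_getElem?_getD, Fin.is_lt, List.getElem?_eq_getElem,
      Option.getD_some] at h
    exact Fin.ext ((List.Nodup.getElem_inj_iff hX).1 h)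
  · simp [List.mem_iff_getElem, Fin.exists_iff]

theorem img {k : ℕ} {u : Fin k → V} (h : u.Injective) (e : ∀ d, d ∈ X ↔ ∃ x, u x = d) :
    u '' Set.univ = {x | x ∈ X} ∧ ∀ i, u '' {i}ᶜ = {x | x ∈ X ∧ x ≠ u i} := by
  refine ⟨Set.ext fun d => by simp [e], fun i => Set.ext fun d => ⟨?_, ?_⟩⟩
  · rintro ⟨x, hx, rfl⟩
    exact ⟨(e _).2 ⟨x, rfl⟩, fun c => hx (h c)⟩
  · rintro ⟨a, b⟩
    obtain ⟨x, rfl⟩ := (e d).1 a
    exact ⟨x, fun c => b (congrArg u c), rfl⟩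

end MatAux

open MatAux in
theorem mat_thm : StMat := by
  intro X Y hX nX nY
  have hE := mat_E (Y := Y) hX
  obtain ⟨i1, i2⟩ := idx (mat_s (X := X) (Y := Y)) nX
  obtain ⟨j1, j2⟩ := idx (mat_t (Y := Y) hX) nY
  obtain ⟨a1, a2⟩ := img i1 i2
  obtain ⟨b1, b2⟩ := img j1 j2
  have key := intervalOn_iff hE
  refine ⟨rect_mat, ⟨fun x => (X.getD x default).1, fun x => (X.getD x default).2,
    fun y => (Y.getD y default).1, fun y => (Y.getD y default).2, fun x y => ?_⟩,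
    and_congr (by rw [key, a1, b1]) ⟨fun h => ⟨fun d hd => ?_, fun d hd => ?_⟩, fun h S T c => ?_⟩⟩
  · rw [hE]
    simp only [adj, Bool.and_eq_true, decide_eq_true_eq, Nat.cast_le]
  · obtain ⟨x, rfl⟩ := (i2 d).1 hd
    rw [← a2, ← b1, ← key]
    exact h _ _ fun c => (c.1.ge (Set.mem_univ x) : x ∈ ({x}ᶜ : Set _)) rfl
  · obtain ⟨x, rfl⟩ := (j2 d).1 hd
    rw [← a1, ← b2, ← key]
    exact h _ _ fun c => (c.2.ge (Set.mem_univ x) : x ∈ ({x}ᶜ : Set _)) rfl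
  · rw [key]
    rcases not_and_or.1 c with c | c
    · obtain ⟨x, hx⟩ := (Set.ne_univ_iff_exists_notMem S).1 c
      have := h.1 _ ((i2 _).2 ⟨x, rfl⟩)
      rw [← a2, ← b1] at this
      exact Rep.mono this (Set.image_mono fun z hz e => hx (e ▸ hz))
        (Set.image_mono (Set.subset_univ _))
    · obtain ⟨x, hx⟩ := (Set.ne_univ_iff_exists_notMem T).1 c
      have := h.2 _ ((j2 _).2 ⟨x, rfl⟩)
      rw [← a1, ← b2] at this
      exact Rep.mono this (Set.image_mono (Set.subset_univ _))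
        (Set.image_mono fun z hz e => hx (e ▸ hz))

end Pool.Agent.Lib.MP_ae8a84_co.DP
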