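import Pool.Agent.Lib.MP_ae8a84_co.DP.Defs

/-!
The bigraphs all of whose proper induced subgraphs are interval bigraphs form a language in NP.
-/

namespace Pool.Agent.Lib.MP_ae8a84_co.DP

open Pool.Agent.Lib.MP_ae8a84_co.NP
open Pool.Agent.Shared.PolyTime Pool.Agent.Lib.MP_8f56c4_lc.H3 N487b59b3 Finset

namespace MemAux

/-- test of a certificate for the graph without the vertex number `k` -/
def chkS (M : List (List Bool)) (k : ℕ) (w : List (ℕ × ℕ) × List (ℕ × ℕ)) : Bool :=
  (List.range M.length).all fun x => (List.range (M.headD []).length).all fun y =>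
    (decide (x = k) || decide (M.length + y = k)) ||
    ((ent M x y == (decide ((w.2.getD y (0, 0)).1 ≤ (w.1.getD x (0, 0)).2) &&
      decide ((w.1.getD x (0, 0)).1 ≤ (w.2.getD y (0, 0)).2))) &&
    (decide ((w.2.getD y (0, 0)).1 ≤ (w.1.getD x (0, 0)).2) ||
      decide ((w.1.getD x (0, 0)).1 ≤ (w.2.getD y (0, 0)).2)))

/-- test of a list of certificates -/
def chkA (M : List (List Bool)) (w : List (List (ℕ × ℕ) × List (ℕ × ℕ))) : Bool :=
  (List.range (M.length + (M.headD []).length)).all fun k => chkS M k (w.getD k ([], []))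

/-- size bound of one certificate -/
def bnd (s t : ℕ) : ℕ := 2 * (s * (2 * (3 * (s + t) + 1) + 1)) + 1 + t * (2 * (3 * (s + t) + 1) + 1)

theorem cert (M : List (List Bool)) (k : ℕ)
    (h : (ofMatrix M).IntervalOn {x | x.1 ≠ k} {y | M.length + y.1 ≠ k}) :
    ∃ w, sz w ≤ bnd M.length (M.headD []).length ∧ chkS M k w = true := by
  classical
  obtain ⟨l, r, l', r', h1, h2, h3⟩ := h
  refine ⟨(List.ofFn fun x => (#{z | r' z < l x}, #{z | r z < r x}),
    List.ofFn fun y => (#{z | r z < l' y}, #{z | r' z < r' y})), ?_, ?_⟩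
  · have a1 : ∀ p : Fin M.length → Prop, #{z | p z} ≤ M.length + (M.headD []).length := fun p =>
      (card_filter_le _ _).trans (by simp)
    have a2 : ∀ p : Fin (M.headD []).length → Prop, #{z | p z} ≤ M.length + (M.headD []).length :=
      fun p => (card_filter_le _ _).trans (by simp)
    rw [sz_pair]
    exact add_le_add (add_le_add (Nat.mul_le_mul_left _ (sz_ofFn (fun _ => a2 _) fun _ => a1 _))
      le_rfl) (sz_ofFn (fun _ => a1 _) fun _ => a2 _)
  · simp only [chkS, List.all_eq_true, List.mem_range]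
    intro i hi j hj
    rw [Bool.or_eq_true, Bool.or_eq_true, decide_eq_true_eq, decide_eq_true_eq, or_iff_not_imp_left,
      not_or]
    rintro ⟨c1, c2⟩
    have e := h3 ⟨i, hi⟩ c1 ⟨j, hj⟩ c2
    have a := h1 ⟨i, hi⟩
    have b := h2 ⟨j, hj⟩
    rw [icc_inter_nonempty a b] at e
    rw [List.getD_eq_getElem (n := i) _ _ (by rw [List.length_ofFn]; exact hi),
      List.getD_eq_getElem (n := j) _ _ (by rw [List.length_ofFn]; exact hj)]
    simp only [List.getElem_ofFn, rank_le_iff, Bool.and_eq_true, beq_iff_eq, Bool.or_eq_true,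
      decide_eq_true_eq]
    refine ⟨Bool.eq_iff_iff.2 (e.trans (by simp)), ?_⟩
    by_contra c
    rw [not_or, not_le, not_le] at c
    linarith [c.1, c.2]

theorem of_cert (M : List (List Bool)) (k : ℕ) (w : List (ℕ × ℕ) × List (ℕ × ℕ))
    (h : chkS M k w = true) : (ofMatrix M).IntervalOn {x | x.1 ≠ k} {y | M.length + y.1 ≠ k} := by
  refine intervalOn_of_ranks _ _ _ (fun x => (w.1.getD x (0, 0)).1) (fun x => (w.1.getD x (0, 0)).2)
    (fun y => (w.2.getD y (0, 0)).1) (fun y => (w.2.getD y (0, 0)).2) fun i hi j hj => ?_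
  simp only [chkS, List.all_eq_true, List.mem_range, Bool.and_eq_true, beq_iff_eq, Bool.or_eq_true,
    decide_eq_true_eq] at h
  obtain ⟨a, b⟩ := (h i i.2 j j.2).resolve_left (not_or.2 ⟨hi, hj⟩)
  exact ⟨(Bool.eq_iff_iff.1 a).trans (by simp), by omega⟩

theorem all_iff (M : List (List Bool)) :
    (∀ S T, ¬ (S = Set.univ ∧ T = Set.univ) → (ofMatrix M).IntervalOn S T) ↔
      ∀ k < M.length + (M.headD []).length,
        (ofMatrix M).IntervalOn {x | x.1 ≠ k} {y | M.length + y.1 ≠ k} := by
  constructor
  · intro h k hk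
    refine h _ _ fun ⟨c1, c2⟩ => ?_
    by_cases hc : k < M.length
    · exact (Set.eq_univ_iff_forall.1 c1 ⟨k, hc⟩) rfl
    · have hj : k - M.length < (M.headD []).length := by omega
      exact (Set.eq_univ_iff_forall.1 c2 ⟨k - M.length, hj⟩) (by simp only; omega)
  · intro h S T c
    rcases not_and_or.1 c with c | c
    · obtain ⟨z, hz⟩ := (Set.ne_univ_iff_exists_notMem S).1 c
      have h1 : z.1 < M.length := z.2
      refine (h z.1 (by omega)).mono (fun x hx e => hz (Fin.ext e ▸ hx)) fun y _ e => ?_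
      omega
    · obtain ⟨z, hz⟩ := (Set.ne_univ_iff_exists_notMem T).1 c
      have h1 : z.1 < (M.headD []).length := z.2
      refine (h (M.length + z.1) (by omega)).mono (fun x _ e => ?_) fun y hy e => hz ?_
      · have : x.1 < M.length := x.2
        omega
      · rwa [← show y = z from Fin.ext (by omega)]

end MemAux

open MemAux in
theorem mem_thm : StMem := by
  classical
  refine ⟨fun y => decide (∀ S T, ¬ (S = Set.univ ∧ T = Set.univ) →
    (ofMatrix (Dec.dec y)).IntervalOn S T), ?_, fun M => by rw [decide_eq_true_iff, Dec.dec_enc]⟩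
  let s : List Bool → ℕ := fun y => (Dec.dec y : List (List Bool)).length
  let t : List Bool → ℕ := fun y => ((Dec.dec y : List (List Bool)).headD []).length
  refine np_raw (fun y w => chkA (Dec.dec y) w) (by unfold chkA chkS ent; fun_prop)
    (g := fun y => (s y + t y) * (2 * bnd (s y) (t y) + 1)) (by unfold bnd s t; fun_prop)
    (fun y h => ?_) fun y w h => decide_eq_true ((all_iff _).2 fun k hk => ?_)
  · have h1 := fun k : Fin (s y + t y) => cert _ k ((all_iff _).1 (of_decide_eq_true h) k k.2)
    choose w h1 h2 using h1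
    refine ⟨List.ofFn w, ?_, ?_⟩
    · have := sz_list_le (l := List.ofFn w) (B := bnd (s y) (t y)) fun a ha => by
        obtain ⟨x, rfl⟩ := List.mem_ofFn.1 ha
        exact h1 x
      rwa [List.length_ofFn] at this
    · simp only [chkA, List.all_eq_true, List.mem_range]
      intro k hk
      rw [List.getD_eq_getElem (n := k) _ _ (by rw [List.length_ofFn]; exact hk), List.getElem_ofFn]
      exact h2 ⟨k, hk⟩
  · simp only [chkA, List.all_eq_true, List.mem_range] at h
    exact of_cert _ _ _ (h k hk)

end Pool.Agent.Lib.MP_ae8a84_co.DP
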