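import Pool.Agent.Lib.MP_ae8a84_co.DP.Defs

/-!
The middle part of the program of a column formula is tight.
-/

namespace Pool.Agent.Lib.MP_ae8a84_co.DP

namespace MidAux

theorem tight_congr {p : Prog} {w : ℕ} {f g : St → St} (h : Tight p w f)
    (hfg : ∀ s x, f s x = g s x) : Tight p w g := by
  have : f = g := by
    funext s x
    exact hfg s x
  exact this ▸ h

theorem wid_nil (w : ℕ) : wid [] w = w := by simp [wid]

/-- composition with the widths -/
theorem comp (h1 : StRun) (h2 : StComp) {p q : Prog} {w w' w'' : ℕ} {f g : St → St}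
    (hp : Tight p w f) (hw : wid p w = w') (hq : Tight q w' g) (hw' : wid q w' = w'') :
    Tight (p ++ q) w (g ∘ f) ∧ wid (p ++ q) w = w'' := by
  subst hw
  refine ⟨h2.2 p q w f g hp hq, ?_⟩
  rw [h1.2.2.2.1 p q w hp.1, hw']

/-- one accumulator -/
theorem zero (h3 : StFrame) (h4 : StGates) (W : ℕ) :
    Tight [(0, 0), (3, 0)] W (fun s i => if i = 0 then false else s (i - 1)) ∧
      wid [(0, 0), (3, 0)] W = W + 1 := by
  have h := h3 _ 0 _ 0 W h4.1 (by omega)
  have e : shift 0 [(0, 0), (3, 0)] = [(0, 0), (3, 0)] := by simp [shift]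
  have e2 : wid [(0, 0), (3, 0)] 0 = 1 := by decide
  rw [e, e2] at h
  refine ⟨tight_congr h.1 ?_, by simpa using h.2⟩
  intro s x
  simp [frame]

/-- the accumulators -/
theorem zeros (h1 : StRun) (h2 : StComp) (h3 : StFrame) (h4 : StGates) (m : ℕ) : ∀ W : ℕ,
    Tight (List.replicate m [(0, 0), (3, 0)]).flatten W
      (fun s x => if x < m then false else s (x - m)) ∧
    wid (List.replicate m [(0, 0), (3, 0)]).flatten W = W + m := by
  induction m with
  | zero =>
    intro W
    simp only [List.replicate_zero, List.flatten_nil]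
    refine ⟨tight_congr (h2.1 W) ?_, by simp [wid_nil]⟩
    intro s x
    simp
  | succ m ih =>
    intro W
    rw [List.replicate_succ, List.flatten_cons]
    have hz := zero h3 h4 W
    have hc := comp h1 h2 hz.1 hz.2 (ih (W + 1)).1 (ih (W + 1)).2
    refine ⟨tight_congr hc.1 ?_, by rw [hc.2]; omega⟩
    intro s x
    simp only [Function.comp]
    by_cases a : x < m
    · have : x < m + 1 := by omega
      simp [a, this]
    · by_cases b : x = m
      · subst b
        simp
      · have c1 : ¬ x < m + 1 := by omega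
        have c2 : x - m ≠ 0 := by omega
        simp only [a, c1, c2, if_false]
        congr 1

/-- the taps -/
theorem feeds (h1 : StRun) (h2 : StComp) (h5 : StFeed) (m W : ℕ) (L : List (ℕ × ℕ))
    (hL : ∀ q ∈ L, q.1 < m ∧ m + q.2 < W) :
    Tight (L.flatMap fun q => feed m q.1 q.2) W
      (fun s x => s x || L.any fun q => decide (q.1 = x) && s (m + q.2)) ∧
    wid (L.flatMap fun q => feed m q.1 q.2) W = W := by
  induction L with
  | nil =>
    simp only [List.flatMap_nil]
    refine ⟨tight_congr (h2.1 W) ?_, wid_nil W⟩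
    intro s x
    simp
  | cons q L ih =>
    rw [List.flatMap_cons]
    have hq := hL q (List.mem_cons_self ..)
    have hf := (h5 m q.1 q.2 W hq.1 hq.2).1
    have ih' := ih fun r hr => hL r (List.mem_cons_of_mem _ hr)
    have hc := comp h1 h2 hf.1 hf.2 ih'.1 ih'.2
    refine ⟨tight_congr hc.1 ?_, hc.2⟩
    intro s x
    simp only [Function.comp, List.any_cons]
    have e : ∀ c, Function.update s q.1 (s q.1 || s (m + q.2)) (m + c) = s (m + c) := by
      intro c
      apply Function.update_of_ne
      omega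
    simp only [e]
    by_cases a : q.1 = x
    · subst a
      simp [Bool.or_assoc]
    · rw [Function.update_of_ne (Ne.symm a)]
      simp [a]

/-- removal of the columns -/
theorem lasts (h1 : StRun) (h2 : StComp) (h5 : StFeed) (m N : ℕ) (f : ℕ → ℕ)
    (hf : ∀ c < N, f c < m) (k : ℕ) (hk : k ≤ N) :
    Tight ((List.range k).flatMap fun c => last m (f c)) (m + N)
      (fun s x => if x < m then s x || (List.range k).any fun c => decide (f c = x) && s (m + c)
        else s (x + k)) ∧
    wid ((List.range k).flatMap fun c => last m (f c)) (m + N) = m + N - k := by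
  induction k with
  | zero =>
    simp only [List.range_zero, List.flatMap_nil]
    refine ⟨tight_congr (h2.1 _) ?_, by simp [wid_nil]⟩
    intro s x
    simp
  | succ k ih =>
    have ih' := ih (by omega)
    have hfk := hf k (by omega)
    have hl := (h5 m (f k) 0 (m + N - k) hfk (by omega)).2
    have hw : wid (last m (f k)) (m + N - k) = m + N - (k + 1) := by
      have := hl.2
      omega
    have hc := comp h1 h2 ih'.1 ih'.2 hl.1 hw
    rw [List.range_succ, List.flatMap_append]
    simp only [List.flatMap_cons, List.flatMap_nil, List.append_nil]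
    refine ⟨tight_congr hc.1 ?_, hc.2⟩
    intro s x
    simp only [Function.comp, List.any_append, List.any_cons, List.any_nil, Bool.or_false]
    by_cases a : x = f k
    · subst a
      simp [hfk, Bool.or_assoc]
    · by_cases b : x < m
      · have a' : ¬ f k = x := fun h => a h.symm
        simp [a, a', b]
      · have b' : ¬ x + 1 < m := by omega
        simp only [a, b, b', if_false]
        congr 1
        omega

/-- the list of the taps -/
def taps (φ : List (List ℕ)) : List (ℕ × ℕ) :=
  φ.zipIdx.flatMap fun q => q.1.map fun c => (q.2, c)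

theorem mem_taps (φ : List (List ℕ)) (q : ℕ × ℕ) :
    q ∈ taps φ ↔ q.1 < φ.length ∧ q.2 ∈ φ.getD q.1 [] := by
  obtain ⟨i, c⟩ := q
  simp only [taps, List.mem_flatMap, List.mem_map, Prod.mk.injEq]
  constructor
  · rintro ⟨⟨C, j⟩, hC, c', hc, rfl, rfl⟩
    rw [List.mem_zipIdx_iff_getElem?] at hC
    simp only at hC hc ⊢
    obtain ⟨hj, hj'⟩ := List.getElem?_eq_some_iff.1 hC
    refine ⟨hj, ?_⟩
    rw [List.getD_eq_getElem _ _ hj, hj']
    exact hc
  · rintro ⟨hi, hc⟩
    rw [List.getD_eq_getElem _ _ hi] at hc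
    refine ⟨(φ[i], i), ?_, c, hc, rfl, rfl⟩
    rw [List.mem_zipIdx_iff_getElem?]
    simp [hi]

theorem taps_flat (φ : List (List ℕ)) (m : ℕ) :
    (φ.zipIdx.flatMap fun q => q.1.flatMap fun c => feed m q.2 c) =
      (taps φ).flatMap fun q => feed m q.1 q.2 := by
  simp only [taps, List.flatMap_assoc, List.flatMap_map]

end MidAux

open MidAux in
theorem mid_thm (h1 : StRun) (h2 : StComp) (h3 : StFrame) (h4 : StGates) (h5 : StFeed) :
    StMid := by
  intro φ n hc
  have hmem : ∀ i < φ.length, φ.getD i [] ∈ φ := by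
    intro i hi
    rw [List.getD_eq_getElem _ _ hi]
    exact List.getElem_mem hi
  have hfi : ∀ c < 2 * n, φ.findIdx (fun C => decide (c ∈ C)) < φ.length := by
    intro c hcn
    obtain ⟨C, hC, hcC⟩ := hc.2 c hcn
    exact List.findIdx_lt_length_of_exists ⟨C, hC, by simpa using hcC⟩
  have hfm : ∀ c < 2 * n, c ∈ φ.getD (φ.findIdx fun C => decide (c ∈ C)) [] := by
    intro c hcn
    rw [List.getD_eq_getElem _ _ (hfi c hcn)]
    have := List.findIdx_getElem (w := hfi c hcn)
    simpa using this
  have hA := zeros h1 h2 h3 h4 φ.length (2 * n)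
  have hB := feeds h1 h2 h5 φ.length (φ.length + 2 * n) (taps φ) (by
    intro q hq
    rw [mem_taps] at hq
    have := hc.1 _ (hmem _ hq.1) _ hq.2
    exact ⟨hq.1, by omega⟩)
  have hC := lasts h1 h2 h5 φ.length (2 * n) (fun c => φ.findIdx fun C => decide (c ∈ C)) hfi
    (2 * n) le_rfl
  have hAB := comp h1 h2 hA.1 (hA.2.trans (Nat.add_comm _ _)) hB.1 hB.2
  have hABC := comp h1 h2 hAB.1 hAB.2 hC.1 hC.2
  unfold mid
  rw [taps_flat]
  refine ⟨by rw [hABC.2]; omega, tight_congr hABC.1 ?_⟩
  intro s x
  simp only [Function.comp]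
  have e1 : ∀ c, ¬ φ.length + c < φ.length := fun c => by omega
  have e2 : ∀ y, φ.length ≤ y → ∀ g : ℕ × ℕ → Bool,
      ((taps φ).any fun q => decide (q.1 = y) && g q) = false := by
    intro y hy g
    rw [List.any_eq_false]
    intro q hq
    rw [mem_taps] at hq
    have : q.1 ≠ y := by omega
    simp [this]
  by_cases a : x < φ.length
  · simp only [a, if_true, e1, if_false, Nat.add_sub_cancel_left, Bool.false_or,
      e2 _ (Nat.le_add_right _ _), Bool.or_false]
    rw [Bool.eq_iff_iff]
    simp only [Bool.or_eq_true, List.any_eq_true, Bool.and_eq_true, decide_eq_true_eq,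
      List.mem_range]
    constructor
    · rintro (⟨q, hq, rfl, hs⟩ | ⟨c, hcn, rfl, hs⟩)
      · exact ⟨q.2, ((mem_taps φ q).1 hq).2, hs⟩
      · exact ⟨c, hfm c hcn, hs⟩
    · rintro ⟨c, hcx, hs⟩
      exact Or.inl ⟨(x, c), (mem_taps φ (x, c)).2 ⟨a, hcx⟩, rfl, hs⟩
  · have b : ¬ x + 2 * n < φ.length := by omega
    simp only [a, b, if_false]
    rw [e2 _ (by omega), Bool.or_false]
    congr 1
    omega

end Pool.Agent.Lib.MP_ae8a84_co.DP
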