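import Pool.Agent.Lib.MP_ae8a84_co.DP.Defs

/-!
From runs of a program to assignments of its two pages.
-/

namespace Pool.Agent.Lib.MP_ae8a84_co.DP

open Pool.Agent.Lib.MP_ae8a84_co.NP (Cl Leg)
open Function

namespace OfProgAux

/-- the gate of the layer `k` -/
abbrev gt (p : Prog) (k : ℕ) : ℕ × ℕ := p.getD k (0, 0)

/-- the width before the layer `k` -/
abbrev wd (p : Prog) (k : ℕ) : ℕ := wid (p.take k) 0

lemma facts (h : StRun) {p : Prog} (hp : WF p 0) {k : ℕ} (hk : k < p.length) :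
    (gt p k).1 < 6 ∧ (gt p k).2 + ni (gt p k).1 ≤ wd p k ∧
      wd p (k + 1) = wd p k + no (gt p k).1 - ni (gt p k).1 ∧ wd p k ≤ 2 * k ∧
      wd p (k + 1) ≤ 2 * k + 2 := by
  obtain ⟨-, -, h3, h4, h5⟩ := h
  have e : gt p k = p[k] := List.getD_eq_getElem _ _ hk
  have a := (h3 (p.take k) (p.drop k) 0).1 (by rwa [List.take_append_drop])
  have b := (h3 (p.take (k + 1)) (p.drop (k + 1)) 0).1 (by rwa [List.take_append_drop])
  have c := h5 _ _ a.1
  have d := h5 _ _ b.1
  rw [List.drop_eq_getElem_cons hk] at a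
  rw [List.length_take] at c d
  refine ⟨e ▸ a.2.1, e ▸ a.2.2.1, ?_, by unfold wd; omega, by unfold wd; omega⟩
  rw [wd, List.take_succ_eq_append_getElem hk, h4 _ _ _ a.1, e]
  simp [wid]

lemma run_seq : ∀ (p : Prog) (s t : St), Run p s t → ∃ x : ℕ → St, x 0 = s ∧
    (∀ m < p.length, Step (gt p m) (x m) (x (m + 1))) ∧ t ≤ x p.length
  | [], s, _, h => ⟨fun _ => s, rfl, by simp, h⟩
  | q :: p, s, t, ⟨u, h1, h2⟩ => by
    obtain ⟨x, a, b, c⟩ := run_seq p u t h2
    refine ⟨fun m => Nat.casesOn m s x, rfl, fun m hm => ?_, c⟩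
    cases m with
    | zero => exact show Step q s (x 0) from a ▸ h1
    | succ m => exact b m (by simpa using hm)

/-- steps that are linked, except for the wire `j` before the layer `k` -/
def Tr (p : Prog) (k j : ℕ) (a c : ℕ → St) : Prop :=
  (∀ m < p.length, Step (gt p m) (a m) (c m)) ∧
    ∀ m i, ¬ (m + 1 = k ∧ i = j) → a (m + 1) i ≤ c m i

lemma tr_of_frun {p : Prog} {k j : ℕ} {s t : St} (hk : k ≤ p.length) (h : FRun p k j s t) :
    ∃ a c, Tr p k j a c := by
  obtain ⟨u, h1, h2⟩ := h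
  obtain ⟨x, -, x1, x2⟩ := run_seq _ _ _ h1
  obtain ⟨y, y0, y1, -⟩ := run_seq _ _ _ h2
  rw [List.length_take, min_eq_left hk] at x1 x2
  rw [List.length_drop] at y1
  refine ⟨fun m => if m < k then x m else y (m - k),
    fun m => if m < k then x (m + 1) else y (m - k + 1), fun m hm => ?_, fun m i hm => ?_⟩
  · dsimp only
    split_ifs with e
    · have := x1 m e
      simpa [gt, List.getElem?_take, e] using this
    · have := y1 (m - k) (by omega)
      simpa [gt, List.getElem?_drop, show k + (m - k) = m by omega] using this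
  · dsimp only
    split_ifs with e1 e2 e2
    · exact le_rfl
    · omega
    · obtain rfl : k = m + 1 := by omega
      rw [Nat.sub_self, y0, update_of_ne (by simpa using hm)]
      exact x2 i
    · rw [show m + 1 - k = m - k + 1 by omega]

/-- a gate with its local clauses, which may be switched off -/
def WS (q : ℕ × ℕ) (a c : St) (u v : Prop) (l : ℕ → Bool) : Prop :=
  (∀ i < q.2, c i ≤ a i) ∧ (∀ i, c (q.2 + no q.1 + i) ≤ a (q.2 + ni q.1 + i)) ∧
    (∀ x < ni q.1, l ((ins q.1).getD x 0) ≤ a (q.2 + x)) ∧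
    (∀ x < no q.1, c (q.2 + x) ≤ l ((outs q.1).getD x 0)) ∧
    (u → ∀ C ∈ lp q.1, ∃ t, Leg C t ∧ l t = true) ∧ (v → ∀ C ∈ ln q.1, ∃ t, Leg C t ∧ l t = false)

lemma lt_two {P : ℕ → Prop} {n : ℕ} (hn : n ≤ 2) (h0 : 0 < n → P 0) (h1 : 1 < n → P 1) :
    ∀ x < n, P x := fun x hx => by
  have : x < 2 := by omega
  interval_cases x
  exacts [h0 hx, h1 hx]

lemma ws {q : ℕ × ℕ} {a c : St} (hq : q.1 < 6) (h : Step q a c) (u v : Prop) :
    ∃ l, WS q a c u v l := by
  obtain ⟨g, j⟩ := q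
  obtain ⟨h1, h2, h3⟩ := h
  refine ⟨fun t => (([[c j, c (j + 1)], [a j, a (j + 1)], [a j, a (j + 1), !c j, c j],
    [c j, !c j, a (j + 1)], [c j, !c j, a j], [a j, !a j, c j, c (j + 1)]] :
      List (List Bool)).getD g []).getD t false, h1, h2, ?_⟩
  dsimp only at hq h3 ⊢
  interval_cases g <;>
    refine ⟨lt_two (by decide) ?_ ?_, lt_two (by decide) ?_ ?_, fun _ => ?_, fun _ => ?_⟩ <;>
    revert h3 <;> simp [rel, ni, no, ins, outs, lp, ln, Leg] <;>
    cases a j <;> cases a (j + 1) <;> cases c j <;> cases c (j + 1) <;> simp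

lemma wsO {q : ℕ × ℕ} {a c : St} (hq : q.1 < 6) (he : q.1 % 2 = 0) (h : Step q a c) {u v : Prop}
    (e : ¬ u ∧ lp q.1 ≠ [] ∨ ¬ v ∧ ln q.1 ≠ []) : ∃ l, WS q a (update c q.2 true) u v l := by
  classical
  obtain ⟨g, j⟩ := q
  obtain ⟨h1, h2, h3⟩ := h
  have n1 : 0 < no g := by
    dsimp only at hq he
    interval_cases g <;> simp_all [no, outs]
  refine ⟨fun t => (([[true, c (j + 1)], [], [a j, a (j + 1), decide u, true], [],
    [true, decide u, a j]] : List (List Bool)).getD g []).getD t false,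
    fun i hi => ?_, fun i => ?_, ?_⟩
  · rw [update_of_ne hi.ne]
    exact h1 i hi
  · rw [update_of_ne (by dsimp only; omega)]
    exact h2 i
  dsimp only at hq h3 he e ⊢
  interval_cases g <;> simp at he <;>
    refine ⟨lt_two (by decide) ?_ ?_, lt_two (by decide) ?_ ?_, fun _ => ?_, fun _ => ?_⟩ <;>
    revert h3 e <;> simp [rel, ni, no, ins, outs, lp, ln, Leg, *] <;>
    cases a j <;> cases c j <;> cases c (j + 1) <;> simp <;> tauto

lemma wsI {q : ℕ × ℕ} {a c : St} (hq : q.1 < 6) (he : q.1 % 2 = 1) (h : Step q a c) {u v : Prop}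
    (e : ¬ u ∧ lp q.1 ≠ [] ∨ ¬ v ∧ ln q.1 ≠ []) :
    ∃ l, WS q (update a (q.2 + q.1 / 2 % 2) false) c u v l := by
  classical
  obtain ⟨g, j⟩ := q
  obtain ⟨h1, h2, h3⟩ := h
  have n1 : g / 2 % 2 < ni g := by
    dsimp only at hq he
    interval_cases g <;> simp_all [ni, ins]
  refine ⟨fun t => (([[], [false, a (j + 1)], [], [c j, decide u, false], [],
    [false, decide u, c j, c (j + 1)]] : List (List Bool)).getD g []).getD t false,
    fun i hi => ?_, fun i => ?_, ?_⟩
  · rw [update_of_ne (by dsimp only at hi ⊢; omega)]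
    exact h1 i hi
  · rw [update_of_ne (by dsimp only; omega)]
    exact h2 i
  dsimp only at hq h3 he e ⊢
  interval_cases g <;> simp at he <;>
    refine ⟨lt_two (by decide) ?_ ?_, lt_two (by decide) ?_ ?_, fun _ => ?_, fun _ => ?_⟩ <;>
    revert h3 e <;> simp [rel, ni, no, ins, outs, lp, ln, Leg, *] <;>
    cases a j <;> cases c j <;> cases c (j + 1) <;> simp <;> tauto

/-- start of the slot of a gate -/
abbrev off (p : Prog) (k : ℕ) : ℕ := base p.length k + 4 * (gt p k).2

/-- the positive arc of a wire -/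
abbrev aP (p : Prog) (k i : ℕ) : Cl :=
  arc (base p.length k + port (outs (gt p k).1) (gt p k).2 i) (mT p.length k i)

/-- the negative arc of a wire -/
abbrev aN (p : Prog) (k i : ℕ) : Cl :=
  arc (mT p.length (k - 1) i) (base p.length k + port (ins (gt p k).1) (gt p k).2 i)

lemma mem_zi {p : Prog} {q : (ℕ × ℕ) × ℕ} (h : q ∈ p.zipIdx) :
    q.2 < p.length ∧ q.1 = gt p q.2 := by
  obtain ⟨a, b⟩ := List.mem_zipIdx' (x := q.1) (i := q.2) h
  exact ⟨a, b.trans (List.getD_eq_getElem _ _ a).symm⟩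

lemma memP {p : Prog} {C : Cl} (h : C ∈ pgP p) : ∃ k < p.length,
    (∃ D ∈ lp (gt p k).1, mv (off p k) D = C) ∨ ∃ i < wd p (k + 1), aP p k i = C := by
  obtain ⟨q, hq, hC⟩ := List.mem_flatMap.1 h
  obtain ⟨a, b⟩ := mem_zi hq
  rw [b] at hC
  simp only [List.mem_append, List.mem_map, List.mem_range] at hC
  exact ⟨_, a, hC⟩

lemma memN {p : Prog} {C : Cl} (h : C ∈ pgN p) : ∃ k < p.length,
    (∃ D ∈ ln (gt p k).1, mv (off p k) D = C) ∨ ∃ i < wd p k, aN p k i = C := by
  obtain ⟨q, hq, hC⟩ := List.mem_flatMap.1 h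
  obtain ⟨a, b⟩ := mem_zi hq
  rw [b] at hC
  simp only [List.mem_append, List.mem_map, List.mem_range] at hC
  exact ⟨_, a, hC⟩

lemma small {g : ℕ} (hg : g < 6) : (∀ x, (ins g).getD x 0 < 4) ∧ (∀ x, (outs g).getD x 0 < 4) ∧
    (∀ C ∈ lp g, ∀ t, Leg C t → t < 4) ∧ (∀ C ∈ ln g, ∀ t, Leg C t → t < 4) ∧
    (∀ C ∈ lp g, ∀ D ∈ lp g, C = D) ∧ ∀ C ∈ ln g, ∀ D ∈ ln g, C = D := by
  refine ⟨?_, ?_, ?_, ?_, ?_, ?_⟩
  · rintro (_ | _ | x) <;> interval_cases g <;> simp [ins]
  · rintro (_ | _ | x) <;> interval_cases g <;> simp [outs]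
  all_goals interval_cases g <;> simp [lp, ln, Leg]

lemma leg_mv {C : Cl} {t : ℕ} (o : ℕ) (h : Leg C t) : Leg (mv o C) (o + t) := by
  rcases h with h | h | h <;> simp [Leg, mv, h]

lemma gen (h : StRun) {p : Prog} (hp : WF p 0) (A B : Cl → Prop) (a c : ℕ → St)
    (h1 : ∀ k < p.length, ∃ l, WS (gt p k) (a k) (c k) (∃ C ∈ lp (gt p k).1, A (mv (off p k) C))
      (∃ C ∈ ln (gt p k).1, B (mv (off p k) C)) l)
    (h2 : ∀ k i, A (aP p k i) → B (aN p (k + 1) i) → a (k + 1) i ≤ c k i) :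
    SatX (pgP p) (pgN p) A B := by
  classical
  choose! l hl using h1
  set n := p.length with hn
  let T : ℕ → ℕ → Bool := fun k r => if r < 8 * n + 4 then
    if r / 4 < (gt p k).2 then c k (r / 4) else if r / 4 = (gt p k).2 then l k (r % 4)
      else c k (r / 4 - 1 + no (gt p k).1)
    else decide (A (aP p k (10 * n + 3 - r))) && !c k (10 * n + 3 - r)
  let τ : ℕ → Bool := fun t => T ((t - 1) / (10 * n + 4)) ((t - 1) % (10 * n + 4))
  have t0 : ∀ k r, r < 10 * n + 4 → τ (base n k + r) = T k r := fun k r hr => by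
    have e : base n k + r - 1 = r + k * (10 * n + 4) := by unfold base; omega
    simp only [τ, e]
    rw [Nat.add_mul_div_right _ _ (by omega), Nat.add_mul_mod_self_right, Nat.div_eq_of_lt hr,
      Nat.mod_eq_of_lt hr, zero_add]
  have t1 : ∀ k < n, ∀ y < 4, τ (off p k + y) = l k y := fun k hk y hy => by
    obtain ⟨-, f1, -, f2, -⟩ := facts h hp hk
    rw [off, add_assoc, t0 _ _ (by omega)]
    simp only [T]
    rw [if_pos (by omega), if_neg (by omega), if_pos (by omega), show _ % 4 = y by omega]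
  have t2 : ∀ k i, i < 2 * n → τ (mT n k i) = (decide (A (aP p k i)) && !c k i) := fun k i hi => by
    rw [mT, add_assoc, t0 _ _ (by omega)]
    simp only [T]
    rw [if_neg (by omega), show 10 * n + 3 - _ = i by omega]
  have t3 : ∀ k x, x ≤ 2 * n → x ≠ (gt p k).2 → τ (base n k + 4 * x) =
      if x < (gt p k).2 then c k x else c k (x - 1 + no (gt p k).1) := fun k x hx e => by
    rw [t0 _ _ (by omega)]
    simp only [T]
    rw [if_pos (by omega), show 4 * x / 4 = x by omega, if_neg e]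
  refine ⟨τ, fun C hC hA => ?_, fun C hC hB => ?_⟩
  · obtain ⟨k, hk, ⟨D, hD, rfl⟩ | ⟨i, hi, rfl⟩⟩ := memP hC
    · obtain ⟨t, a1, a2⟩ := (hl k hk).2.2.2.2.1 ⟨D, hD, hA⟩ D hD
      exact ⟨_, leg_mv _ a1, (t1 k hk t ((small (facts h hp hk).1).2.2.1 D hD t a1)).trans a2⟩
    · obtain ⟨f0, f1, f2, f3, f4⟩ := facts h hp hk
      cases e : c k i
      · exact ⟨_, .inr (.inr rfl), (t2 k i (by omega)).trans (by simp [hA, e])⟩
      refine ⟨_, .inl rfl, ?_⟩
      change τ (base n k + port _ _ _) = true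
      unfold port
      split_ifs with b1 b2
      · rw [t3 k i (by omega) b1.ne, if_pos b1, e]
      · have := (hl k hk).2.2.2.1 (i - (gt p k).2) (by unfold no; omega)
        rw [show (gt p k).2 + _ = i by omega, e] at this
        rw [← add_assoc, t1 k hk _ ((small f0).2.1 _)]
        exact top_le_iff.1 this
      · rw [t3 k _ (by omega) (by omega), if_neg (by omega), ← e]
        congr 1
        unfold no
        omega
  · obtain ⟨k, hk, ⟨D, hD, rfl⟩ | ⟨i, hi, rfl⟩⟩ := memN hC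
    · obtain ⟨t, a1, a2⟩ := (hl k hk).2.2.2.2.2 ⟨D, hD, hB⟩ D hD
      exact ⟨_, leg_mv _ a1, (t1 k hk t ((small (facts h hp hk).1).2.2.2.1 D hD t a1)).trans a2⟩
    · obtain ⟨f0, f1, f2, f3, f4⟩ := facts h hp hk
      obtain ⟨m, rfl⟩ : ∃ m, k = m + 1 := ⟨k - 1, by omega⟩
      cases e : a (m + 1) i
      swap
      · refine ⟨_, .inl rfl, (t2 m i (by omega)).trans ?_⟩
        by_cases hA : A (aP p m i)
        · have := h2 m i hA hB
          rw [e] at this
          simp [top_le_iff.1 this]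
        · simp [hA]
      refine ⟨_, .inr (.inr rfl), le_bot_iff.1 (le_trans ?_ e.le)⟩
      change τ (base n (m + 1) + port _ _ _) ≤ _
      unfold port
      split_ifs with b1 b2
      · rw [t3 _ i (by omega) b1.ne, if_pos b1]
        exact (hl _ hk).1 i b1
      · have := (hl _ hk).2.2.1 (i - (gt p (m + 1)).2) (by unfold ni; omega)
        rwa [show (gt p (m + 1)).2 + _ = i by omega, ← t1 _ hk _ ((small f0).1 _), add_assoc] at this
      · have := (hl _ hk).2.1 (i - (gt p (m + 1)).2 - ni (gt p (m + 1)).1)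
        rw [t3 _ _ (by omega) (by omega), if_neg (by omega)]
        unfold ni at this
        rwa [show _ + (ins _).length + _ = i by omega, show _ + no _ + _ =
          i - (ins (gt p (m + 1)).1).length + 1 - 1 + no (gt p (m + 1)).1 by omega] at this

lemma loc (h : StRun) {p : Prog} (hp : WF p 0) (hm : MUP p) (A B : Cl → Prop) {k : ℕ}
    (hk : k < p.length)
    (e : ¬ (∃ C ∈ lp (gt p k).1, A (mv (off p k) C)) ∧ lp (gt p k).1 ≠ [] ∨
      ¬ (∃ C ∈ ln (gt p k).1, B (mv (off p k) C)) ∧ ln (gt p k).1 ≠ []) :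
    SatX (pgP p) (pgN p) A B := by
  obtain ⟨f0, f1, f2, -⟩ := facts h hp hk
  rcases Nat.mod_two_eq_zero_or_one (gt p k).1 with he | he
  · have n1 : 0 < no (gt p k).1 := by
      generalize (gt p k).1 = g at f0 he
      interval_cases g <;> simp_all [no, outs]
    obtain ⟨a, c, t1, t2⟩ := tr_of_frun hk (hm.2 (k + 1) hk (gt p k).2 (by unfold wd at *; omega))
    refine gen h hp A B a (update c k (update (c k) (gt p k).2 true)) (fun m hm => ?_)
      fun m i _ _ => ?_
    · by_cases b : m = k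
      · subst b
        rw [update_self]
        exact wsO f0 he (t1 m hm) e
      · rw [update_of_ne b]
        exact ws (facts h hp hm).1 (t1 m hm) _ _
    · by_cases b : m = k
      · subst b
        rw [update_self]
        by_cases b' : i = (gt p m).2
        · simp [b']
        · rw [update_of_ne b']
          exact t2 m i fun x => b' x.2
      · rw [update_of_ne b]
        exact t2 m i fun x => b (by omega)
  · have n1 : (gt p k).1 / 2 % 2 < ni (gt p k).1 := by
      generalize (gt p k).1 = g at f0 he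
      interval_cases g <;> simp_all [ni, ins]
    obtain ⟨a, c, t1, t2⟩ := tr_of_frun hk.le
      (hm.2 k hk.le ((gt p k).2 + (gt p k).1 / 2 % 2) (by unfold wd at *; omega))
    refine gen h hp A B (update a k (update (a k) ((gt p k).2 + (gt p k).1 / 2 % 2) false)) c
      (fun m hm => ?_) fun m i _ _ => ?_
    · by_cases b : m = k
      · subst b
        rw [update_self]
        exact wsI f0 he (t1 m hm) e
      · rw [update_of_ne b]
        exact ws (facts h hp hm).1 (t1 m hm) _ _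
    · by_cases b : m + 1 = k
      · subst b
        rw [update_self]
        by_cases b' : i = (gt p (m + 1)).2 + (gt p (m + 1)).1 / 2 % 2
        · simp [b']
        · rw [update_of_ne b']
          exact t2 m i fun x => b' x.2
      · rw [update_of_ne b]
        exact t2 m i fun x => b x.1

end OfProgAux

open OfProgAux in
theorem ofProg_thm (h : StRun) : StOfProg := by
  intro p hp _
  refine ⟨fun hr => ?_, fun hm => ⟨fun C hC => ?_, fun C hC => ?_⟩⟩
  · obtain ⟨x, -, x1, -⟩ := run_seq _ _ _ hr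
    exact gen h hp _ _ x (fun m => x (m + 1)) (fun m hm => ws (facts h hp hm).1 (x1 m hm) _ _)
      fun _ _ _ _ => le_rfl
  · obtain ⟨k, hk, ⟨D, hD, rfl⟩ | ⟨i, hi, rfl⟩⟩ := memP hC
    · refine loc h hp hm _ _ hk (.inl ⟨?_, List.ne_nil_of_mem hD⟩)
      rintro ⟨E, hE, e⟩
      exact e (by rw [(small (facts h hp hk).1).2.2.2.2.1 E hE D hD])
    · obtain ⟨a, c, t1, t2⟩ := tr_of_frun hk (hm.2 (k + 1) hk i hi)
      refine gen h hp _ _ a c (fun m hm => ws (facts h hp hm).1 (t1 m hm) _ _) fun m x e _ =>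
        t2 m x fun b => e ?_
      rw [b.2, show m = k by omega]
  · obtain ⟨k, hk, ⟨D, hD, rfl⟩ | ⟨i, hi, rfl⟩⟩ := memN hC
    · refine loc h hp hm _ _ hk (.inr ⟨?_, List.ne_nil_of_mem hD⟩)
      rintro ⟨E, hE, e⟩
      exact e (by rw [(small (facts h hp hk).1).2.2.2.2.2 E hE D hD])
    · obtain ⟨a, c, t1, t2⟩ := tr_of_frun hk.le (hm.2 k hk.le i hi)
      refine gen h hp _ _ a c (fun m hm => ws (facts h hp hm).1 (t1 m hm) _ _) fun m x _ e =>
        t2 m x fun b => e ?_
      rw [b.2, b.1]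

end Pool.Agent.Lib.MP_ae8a84_co.DP
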