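import Pool.Agent.Lib.MP_ae8a84_co.DP.Defs

/-!
The formulas of Papadimitriou and Wolfe.
-/

namespace Pool.Agent.Lib.MP_ae8a84_co.DP

open Pool.Agent.Shared.CookLevin (E3 Sat3 Distinct3)

namespace PWAux

variable {τ : ℕ → Bool} {ψ : E3 ℕ} {C D : List (Bool × ℕ)} {m i : ℕ}

lemma holds_cons {l : Bool × ℕ} : Holds τ (l :: C) ↔ τ l.2 = l.1 ∨ Holds τ C := by simp [Holds]

lemma holds_nil : ¬ Holds τ [] := by simp [Holds]

lemma mem_others {l : Bool × ℕ} : l ∈ others m i ↔ ∃ j < m, j ≠ i ∧ l = (true, 2 * j + 2) := by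
  simp only [others, List.mem_map, List.mem_filter, List.mem_range, bne_iff_ne, and_assoc,
    eq_comm (a := l)]

lemma holds_others : Holds τ (others m i) ↔ ∃ j < m, j ≠ i ∧ τ (2 * j + 2) = true := by
  simp only [Holds, mem_others]
  exact ⟨fun ⟨_, ⟨j, a, b, e⟩, h⟩ => ⟨j, a, b, by subst e; exact h⟩,
    fun ⟨j, a, b, h⟩ => ⟨_, ⟨j, a, b, rfl⟩, h⟩⟩

/-- the long clause -/
def cA (m i : ℕ) (c : (Bool × ℕ) × (Bool × ℕ) × (Bool × ℕ)) : List (Bool × ℕ) :=
  (c.1.1, 2 * c.1.2 + 1) :: (c.2.1.1, 2 * c.2.1.2 + 1) :: (c.2.2.1, 2 * c.2.2.2 + 1) :: others m i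

/-- the clause of a literal -/
def cB (m i : ℕ) (l : Bool × ℕ) : List (Bool × ℕ) :=
  (false, 2 * i + 2) :: (!l.1, 2 * l.2 + 1) :: others m i

lemma mem_alarm : C ∈ alarm ψ ↔ (∃ i c, ψ[i]? = some c ∧ (C = cA ψ.length i c ∨
    C = cB ψ.length i c.1 ∨ C = cB ψ.length i c.2.1 ∨ C = cB ψ.length i c.2.2)) ∨
    ∃ i < ψ.length, ∃ j < i, C = [(false, 2 * i + 2), (false, 2 * j + 2)] := by
  simp only [alarm, List.mem_append, List.mem_flatMap, List.mem_zipIdx_iff_getElem?, List.mem_cons,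
    List.not_mem_nil, or_false, List.mem_map, List.mem_range, eq_comm (a := C)]
  exact or_congr_left ⟨fun ⟨q, h⟩ => ⟨q.2, q.1, h⟩, fun ⟨i, c, h⟩ => ⟨(c, i), h⟩⟩

lemma lt_of {c} (h : ψ[i]? = some c) : i < ψ.length := (List.getElem?_eq_some_iff.1 h).1

/-- an assignment from values for the alarms and for the variables -/
def asg (z : Bool) (y x : ℕ → Bool) (n : ℕ) : Bool :=
  if n = 0 then z else if n % 2 = 1 then x (n / 2) else y (n / 2 - 1)

@[simp] lemma asg_z (z : Bool) (y x : ℕ → Bool) : asg z y x 0 = z := rfl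

@[simp] lemma asg_x (z : Bool) (y x : ℕ → Bool) (v : ℕ) : asg z y x (2 * v + 1) = x v := by
  rw [asg, if_neg (by omega), if_pos (by omega)]; congr 1; omega

@[simp] lemma asg_y (z : Bool) (y x : ℕ → Bool) (j : ℕ) : asg z y x (2 * j + 2) = y j := by
  rw [asg, if_neg (by omega), if_neg (by omega)]; congr 1; omega

lemma quiet (h : ∀ C ∈ alarm ψ, Holds τ C) (hi : i < ψ.length) : τ (2 * i + 2) = false := by
  by_contra e
  have o : ¬ Holds τ (others ψ.length i) := by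
    rw [holds_others]
    rintro ⟨j, a, b, c⟩
    rcases Nat.lt_or_gt_of_ne b with d | d
    · simpa [holds_cons, holds_nil, e, c] using h _ (mem_alarm.2 (Or.inr ⟨i, hi, j, d, rfl⟩))
    · simpa [holds_cons, holds_nil, e, c] using h _ (mem_alarm.2 (Or.inr ⟨j, a, i, d, rfl⟩))
  have g := List.getElem?_eq_getElem hi
  have a := h _ (mem_alarm.2 (Or.inl ⟨i, _, g, Or.inl rfl⟩))
  have b1 := h _ (mem_alarm.2 (Or.inl ⟨i, _, g, Or.inr (Or.inl rfl)⟩))
  have b2 := h _ (mem_alarm.2 (Or.inl ⟨i, _, g, Or.inr (Or.inr (Or.inl rfl))⟩))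
  have b3 := h _ (mem_alarm.2 (Or.inl ⟨i, _, g, Or.inr (Or.inr (Or.inr rfl))⟩))
  simp only [cA, cB, holds_cons, o, e, or_false, false_or] at a b1 b2 b3
  rw [b1, b2, b3] at a
  simp at a

lemma sat_of (h : ∀ C ∈ alarm ψ, Holds τ C) : Sat3 ψ := by
  refine ⟨fun v => τ (2 * v + 1), fun c hc => ?_⟩
  obtain ⟨i, hi⟩ := List.getElem?_of_mem hc
  have o : ¬ Holds τ (others ψ.length i) := by
    rw [holds_others]
    rintro ⟨j, a, -, c⟩
    simp [quiet h a] at c
  simpa only [cA, holds_cons, o, or_false] using h _ (mem_alarm.2 (Or.inl ⟨i, c, hi, Or.inl rfl⟩))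

lemma of_sat (h : Sat3 ψ) (z : Bool) : ∃ τ, τ 0 = z ∧ ∀ C ∈ alarm ψ, Holds τ C := by
  obtain ⟨x, hx⟩ := h
  refine ⟨asg z (fun _ => false) x, rfl, fun C hC => ?_⟩
  rcases mem_alarm.1 hC with ⟨i, c, a, rfl | rfl | rfl | rfl⟩ | ⟨i, -, j, -, rfl⟩
  · have := hx c (List.mem_of_getElem? a)
    simp only [cA, holds_cons, asg_x]
    tauto
  all_goals simp [cB, holds_cons]

lemma ne_others (h : C ∈ alarm ψ) : C ≠ others m i := by
  rintro e
  have k : ∀ l ∈ C, ∃ j < m, j ≠ i ∧ l = (true, 2 * j + 2) := fun l hl => mem_others.1 (e ▸ hl)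
  rcases mem_alarm.1 h with ⟨i, c, a, rfl | rfl | rfl | rfl⟩ | ⟨i, -, j, -, rfl⟩ <;>
    obtain ⟨j, -, -, b⟩ := k _ List.mem_cons_self
  · have := congrArg Prod.snd b
    dsimp only at this
    omega
  all_goals simp at b

lemma one {c} (hi : ψ[i]? = some c) (z : Bool) (x : ℕ → Bool) (hD : D ∈ alarm ψ)
    (h : D = cA ψ.length i c ∨ D = cB ψ.length i c.1 ∨ D = cB ψ.length i c.2.1 ∨
      D = cB ψ.length i c.2.2 → Holds (asg z (fun j => j == i) x) D) :
    Holds (asg z (fun j => j == i) x) D := by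
  rcases mem_alarm.1 hD with ⟨k, d, a, b⟩ | ⟨k, -, j, a, rfl⟩
  · by_cases e : k = i
    · subst e
      obtain rfl : d = c := Option.some.inj (a.symm.trans hi)
      exact h b
    · have : Holds (asg z (fun j => j == i) x) (others ψ.length k) :=
        holds_others.2 ⟨i, lt_of hi, Ne.symm e, by simp⟩
      rcases b with rfl | rfl | rfl | rfl <;> simp [cA, cB, holds_cons, this]
  · simp only [holds_cons, asg_y, beq_eq_false_iff_ne]
    omega

lemma del (hd : Distinct3 ψ) (z : Bool) (h : C ∈ alarm ψ) : ∃ τ, τ 0 = z ∧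
    Holds τ (others ψ.length ψ.length) ∧ ∀ D ∈ alarm ψ, D ≠ C → Holds τ D := by
  rcases mem_alarm.1 h with ⟨i, c, a, b⟩ | ⟨i, a, j, b, rfl⟩
  · obtain ⟨d1, d2, d3⟩ := hd c (List.mem_of_getElem? a)
    have key : ∀ p q r : Bool, ∃ x : ℕ → Bool, x c.1.2 = p ∧ x c.2.1.2 = q ∧ x c.2.2.2 = r :=
      fun p q r => ⟨fun v => if v = c.1.2 then p else if v = c.2.1.2 then q else r, by simp,
        by simp [d1.symm], by simp [d2.symm, d3.symm]⟩
    have o : ∀ x, Holds (asg z (fun j => j == i) x) (others ψ.length ψ.length) := fun x =>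
      holds_others.2 ⟨i, lt_of a, (lt_of a).ne, by simp⟩
    rcases b with rfl | rfl | rfl | rfl
    · obtain ⟨x, x1, x2, x3⟩ := key (!c.1.1) (!c.2.1.1) (!c.2.2.1)
      refine ⟨_, rfl, o x, fun D hD e => one a z x hD ?_⟩
      rintro (rfl | rfl | rfl | rfl)
      · exact (e rfl).elim
      all_goals simp [cB, holds_cons, x1, x2, x3]
    · obtain ⟨x, x1, x2, x3⟩ := key c.1.1 (!c.2.1.1) (!c.2.2.1)
      refine ⟨_, rfl, o x, fun D hD e => one a z x hD ?_⟩
      rintro (rfl | rfl | rfl | rfl)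
      on_goal 2 => exact (e rfl).elim
      all_goals simp [cA, cB, holds_cons, x1, x2, x3]
    · obtain ⟨x, x1, x2, x3⟩ := key (!c.1.1) c.2.1.1 (!c.2.2.1)
      refine ⟨_, rfl, o x, fun D hD e => one a z x hD ?_⟩
      rintro (rfl | rfl | rfl | rfl)
      on_goal 3 => exact (e rfl).elim
      all_goals simp [cA, cB, holds_cons, x1, x2, x3]
    · obtain ⟨x, x1, x2, x3⟩ := key (!c.1.1) (!c.2.1.1) c.2.2.1
      refine ⟨_, rfl, o x, fun D hD e => one a z x hD ?_⟩
      rintro (rfl | rfl | rfl | rfl)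
      on_goal 4 => exact (e rfl).elim
      all_goals simp [cA, cB, holds_cons, x1, x2, x3]
  · refine ⟨asg z (fun k => k == i || k == j) fun _ => false, rfl,
      holds_others.2 ⟨i, a, a.ne, by simp⟩, fun D hD e => ?_⟩
    rcases mem_alarm.1 hD with ⟨k, d, -, f⟩ | ⟨k, -, l, f, rfl⟩
    · have : Holds (asg z (fun k => k == i || k == j) fun _ => false) (others ψ.length k) := by
        by_cases g : i = k
        · exact holds_others.2 ⟨j, by omega, by omega, by simp⟩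
        · exact holds_others.2 ⟨i, a, g, by simp⟩
      rcases f with rfl | rfl | rfl | rfl <;> simp [cA, cB, holds_cons, this]
    · have : ¬ (k = i ∧ l = j) := fun ⟨g, g'⟩ => e (by rw [g, g'])
      simp only [holds_cons, asg_y, Bool.or_eq_false_iff, beq_eq_false_iff_ne]
      omega

lemma mem_pw {χ : E3 ℕ} : C ∈ pw ψ χ ↔ C = (true, 0) :: others ψ.length ψ.length ∨
    (∃ D ∈ alarm ψ, C = (true, 0) :: D) ∨ ∃ D ∈ alarm χ, C = (false, 0) :: D := by
  simp only [pw, List.map_cons, List.cons_append, List.mem_cons, List.mem_append, List.mem_map,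
    eq_comm (a := C)]

end PWAux

open PWAux in
theorem pw_thm : StPW := by
  intro ψ χ h1 h2
  have pos : ∀ τ, τ 0 = true → ∀ C, (∀ D ∈ pw ψ χ, D ≠ (true, 0) :: C → Holds τ D) → Sat3 χ :=
    fun τ e C h => sat_of (τ := τ) fun D hD => by
      simpa [holds_cons, e] using h _ (mem_pw.2 (Or.inr (Or.inr ⟨D, hD, rfl⟩))) (by simp)
  constructor
  · rintro ⟨a, b⟩
    have n : ¬ Sat3 χ := fun s => by
      obtain ⟨τ, e, h⟩ := of_sat s true
      refine a ⟨τ, fun C hC => ?_⟩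
      rcases mem_pw.1 hC with rfl | ⟨D, -, rfl⟩ | ⟨D, hD, rfl⟩
      · exact holds_cons.2 (Or.inl e)
      · exact holds_cons.2 (Or.inl e)
      · exact holds_cons.2 (Or.inr (h D hD))
    obtain ⟨τ, h⟩ := b _ (mem_pw.2 (Or.inl rfl))
    refine ⟨sat_of (τ := τ) fun D hD => ?_, n⟩
    refine (holds_cons.1 (h _ (mem_pw.2 (Or.inr (Or.inl ⟨D, hD, rfl⟩))) ?_)).resolve_left
      fun e => n (pos τ e _ h)
    simpa using ne_others hD
  · rintro ⟨a, b⟩
    refine ⟨fun ⟨τ, h⟩ => ?_, fun C hC => ?_⟩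
    · have e : ¬ τ 0 = true := fun e => b (pos τ e [] fun D hD _ => h D hD)
      obtain ⟨j, c, -, d⟩ := holds_others.1
        ((holds_cons.1 (h _ (mem_pw.2 (Or.inl rfl)))).resolve_left e)
      have := quiet (τ := τ) (fun D hD => (holds_cons.1
        (h _ (mem_pw.2 (Or.inr (Or.inl ⟨D, hD, rfl⟩))))).resolve_left e) c
      simp [d] at this
    · rcases mem_pw.1 hC with rfl | ⟨C, hc, rfl⟩ | ⟨C, hc, rfl⟩
      · obtain ⟨τ, e, h⟩ := of_sat a false
        refine ⟨τ, fun D hD n => ?_⟩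
        rcases mem_pw.1 hD with rfl | ⟨D, hd, rfl⟩ | ⟨D, -, rfl⟩
        · exact (n rfl).elim
        · exact holds_cons.2 (Or.inr (h D hd))
        · exact holds_cons.2 (Or.inl e)
      · obtain ⟨τ, e, o, h⟩ := del h1 false hc
        refine ⟨τ, fun D hD n => ?_⟩
        rcases mem_pw.1 hD with rfl | ⟨D, hd, rfl⟩ | ⟨D, -, rfl⟩
        · exact holds_cons.2 (Or.inr o)
        · exact holds_cons.2 (Or.inr (h D hd fun g => n (by rw [g])))
        · exact holds_cons.2 (Or.inl e)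
      · obtain ⟨τ, e, -, h⟩ := del h2 true hc
        refine ⟨τ, fun D hD n => ?_⟩
        rcases mem_pw.1 hD with rfl | ⟨D, -, rfl⟩ | ⟨D, hd, rfl⟩
        · exact holds_cons.2 (Or.inl e)
        · exact holds_cons.2 (Or.inl e)
        · exact holds_cons.2 (Or.inr (h D hd fun g => n (by rw [g])))

end Pool.Agent.Lib.MP_ae8a84_co.DP
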