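import Pool.Agent.Lib.MP_ae8a84_co.DP.Defs

/-!
The program of a column formula is minimally unsatisfiable exactly when the formula is.
-/

namespace Pool.Agent.Lib.MP_ae8a84_co.DP

namespace ProgAux

/-- the sources -/
def src (k : ℕ) : Prog := List.replicate k (0, 0)

/-- the final part -/
def needs (m : ℕ) : Prog := (List.replicate m [(4, 0), (1, 0)]).flatten

theorem src_succ (k : ℕ) : src (k + 1) = (0, 0) :: src k := rfl

theorem needs_succ (m : ℕ) : needs (m + 1) = (4, 0) :: (1, 0) :: needs m := rfl

theorem src_length (k : ℕ) : (src k).length = k := List.length_replicate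

theorem step0 (s t : St) :
    Step (0, 0) s t ↔ (∀ i, t (2 + i) ≤ s i) ∧ (t 0 && t 1) = false := by
  simp only [Step, no, ni, outs, ins, rel]
  cases t 0 <;> cases t 1 <;> simp

theorem step4 (s t : St) :
    Step (4, 0) s t ↔ (∀ i, t (2 + i) ≤ s (1 + i)) ∧ ((t 0 || t 1) = true → s 0 = true) := by
  simp only [Step, no, ni, outs, ins, rel]
  cases s 0 <;> cases t 0 <;> cases t 1 <;> simp

theorem step1 (s t : St) :
    Step (1, 0) s t ↔ (∀ i, t i ≤ s (2 + i)) ∧ (s 0 || s 1) = true := by
  simp [Step, no, ni, outs, ins, rel]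

theorem le_true {a b : Bool} (h : a ≤ b) (ha : a = true) : b = true := by
  revert a b
  decide

theorem and_false_of_le {a b c d : Bool} (h1 : a ≤ c) (h2 : b ≤ d) (h : (c && d) = false) :
    (a && b) = false := by
  revert a b c d
  decide

theorem run_src (k : ℕ) (s u : St) :
    Run (src k) s u ↔ (∀ v < k, (u (2 * v) && u (2 * v + 1)) = false) ∧
      ∀ x, u (2 * k + x) ≤ s x := by
  induction k generalizing s with
  | zero =>
    constructor
    · intro h
      exact ⟨fun v hv => absurd hv (Nat.not_lt_zero v), fun x => by simpa using h x⟩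
    · rintro ⟨-, h⟩ x
      simpa using h x
  | succ k ih =>
    rw [src_succ]
    constructor
    · rintro ⟨w, hw, hr⟩
      rw [step0] at hw
      rw [ih] at hr
      refine ⟨fun v hv => ?_, fun x => ?_⟩
      · rcases Nat.lt_succ_iff_lt_or_eq.1 hv with h | rfl
        · exact hr.1 v h
        · exact and_false_of_le (hr.2 0) (hr.2 1) hw.2
      · have h1 := hr.2 (2 + x)
        rw [show 2 * k + (2 + x) = 2 * (k + 1) + x by ring] at h1
        exact h1.trans (hw.1 x)
    · rintro ⟨h1, h2⟩
      refine ⟨fun x => u (2 * k + x), ?_, ?_⟩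
      · rw [step0]
        refine ⟨fun i => ?_, h1 k (Nat.lt_succ_self k)⟩
        have := h2 i
        rwa [show 2 * (k + 1) + i = 2 * k + (2 + i) by ring] at this
      · rw [ih]
        exact ⟨fun v hv => h1 v (Nat.lt_succ_of_lt hv), fun x => le_rfl⟩

theorem wf_src (k w : ℕ) : WF (src k) w := by
  induction k generalizing w with
  | zero => trivial
  | succ k ih => exact ⟨by norm_num, by simp [ni, ins], ih _⟩

theorem wid_src (k w : ℕ) : wid (src k) w = w + 2 * k := by
  simp [wid, src, no, ni, outs, ins, Nat.mul_comm]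

theorem run_needs (m : ℕ) (t u : St) :
    Run (needs m) t u ↔ (∀ i < m, t i = true) ∧ ∀ x, u x ≤ t (m + x) := by
  induction m generalizing t with
  | zero =>
    constructor
    · intro h
      exact ⟨fun v hv => absurd hv (Nat.not_lt_zero v), fun x => by simpa using h x⟩
    · rintro ⟨-, h⟩ x
      simpa using h x
  | succ m ih =>
    rw [needs_succ]
    constructor
    · rintro ⟨a, ha, b, hb, hr⟩
      rw [step4] at ha
      rw [step1] at hb
      rw [ih] at hr
      have hba : ∀ i, b i ≤ t (1 + i) := fun i => (hb.1 i).trans (ha.1 i)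
      refine ⟨fun i hi => ?_, fun x => ?_⟩
      · rcases i with _ | i
        · exact ha.2 hb.2
        · have := le_true (hba i) (hr.1 i (by omega))
          rwa [Nat.add_comm] at this
      · have := (hr.2 x).trans (hba (m + x))
        rwa [show 1 + (m + x) = m + 1 + x by ring] at this
    · rintro ⟨h1, h2⟩
      refine ⟨fun x => t (x - 1), ?_, fun x => t (x + 1), ?_, ?_⟩
      · rw [step4]
        refine ⟨fun i => ?_, fun _ => h1 0 (Nat.succ_pos m)⟩
        rw [show 2 + i - 1 = 1 + i by omega]
      · rw [step1]
        refine ⟨fun i => ?_, ?_⟩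
        · rw [show 2 + i - 1 = i + 1 by omega]
        · simp [h1 0 (Nat.succ_pos m)]
      · rw [ih]
        refine ⟨fun i hi => h1 _ (by omega), fun x => ?_⟩
        have := h2 x
        rwa [show m + 1 + x = m + x + 1 by ring] at this

theorem wf_needs (m : ℕ) : WF (needs m) m := by
  induction m with
  | zero => trivial
  | succ m ih =>
    rw [needs_succ]
    refine ⟨by norm_num, by simp [ni, ins], by norm_num, by simp [ni, no, ins, outs], ?_⟩
    simpa [ni, no, ins, outs] using ih

theorem wid_two (p : Prog) (m : ℕ) : wid ((4, 0) :: (1, 0) :: p) (m + 1) = wid p m := by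
  simp only [wid, List.map_cons, List.sum_cons]
  have h1 : no 4 = 2 := rfl
  have h2 : no 1 = 0 := rfl
  have h3 : ni 4 = 1 := rfl
  have h4 : ni 1 = 2 := rfl
  omega

theorem wid_needs (m : ℕ) : wid (needs m) m = 0 := by
  induction m with
  | zero => rfl
  | succ m ih => rw [needs_succ, wid_two, ih]

theorem fault_needs (m k j : ℕ) (hj : j < wid ((needs m).take k) m) :
    ∃ i < m, ∀ t : St, (∀ i' < m, i' ≠ i → t i' = true) →
      FRun (needs m) k j t fun _ => false := by
  induction m generalizing k with
  | zero => simp [needs, wid] at hj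
  | succ m ih =>
    rcases k with _ | _ | k
    · have hj' : j < m + 1 := by simpa [wid] using hj
      refine ⟨j, hj', fun t ht => ⟨t, le_rfl, ?_⟩⟩
      rw [List.drop_zero, run_needs]
      refine ⟨fun i hi => ?_, fun x => Bool.false_le _⟩
      by_cases h : i = j
      · subst h
        simp
      · rw [Function.update_of_ne h]
        exact ht i hi h
    · have hj' : j < m + 2 := by
        rw [needs_succ] at hj
        simpa [wid, no, ni, outs, ins] using hj
      refine ⟨j - 1, by omega, fun t ht => ⟨fun x => t (x - 1), ⟨fun x => t (x - 1), ?_, le_rfl⟩, ?_⟩⟩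
      · rw [step4]
        refine ⟨fun i => ?_, fun h => by simpa using h⟩
        rw [show 2 + i - 1 = 1 + i by omega]
      · rw [needs_succ]
        refine ⟨fun x => Function.update (fun x => t (x - 1)) j true (2 + x), ?_, ?_⟩
        · rw [step1]
          refine ⟨fun i => le_rfl, ?_⟩
          rcases j with _ | _ | j
          · simp
          · simp
          · have := ht 0 (Nat.succ_pos m) (by omega)
            simp [this]
        · show Run (needs m) _ _
          rw [run_needs]
          refine ⟨fun i hi => ?_, fun x => Bool.false_le _⟩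
          by_cases h : 2 + i = j
          · subst h
            simp
          · rw [Function.update_of_ne h]
            exact ht _ (by omega) (by omega)
    · rw [needs_succ] at hj
      have hj' : j < wid ((needs m).take k) m := by
        rw [← wid_two]
        exact hj
      obtain ⟨i, hi, h⟩ := ih k hj'
      refine ⟨i + 1, by omega, fun t ht => ?_⟩
      obtain ⟨u, hu1, hu2⟩ := h (fun x => t (x + 1)) fun i' hi' hne => ht _ (by omega) (by omega)
      have h0 : t 0 = true := ht 0 (Nat.succ_pos m) (by omega)
      rw [needs_succ]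
      refine ⟨u, ⟨fun x => t (x - 1), ?_, fun x => t (x + 1), ?_, hu1⟩, hu2⟩
      · rw [step4]
        refine ⟨fun i => ?_, fun _ => h0⟩
        rw [show 2 + i - 1 = 1 + i by omega]
      · rw [step1]
        refine ⟨fun i => ?_, ?_⟩
        · rw [show 2 + i - 1 = i + 1 by omega]
        · simp [h0]

theorem frun_left (h1 : StRun) {p q : Prog} {k j : ℕ} {s t r : St} (hk : k ≤ p.length)
    (h : FRun p k j s t) (hq : Run q t r) : FRun (p ++ q) k j s r := by
  obtain ⟨u, hu1, hu2⟩ := h
  refine ⟨u, ?_, ?_⟩
  · rwa [List.take_append_of_le_length hk]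
  · rw [List.drop_append_of_le_length hk, h1.2.1]
    exact ⟨t, hu2, hq⟩

theorem frun_right (h1 : StRun) {p q : Prog} {k j : ℕ} {s t r : St} (hp : Run p s t)
    (h : FRun q k j t r) : FRun (p ++ q) (p.length + k) j s r := by
  obtain ⟨u, hu1, hu2⟩ := h
  refine ⟨u, ?_, ?_⟩
  · rw [List.take_length_add_append, h1.2.1]
    exact ⟨t, hp, hu1⟩
  · rwa [List.drop_length_add_append]

/-- the action of the middle part -/
def act (φ : List (List ℕ)) (n : ℕ) (s : St) : St := fun i =>
  if i < φ.length then (φ.getD i []).any s else s (2 * n + (i - φ.length))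

theorem of_sat {φ : List (List ℕ)} {n : ℕ} {A : ℕ → Prop} (hc : Cols φ n) (h : SatC φ n A) :
    ∃ s : St, Run (src n) (fun _ => false) s ∧ ∀ i < φ.length, A i → act φ n s i = true := by
  obtain ⟨s, hs1, hs2⟩ := h
  refine ⟨fun x => if x < 2 * n then s x else false, ?_, fun i hi hA => ?_⟩
  · rw [run_src]
    refine ⟨fun v hv => ?_, fun x => ?_⟩
    · rw [if_pos (by omega), if_pos (by omega)]
      exact hs1 v hv
    · rw [if_neg (by omega)]
  · obtain ⟨c, hc1, hc2⟩ := hs2 i hi hA
    have hm : φ.getD i [] ∈ φ := by
      rw [List.getD_eq_getElem _ _ hi]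
      exact List.getElem_mem hi
    have hlt := hc.1 _ hm c hc1
    simp only [act, if_pos hi, List.any_eq_true]
    exact ⟨c, hc1, by rw [if_pos hlt, hc2]⟩

theorem to_sat {φ : List (List ℕ)} {n : ℕ} {A : ℕ → Prop} {s : St}
    (hs : Run (src n) (fun _ => false) s) (h : ∀ i < φ.length, A i → act φ n s i = true) :
    SatC φ n A := by
  refine ⟨s, ((run_src _ _ _).1 hs).1, fun i hi hA => ?_⟩
  have := h i hi hA
  simp only [act, if_pos hi, List.any_eq_true] at this
  exact this

theorem fault_src {n k j : ℕ} {s : St} (hk : k ≤ n) (hs : Run (src n) (fun _ => false) s) :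
    FRun (src n) k j (fun _ => false) (Function.update s (2 * (n - k) + j) true) := by
  rw [run_src] at hs
  refine ⟨fun x => s (2 * (n - k) + x), ?_, ?_⟩
  · have e : (src n).take k = src k := by simp [src, hk]
    rw [e, run_src]
    refine ⟨fun v hv => ?_, fun x => ?_⟩
    · have := hs.1 (n - k + v) (by omega)
      rwa [show 2 * (n - k + v) + 1 = 2 * (n - k) + (2 * v + 1) by ring,
        show 2 * (n - k + v) = 2 * (n - k) + 2 * v by ring] at this
    · have := hs.2 x
      rwa [show 2 * n + x = 2 * (n - k) + (2 * k + x) by omega] at this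
  · have e : (src n).drop k = src (n - k) := by simp [src]
    rw [e, run_src]
    refine ⟨fun v hv => ?_, fun x => ?_⟩
    · rw [Function.update_of_ne (by omega), Function.update_of_ne (by omega)]
      exact hs.1 v (by omega)
    · by_cases h : x = j
      · subst h
        simp
      · rw [Function.update_of_ne (by omega), Function.update_of_ne h]

end ProgAux

open ProgAux in
theorem prog_thm (h1 : StRun) (h2 : StMid) : StProg := by
  intro φ n hc
  obtain ⟨hw, hwf, hrun, hfault⟩ := h2 φ n hc
  change ∀ s t, Run (mid φ n) s t ↔ t ≤ act φ n s at hrun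
  change ∀ k ≤ (mid φ n).length, ∀ j < wid ((mid φ n).take k) (2 * n), ∃ i < wid (mid φ n) (2 * n),
    ∀ s, FRun (mid φ n) k j s (Function.update (act φ n s) i true) at hfault
  rw [hw] at hfault
  have e : prog φ n = src n ++ mid φ n ++ needs φ.length := rfl
  have hws : wid (src n) 0 = 2 * n := by rw [wid_src, Nat.zero_add]
  have hwf2 : WF (src n ++ mid φ n) 0 := by
    rw [h1.2.2.1, hws]
    exact ⟨wf_src _ _, hwf⟩
  have hw2 : wid (src n ++ mid φ n) 0 = φ.length := by
    rw [h1.2.2.2.1 _ _ _ (wf_src _ _), hws, hw]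
  have hend : ∀ (s : St) (i : ℕ), (∀ i' < φ.length, i' ≠ i → act φ n s i' = true) →
      Run (needs φ.length) (Function.update (act φ n s) i true) fun _ => false := by
    intro s i h
    rw [run_needs]
    refine ⟨fun i' hi' => ?_, fun x => Bool.false_le _⟩
    by_cases hi : i' = i
    · subst hi
      simp
    · rw [Function.update_of_ne hi]
      exact h i' hi' hi
  have hsat : Run (prog φ n) (fun _ => false) (fun _ => false) ↔ SatC φ n fun _ => True := by
    rw [e, h1.2.1]
    constructor
    · rintro ⟨u, hu1, hu2⟩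
      rw [h1.2.1] at hu1
      obtain ⟨s, hs1, hs2⟩ := hu1
      rw [hrun] at hs2
      rw [run_needs] at hu2
      exact to_sat hs1 fun i hi _ => le_true (hs2 i) (hu2.1 i hi)
    · intro h
      obtain ⟨s, hs1, hs2⟩ := of_sat hc h
      refine ⟨act φ n s, (h1.2.1 _ _ _ _).2 ⟨s, hs1, (hrun _ _).2 le_rfl⟩, ?_⟩
      rw [run_needs]
      exact ⟨fun i hi => hs2 i hi trivial, fun x => Bool.false_le _⟩
  refine ⟨?_, ?_, ?_⟩
  · rw [e, h1.2.2.1, hw2]
    exact ⟨hwf2, wf_needs _⟩
  · rw [e, h1.2.2.2.1 _ _ _ hwf2, hw2, wid_needs]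
  · constructor
    · rintro ⟨hn, hf⟩
      refine ⟨fun h => hn (hsat.2 h), fun i hi => ?_⟩
      have et : (prog φ n).take (src n ++ mid φ n).length = src n ++ mid φ n := by
        rw [e, List.take_left]
      have ed : (prog φ n).drop (src n ++ mid φ n).length = needs φ.length := by
        rw [e, List.drop_left]
      obtain ⟨u, hu1, hu2⟩ := hf (src n ++ mid φ n).length
        (by rw [e, List.length_append (as := src n ++ mid φ n)]; omega) i (by rw [et, hw2]; exact hi)
      rw [et, h1.2.1] at hu1
      rw [ed, run_needs] at hu2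
      obtain ⟨s, hs1, hs2⟩ := hu1
      rw [hrun] at hs2
      refine to_sat hs1 fun i' hi' hne => le_true (hs2 i') ?_
      have := hu2.1 i' hi'
      rwa [Function.update_of_ne hne] at this
    · rintro ⟨hn, hd⟩
      refine ⟨fun h => hn (hsat.1 h), fun k _ j hj => ?_⟩
      rw [e] at hj ⊢
      by_cases hk1 : k ≤ n
      · have hk1' : k ≤ (src n).length := by rwa [src_length]
        have hk2' : k ≤ (src n ++ mid φ n).length := by
          rw [List.length_append]
          omega
        rw [List.take_append_of_le_length hk2', List.take_append_of_le_length hk1',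
          show (src n).take k = src k by simp [src, hk1], wid_src] at hj
        obtain ⟨i, hi, h⟩ := hfault 0 (Nat.zero_le _) (2 * (n - k) + j)
          (by simp only [List.take_zero, wid, List.map_nil, List.sum_nil]; omega)
        obtain ⟨s, hs1, hs2⟩ := of_sat hc (hd i hi)
        obtain ⟨u, hu1, hu2⟩ := h s
        refine frun_left h1 hk2' (frun_left h1 hk1' (fault_src hk1 hs1) ?_) (hend s i hs2)
        rw [List.drop_zero] at hu2
        refine h1.1 _ _ _ _ _ hu2 (fun x => ?_) le_rfl
        by_cases hx : x = 2 * (n - k) + j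
        · subst hx
          simp
        · rw [Function.update_of_ne hx, Function.update_of_ne hx]
          exact hu1 x
      · by_cases hk2 : k ≤ (src n ++ mid φ n).length
        · obtain ⟨k', rfl⟩ : ∃ k', k = (src n).length + k' :=
            ⟨k - n, by rw [src_length]; omega⟩
          rw [List.take_append_of_le_length hk2, List.take_length_add_append,
            h1.2.2.2.1 _ _ _ (wf_src _ _), hws] at hj
          obtain ⟨i, hi, h⟩ := hfault k' (by rw [List.length_append] at hk2; omega) j hj
          obtain ⟨s, hs1, hs2⟩ := of_sat hc (hd i hi)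
          exact frun_left h1 hk2 (frun_right h1 hs1 (h s)) (hend s i hs2)
        · obtain ⟨k', rfl⟩ : ∃ k', k = (src n ++ mid φ n).length + k' :=
            ⟨k - (src n ++ mid φ n).length, by omega⟩
          rw [List.take_length_add_append, h1.2.2.2.1 _ _ _ hwf2, hw2] at hj
          obtain ⟨i, hi, h⟩ := fault_needs _ _ _ hj
          obtain ⟨s, hs1, hs2⟩ := of_sat hc (hd i hi)
          exact frun_right h1 ((h1.2.1 _ _ _ _).2 ⟨s, hs1, (hrun _ _).2 le_rfl⟩) (h _ hs2)

end Pool.Agent.Lib.MP_ae8a84_co.DP
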