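import Pool.Agent.Lib.MP_ae8a84_co.DP.Defs

namespace Pool.Agent.Lib.MP_ae8a84_co.DP

namespace RunAux

theorem rel_mono {g : ℕ} {a b a' b' c d : Bool} (h : rel g a b c d = true) (h1 : a ≤ a')
    (h2 : b ≤ b') : rel g a' b' c d = true := by
  match g with
  | 0 | 1 | 2 | 3 | 4 | 5 => revert a b a' b' c d; decide
  | _ + 6 => exact absurd h (by simp [rel])

theorem run_mono : ∀ (p : Prog) (s s' t t' : St), Run p s t → s ≤ s' → t' ≤ t → Run p s' t'
  | [], _, _, _, _, h, a, b => le_trans b (le_trans h a)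
  | _ :: p, _, _, _, _, ⟨u, ⟨h1, h2, h3⟩, h4⟩, a, b =>
    ⟨u, ⟨fun i hi => (h1 i hi).trans (a i), fun i => (h2 i).trans (a _), rel_mono h3 (a _) (a _)⟩,
      run_mono p u u _ _ h4 le_rfl b⟩

theorem run_append : ∀ (p q : Prog) (s t : St), Run (p ++ q) s t ↔ ∃ u, Run p s u ∧ Run q u t
  | [], q, s, _ => ⟨fun h => ⟨s, le_refl s, h⟩, fun ⟨_, a, b⟩ => run_mono q _ _ _ _ b a le_rfl⟩
  | _ :: p, q, _, t => ⟨fun ⟨u, a, b⟩ => by
      obtain ⟨v, c, d⟩ := (run_append p q u t).1 b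
      exact ⟨v, ⟨u, a, c⟩, d⟩,
    fun ⟨v, ⟨u, a, c⟩, d⟩ => ⟨u, a, (run_append p q u t).2 ⟨v, c, d⟩⟩⟩

theorem wid_nil (w : ℕ) : wid [] w = w := rfl

theorem wid_cons {x : ℕ × ℕ} {p : Prog} {w : ℕ} (h : x.2 + ni x.1 ≤ w) :
    wid (x :: p) w = wid p (w + no x.1 - ni x.1) := by
  simp only [wid, List.map_cons, List.sum_cons]
  omega

theorem wf_append : ∀ (p q : Prog) (w : ℕ), WF (p ++ q) w ↔ WF p w ∧ WF q (wid p w)
  | [], _, _ => ⟨fun h => ⟨trivial, h⟩, fun h => h.2⟩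
  | x :: p, q, w => by
    change _ ∧ _ ∧ WF (p ++ q) _ ↔ (_ ∧ _ ∧ _) ∧ _
    rw [wf_append p q]
    exact ⟨fun ⟨a, b, c, d⟩ => ⟨⟨a, b, c⟩, (wid_cons b).symm ▸ d⟩,
      fun ⟨⟨a, b, c⟩, d⟩ => ⟨a, b, c, wid_cons b ▸ d⟩⟩

theorem wid_append : ∀ (p q : Prog) (w : ℕ), WF p w → wid (p ++ q) w = wid q (wid p w)
  | [], _, _, _ => rfl
  | _ :: p, q, _, h => by
    rw [List.cons_append, wid_cons h.2.1, wid_cons h.2.1, wid_append p q _ h.2.2]

theorem no_le (g : ℕ) : no g ≤ 2 := by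
  match g with
  | 0 | 1 | 2 | 3 | 4 | 5 => decide
  | _ + 6 => exact Nat.zero_le _

theorem wid_le : ∀ (p : Prog) (w : ℕ), WF p w → wid p w ≤ w + 2 * p.length
  | [], _, _ => le_rfl
  | x :: p, w, h => by
    have := wid_le p _ h.2.2
    have := no_le x.1
    rw [wid_cons h.2.1, List.length_cons]
    omega

theorem comp {p q : Prog} {w : ℕ} {f g : St → St} (hp : Tight p w f) (hq : Tight q (wid p w) g) :
    Tight (p ++ q) w (g ∘ f) := by
  obtain ⟨p1, p2, p3⟩ := hp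
  obtain ⟨q1, q2, q3⟩ := hq
  refine ⟨(wf_append p q w).2 ⟨p1, q1⟩, fun s t => ?_, fun k hk j hj => ?_⟩
  · rw [run_append]
    exact ⟨fun ⟨u, a, b⟩ => (q2 _ _).1 (run_mono q _ _ _ _ b ((p2 _ _).1 a) le_rfl),
      fun h => ⟨f s, (p2 _ _).2 le_rfl, (q2 _ _).2 h⟩⟩
  · rw [wid_append p q w p1]
    rcases le_total k p.length with c | c
    · rw [List.take_append_of_le_length c] at hj
      obtain ⟨i, hi, a⟩ := p3 k c j hj
      obtain ⟨i', hi', b⟩ := q3 0 (Nat.zero_le _) i hi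
      refine ⟨i', hi', fun s => ?_⟩
      obtain ⟨u, a1, a2⟩ := a s
      obtain ⟨v, b1, b2⟩ := b (f s)
      refine ⟨u, by rwa [List.take_append_of_le_length c], ?_⟩
      rw [List.drop_append_of_le_length c, run_append]
      exact ⟨_, a2, run_mono _ _ _ _ _ b2 (update_le_update_iff.2
        ⟨le_rfl, fun x _ => b1 x⟩) le_rfl⟩
    · obtain ⟨k, rfl⟩ := Nat.exists_eq_add_of_le c
      rw [List.take_length_add_append, wid_append p _ w p1] at hj
      obtain ⟨i, hi, a⟩ := q3 k (by simpa using hk) j hj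
      refine ⟨i, hi, fun s => ?_⟩
      obtain ⟨u, a1, a2⟩ := a (f s)
      refine ⟨u, ?_, by rwa [List.drop_length_add_append]⟩
      rw [List.take_length_add_append, run_append]
      exact ⟨_, (p2 _ _).2 le_rfl, a1⟩

end RunAux

open RunAux in
theorem run_thm : StRun ∧ StComp :=
  ⟨⟨run_mono, run_append, wf_append, wid_append, wid_le⟩,
    fun _ => ⟨trivial, fun _ _ => Iff.rfl, fun k hk j hj => by
      obtain rfl : k = 0 := Nat.le_zero.1 hk
      exact ⟨j, hj, fun s => ⟨s, le_refl s, le_refl (Function.update s j true)⟩⟩⟩,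
    fun _ _ _ _ _ => comp⟩

end Pool.Agent.Lib.MP_ae8a84_co.DP
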