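import Pool.Agent.Lib.MP_ae8a84_co.DP.Defs

/-!
An interval representation gives an assignment for the clauses whose points are represented.
-/

namespace Pool.Agent.Lib.MP_ae8a84_co.DP

open Pool.Agent.Lib.MP_ae8a84_co.NP (Cl Leg)

namespace SoundAux

variable {P N : List Cl} {C : Cl} {t : ℕ} {A B : Set V} {l r l' r' : V → ℝ}

theorem seg_mem {e : V} (hC : C ∈ P) (h : e ∈ segs P C) : e ∈ verts N P :=
  List.mem_dedup.2 (List.mem_append_right _ (List.mem_flatMap.2 ⟨C, hC, h⟩))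

theorem pts_mem {e : V} (hC : C ∈ P) (h : e ∈ pts P C) : e ∈ verts P N :=
  List.mem_dedup.2 (List.mem_append_left _ (List.mem_flatMap.2 ⟨C, hC, h⟩))

theorem top_mem (hC : C ∈ P) : top C ∈ verts N P := seg_mem hC (by simp [segs])

theorem bot_mem (hC : C ∈ P) : (8 * C.2.1, 8 * C.2.2) ∈ verts N P := seg_mem hC (by simp [segs])

theorem bot_mem' (hC : C ∈ P) (h : C.1 < C.2.1) : (8 * C.1, 8 * C.2.1) ∈ verts N P :=
  seg_mem hC (by simp [segs, h])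

theorem left (hP : Good P) (hC : C ∈ P) : ∃ e ∈ verts N P, e.1 ≤ 8 * C.1 ∧ 8 * C.1 ≤ e.2 ∧
    e.2 ≤ 8 * C.1 + 1 ∧ ((∃ u ∈ verts P N, u.1 ≤ u.2 ∧ e.1 ≤ u.2 ∧ u.2 + 2 ≤ 8 * C.1) ∨
      ∃ D ∈ P, D.1 < C.1 ∧ e.1 ≤ 8 * D.1) := by
  have w := hP.wf C hC
  cases h : freeL P C with
  | true =>
    exact ⟨(8 * C.1 - 3, 8 * C.1), seg_mem hC (by simp [segs, h]), by omega, le_rfl, by omega,
      Or.inl ⟨(8 * C.1 - 3, 8 * C.1 - 2), pts_mem hC (by simp [pts, h]), by omega, by omega,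
        by omega⟩⟩
  | false =>
    obtain ⟨D, hD, e⟩ : ∃ D ∈ P, D.2.2 = C.1 := by simpa [freeL] using h
    have := hP.wf D hD
    refine ⟨top D, top_mem hD, ?_, ?_, ?_, Or.inr ⟨D, hD, by omega, ?_⟩⟩ <;> simp only [top] <;>
      omega

theorem right (hP : Good P) (hC : C ∈ P) : ∃ e ∈ verts N P, 8 * C.2.2 ≤ e.1 + 1 ∧
    e.1 ≤ 8 * C.2.2 ∧ 8 * C.2.2 ≤ e.2 ∧
    ((∃ u ∈ verts P N, u.1 ≤ u.2 ∧ u.1 ≤ e.2 ∧ 8 * C.2.2 + 2 ≤ u.1) ∨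
      ∃ D ∈ P, C.2.2 < D.2.2 ∧ 8 * D.2.2 ≤ e.2) := by
  cases h : freeR P C with
  | true =>
    exact ⟨(8 * C.2.2, 8 * C.2.2 + 3), seg_mem hC (by simp [segs, h]), by omega, le_rfl, by omega,
      Or.inl ⟨(8 * C.2.2 + 2, 8 * C.2.2 + 3), pts_mem hC (by simp [pts, h]), by omega, by omega,
        by omega⟩⟩
  | false =>
    obtain ⟨D, hD, e⟩ : ∃ D ∈ P, D.1 = C.2.2 := by simpa [freeR] using h
    have := hP.wf D hD
    refine ⟨top D, top_mem hD, ?_, ?_, ?_, Or.inr ⟨D, hD, by omega, ?_⟩⟩ <;> simp only [top] <;>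
      omega

theorem ends (hP : Good P) (hC : C ∈ P) (h : Leg C t) :
    ∃ e ∈ verts N P, e.1 ≤ 8 * t ∧ 8 * t ≤ e.2 ∧ e.2 ≤ 8 * t + 1 := by
  have w := hP.wf C hC
  by_cases a : t = C.1
  · obtain ⟨e, e1, e2, e3, e4, -⟩ := left (N := N) hP hC
    exact ⟨e, e1, a ▸ e2, a ▸ e3, a ▸ e4⟩
  · rcases h with h | h | h
    · exact (a h).elim
    · exact ⟨_, bot_mem' hC (by omega), by omega, by omega, by omega⟩
    · exact ⟨_, bot_mem hC, by omega, by omega, by omega⟩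

theorem starts (hP : Good P) (hC : C ∈ P) (h : Leg C t) :
    ∃ e ∈ verts N P, 8 * t ≤ e.1 + 1 ∧ e.1 ≤ 8 * t ∧ 8 * t ≤ e.2 := by
  have w := hP.wf C hC
  rcases h with h | h | h
  · refine ⟨_, top_mem hC, ?_, ?_, ?_⟩ <;> simp only [top] <;> omega
  · exact ⟨_, bot_mem hC, by omega, by omega, by omega⟩
  · obtain ⟨e, e1, e2, e3, e4, -⟩ := right (N := N) hP hC
    exact ⟨e, e1, h ▸ e2, h ▸ e3, h ▸ e4⟩

theorem sides {x x' T T' a a' b b' u u' v v' w w' z z' : ℝ} (h1 : T ≤ x' ∧ x ≤ T')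
    (h2 : a ≤ u' ∧ u ≤ a') (h3 : ¬ (T ≤ u' ∧ u ≤ T')) (h4 : b ≤ v' ∧ v ≤ b')
    (h5 : ¬ (T ≤ v' ∧ v ≤ T')) (h6 : T ≤ w' ∧ w ≤ T') (h7 : b ≤ w' ∧ w ≤ b')
    (h8 : ¬ (a ≤ w' ∧ w ≤ a')) (h9 : T ≤ z' ∧ z ≤ T') (h10 : a ≤ z' ∧ z ≤ a')
    (h11 : ¬ (b ≤ z' ∧ z ≤ b')) : ¬ (x' < a ∧ x' < b) ∧ ¬ (a' < x ∧ b' < x) := by
  rw [not_and_or, not_le, not_le] at h3 h5 h8 h11
  constructor <;> rintro ⟨k, k'⟩ <;> rcases h3 with h3 | h3 <;> rcases h5 with h5 | h5 <;>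
    rcases h8 with h8 | h8 <;> rcases h11 with h11 | h11 <;>
    linarith [h1.1, h1.2, h2.1, h2.2, h4.1, h4.2, h6.1, h6.2, h7.1, h7.2, h9.1, h9.2, h10.1, h10.2]

theorem chain {a a' b b' c c' d d' : Prop} (k : ¬ (a ∧ d) ∧ ¬ (a' ∧ d')) (j1 : a ∨ a') (j2 : b ∨ b')
    (j3 : c ∨ c') (j4 : d ∨ d') (q1 : a' → ¬ b) (q2 : b' → ¬ a) (q3 : b' → ¬ c) (q4 : c' → ¬ b)
    (q5 : c' → ¬ d) (q6 : d' → ¬ c) : False := by tauto

/-- two disjoint intervals at the same time -/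
def Split (X : List V) (l r : V → ℝ) (t : ℕ) : Prop :=
  ∃ e ∈ X, ∃ f ∈ X, (e.1 ≤ 8 * t ∧ 8 * t ≤ e.2) ∧ (f.1 ≤ 8 * t ∧ 8 * t ≤ f.2) ∧ r e < l f

/-- representations -/
def R (A B : Set V) (l r l' r' : V → ℝ) : Prop :=
  ∀ d ∈ A, ∀ e ∈ B, (e.1 ≤ d.2 ∧ d.1 ≤ e.2 ↔ l' e ≤ r d ∧ l d ≤ r' e)

theorem R.symm (h : R A B l r l' r') : R B A l' r' l r := fun e he d hd =>
  and_comm.trans ((h d hd e he).trans and_comm)

theorem half (hP : Good P) (hN : Good N) (hb : Both P N) (h : R A B l r l' r')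
    (h0 : ∀ d, l d ≤ r d) (hA : ∀ d ∈ verts P N, d.1 ≤ d.2 → d ∈ A)
    (hB : ∀ e ∈ verts N P, e.1 ≤ e.2 → e ∈ B) (hC : C ∈ P) (hx : pnt C ∈ A) :
    ∃ t, Leg C t ∧ Split (verts N P) l' r' t := by
  have w := hP.wf C hC
  obtain ⟨a, a1, a2, a3, a4, a5⟩ := left (N := N) hP hC
  obtain ⟨b, b1, b2, b3, b4, b5⟩ := right (N := N) hP hC
  obtain ⟨u, u1, u2, u3, u4⟩ : ∃ u ∈ verts P N, u.1 ≤ u.2 ∧ a.1 ≤ u.2 ∧ u.2 + 2 ≤ 8 * C.1 := by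
    refine a5.elim id fun ⟨D, d1, d2, d3⟩ => ?_
    obtain ⟨E, e1, e2⟩ := hb D d1 _ (Or.inl rfl)
    obtain ⟨u, u1, u2⟩ := ends (N := P) hN e1 e2
    exact ⟨u, u1, by omega⟩
  obtain ⟨v, v1, v2, v3, v4⟩ : ∃ u ∈ verts P N, u.1 ≤ u.2 ∧ u.1 ≤ b.2 ∧ 8 * C.2.2 + 2 ≤ u.1 := by
    refine b5.elim id fun ⟨D, d1, d2, d3⟩ => ?_
    obtain ⟨E, e1, e2⟩ := hb D d1 _ (Or.inr (Or.inr rfl))
    obtain ⟨u, u1, u2⟩ := starts (N := P) hN e1 e2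
    exact ⟨u, u1, by omega⟩
  obtain ⟨D, d1, d2⟩ := hb C hC _ (Or.inr (Or.inr rfl))
  obtain ⟨y, y1, y2⟩ := starts (N := P) hN d1 d2
  obtain ⟨E, e1, e2⟩ := hb C hC _ (Or.inl rfl)
  obtain ⟨z, z1, z2⟩ := ends (N := P) hN e1 e2
  have t1 : (top C).1 = 8 * C.1 - 1 := rfl
  have t2 : (top C).2 = 8 * C.2.2 + 1 := rfl
  have p1 : (pnt C).1 = 8 * C.2.2 + 1 := rfl
  have p2 : (pnt C).2 = 8 * C.1 - 1 := rfl
  have mT := hB _ (top_mem hC) (by omega)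
  have ma := hB a a1 (by omega)
  have mb := hB b b1 (by omega)
  have mu := hA u u1 u2
  have mv := hA v v1 v2
  have my := hA y y1 (by omega)
  have mz := hA z z1 (by omega)
  have k := sides ((h _ hx _ mT).1 (by omega)) ((h _ mu _ ma).1 (by omega))
    ((h _ mu _ mT).not.1 (by omega)) ((h _ mv _ mb).1 (by omega)) ((h _ mv _ mT).not.1 (by omega))
    ((h _ my _ mT).1 (by omega)) ((h _ my _ mb).1 (by omega)) ((h _ my _ ma).not.1 (by omega))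
    ((h _ mz _ mT).1 (by omega)) ((h _ mz _ ma).1 (by omega)) ((h _ mz _ mb).not.1 (by omega))
  obtain ⟨c, c1, c2⟩ : ∃ c ∈ verts N P, c.1 = 8 * C.1 ∧ 8 * C.2.1 ≤ c.2 := by
    rcases w.2.1.eq_or_lt with e | e
    · exact ⟨_, bot_mem hC, by omega, by omega⟩
    · exact ⟨_, bot_mem' hC e, rfl, le_rfl⟩
  have sd : ∀ e ∈ verts N P, e.1 ≤ e.2 → (8 * C.1 ≤ e.1 ∨ e.2 ≤ 8 * C.2.2) →
      r (pnt C) < l' e ∨ r' e < l (pnt C) := fun e e1 e2 e3 => by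
    simpa only [not_and_or, not_le] using (h _ hx _ (hB e e1 e2)).not.1 (by omega)
  by_contra n
  have st : ∀ t, Leg C t → ∀ e ∈ verts N P, ∀ f ∈ verts N P, e.1 ≤ 8 * t ∧ 8 * t ≤ e.2 →
      f.1 ≤ 8 * t ∧ 8 * t ≤ f.2 → r' e < l (pnt C) → ¬ r (pnt C) < l' f :=
    fun t ht e e1 f f1 e2 f2 g g' => n ⟨t, ht, e, e1, f, f1, e2, f2, (g.trans_le (h0 _)).trans g'⟩
  have s1 := st _ (Or.inl rfl)
  have s2 := st _ (Or.inr (Or.inl rfl))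
  have s3 := st _ (Or.inr (Or.inr rfl))
  have g1 := bot_mem (N := N) hC
  have q1 := s1 a a1 c c1 (by omega) (by omega)
  have q2 := s1 c c1 a a1 (by omega) (by omega)
  have q3 := s2 c c1 _ g1 (by omega) (by omega)
  have q4 := s2 _ g1 c c1 (by omega) (by omega)
  have q5 := s3 _ g1 b b1 (by omega) (by omega)
  have q6 := s3 b b1 _ g1 (by omega) (by omega)
  have j1 := sd a a1 (by omega) (by omega)
  have j2 := sd c c1 (by omega) (by omega)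
  have j3 := sd _ g1 (by omega) (by omega)
  have j4 := sd b b1 (by omega) (by omega)
  exact chain k j1 j2 j3 j4 q1 q2 q3 q4 q5 q6

theorem not_split {X Y : List V} (h : R A B l r l' r') (hA : ∀ d ∈ X, d.1 ≤ d.2 → d ∈ A)
    (hB : ∀ e ∈ Y, e.1 ≤ e.2 → e ∈ B) (h1 : Split X l r t) (h2 : Split Y l' r' t) : False := by
  obtain ⟨d, d1, d', d2, d3, d4, d5⟩ := h1
  obtain ⟨e, e1, e', e2, e3, e4, e5⟩ := h2
  have := ((h d (hA d d1 (by omega)) e' (hB e' e2 (by omega))).1 (by omega)).1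
  have := ((h d' (hA d' d2 (by omega)) e (hB e e1 (by omega))).1 (by omega)).2
  linarith

end SoundAux

open SoundAux in
theorem sound_thm : StSound := by
  classical
  rintro P N A B hP hN b1 b2 ⟨l, r, l', r', h1, h2, h3⟩ hA hB
  have h : R A B l r l' r' := fun d hd e he => by simpa [adj] using h3 d hd e he
  refine ⟨fun t => decide (Split (verts N P) l' r' t), fun C hC hx => ?_, fun C hC hx => ?_⟩
  · exact (half hP hN b1 h h1 hA hB hC hx).imp fun t a => ⟨a.1, decide_eq_true a.2⟩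
  · exact (half hN hP b2 h.symm h2 hB hA hC hx).imp fun t a =>
      ⟨a.1, decide_eq_false (not_split h hA hB a.2)⟩

end Pool.Agent.Lib.MP_ae8a84_co.DP
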