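import Pool.Agent.Lib.MP_ae8a84_co.DP.Defs

/-!
The crossover `usw` is tight: a checker on states coded as numbers, and its correctness.
-/

namespace Pool.Agent.Lib.MP_ae8a84_co.DP

namespace UswAux

/-- the first `w` wires are the bits of `x`, the other wires come from `r` -/
def gl (x w : ℕ) (r : St) : St := fun i => if i < w then x.testBit i else r (i - w)

/-- replace `a` bits at the position `j` by the `b` bits of `o` -/
def put (x j a b o : ℕ) : ℕ := 2 ^ j * (2 ^ b * (x / 2 ^ (j + a)) + o) + x % 2 ^ j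

/-- bitwise order -/
def le (x y : ℕ) : Bool := Nat.beq (x &&& y) x

/-- remove dominated elements -/
def pr (r : ℕ → ℕ → Bool) : List ℕ → List ℕ
  | [] => []
  | x :: l => (fun acc : List ℕ => cond (acc.any (r x)) acc (x :: acc.filter fun y => !r y x))
      (pr r l)

/-- maximal states after a gate -/
def fs (q : ℕ × ℕ) (F : List ℕ) : List ℕ :=
  pr le (F.flatMap fun x => pr le (((List.range (2 ^ no q.1)).filter fun o =>
    rel q.1 (x.testBit q.2) (x.testBit (q.2 + 1)) (o.testBit 0) (o.testBit 1)).map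
      (put x q.2 (ni q.1) (no q.1))))

/-- minimal states before a gate -/
def bs (q : ℕ × ℕ) (B : List ℕ) : List ℕ :=
  pr (fun x y => le y x) (B.flatMap fun y => pr (fun x y => le y x)
    (((List.range (2 ^ ni q.1)).filter fun o =>
      rel q.1 (o.testBit 0) (o.testBit 1) (y.testBit q.2) (y.testBit (q.2 + 1))).map
        (put y q.2 (no q.1) (ni q.1))))

/-- exchange of two bits -/
def sw (x : ℕ) : ℕ := 2 * (x % 2) + x / 2

/-- every fault at this stage raises an output -/
def ok (w : ℕ) (F B : List (List ℕ)) : Bool :=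
  (List.range w).all fun j => (List.range 2).any fun i => (List.range 4).all fun a =>
    (F.getD a []).any fun x => (B.getD (sw a ||| 2 ^ i) []).any fun m => le m (x ||| 2 ^ j)

/-- evaluation of a number before it is passed on -/
def force {α : Type} (x : ℕ) (k : ℕ → α) : α := Nat.casesOn x (k 0) fun n => k (n + 1)

/-- evaluation of a list before it is passed on -/
def forceL {α : Type} : List ℕ → (List ℕ → α) → α
  | [], k => k []
  | x :: l, k => force x fun y => forceL l fun m => k (y :: m)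

/-- evaluation of a list of lists before it is passed on -/
def forceM {α : Type} : List (List ℕ) → (List (List ℕ) → α) → α
  | [], k => k []
  | x :: l, k => forceL x fun y => forceM l fun m => k (y :: m)

/-- the checker -/
def go : Prog → ℕ → List (List ℕ) → Option (List (List ℕ))
  | [], w, F => cond (ok w F [[0], [1], [2], [3]] && (List.range 4).all fun a =>
      (F.getD a []).all fun x => le x (sw a)) (some [[0], [1], [2], [3]]) none
  | q :: p, w, F => force (w + no q.1 - ni q.1) fun w' => forceM (F.map (fs q)) fun F' =>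
      (go p w' F').bind fun B' => forceM (B'.map (bs q)) fun B => cond (ok w F B) (some B) none

lemma force_eq {α : Type} (x : ℕ) (k : ℕ → α) : force x k = k x := by cases x <;> rfl

lemma forceL_eq {α : Type} (l : List ℕ) (k : List ℕ → α) : forceL l k = k l := by
  induction l generalizing k with
  | nil => rfl
  | cons x l ih => rw [forceL, force_eq, ih]

lemma forceM_eq {α : Type} (l : List (List ℕ)) (k : List (List ℕ) → α) : forceM l k = k l := by
  induction l generalizing k with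
  | nil => rfl
  | cons x l ih => rw [forceM, forceL_eq, ih]

lemma le_iff {x y : ℕ} : le x y = true ↔ ∀ i, x.testBit i ≤ y.testBit i := by
  rw [le, Nat.beq_eq]
  refine ⟨fun h i => ?_, fun h => Nat.eq_of_testBit_eq fun i => ?_⟩
  · have := congrArg (·.testBit i) h
    simp only [Nat.testBit_and] at this
    revert this
    cases x.testBit i <;> cases y.testBit i <;> decide
  · have := h i
    rw [Nat.testBit_and]
    revert this
    cases x.testBit i <;> cases y.testBit i <;> decide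

lemma le_rf (x : ℕ) : le x x = true := le_iff.2 fun _ => le_rfl

lemma le_tr {x y z : ℕ} (h : le x y = true) (h' : le y z = true) : le x z = true :=
  le_iff.2 fun i => (le_iff.1 h i).trans (le_iff.1 h' i)

lemma gl_mono {x y : ℕ} (h : le x y = true) (w : ℕ) (r : St) : gl x w r ≤ gl y w r := fun i => by
  unfold gl
  split_ifs
  exacts [le_iff.1 h i, le_rfl]

lemma pr_sub {r : ℕ → ℕ → Bool} {l : List ℕ} {y : ℕ} (h : y ∈ pr r l) : y ∈ l := by
  induction l with
  | nil => exact h
  | cons x l ih =>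
    simp only [pr] at h
    cases e : (pr r l).any (r x) <;> rw [e] at h
    · rcases List.mem_cons.1 h with h | h
      exacts [h ▸ List.mem_cons_self, List.mem_cons_of_mem _ (ih (List.mem_filter.1 h).1)]
    · exact List.mem_cons_of_mem _ (ih h)

lemma pr_dom {l : List ℕ} {y : ℕ} (h : y ∈ l) : ∃ z ∈ pr le l, le y z = true := by
  induction l with
  | nil => cases h
  | cons x l ih =>
    simp only [pr]
    cases e : (pr le l).any (le x)
    · rcases List.mem_cons.1 h with rfl | h
      · exact ⟨y, List.mem_cons_self, le_rf y⟩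
      · obtain ⟨z, a, b⟩ := ih h
        cases c : le z x
        · exact ⟨z, List.mem_cons_of_mem _ (List.mem_filter.2 ⟨a, by simp [c]⟩), b⟩
        · exact ⟨x, List.mem_cons_self, le_tr b c⟩
    · rcases List.mem_cons.1 h with rfl | h
      exacts [List.any_eq_true.1 e, ih h]

lemma gl_put {x j a b o w w' : ℕ} (h : j + a ≤ w) (e : w' + a = w + b) (ho : o < 2 ^ b) (r : St) :
    (∀ i < j, gl (put x j a b o) w' r i = gl x w r i) ∧
    (∀ i < b, gl (put x j a b o) w' r (j + i) = o.testBit i) ∧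
    ∀ i, gl (put x j a b o) w' r (j + b + i) = gl x w r (j + a + i) := by
  have k : ∀ i, (put x j a b o).testBit i = if i < j then x.testBit i else
      if i - j < b then o.testBit (i - j) else x.testBit (i - j - b + (j + a)) := fun i => by
    rw [put, Nat.testBit_two_pow_mul_add _ (Nat.mod_lt _ (Nat.two_pow_pos j)),
      Nat.testBit_two_pow_mul_add _ ho, Nat.testBit_mod_two_pow, Nat.testBit_div_two_pow]
    split_ifs with c <;> simp [c]
  refine ⟨fun i hi => ?_, fun i hi => ?_, fun i => ?_⟩ <;> simp only [gl, k]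
  · rw [if_pos (by omega), if_pos hi, if_pos (by omega)]
  · rw [if_pos (by omega), if_neg (by omega), if_pos (by omega), Nat.add_sub_cancel_left]
  · by_cases c : j + a + i < w
    · rw [if_pos (by omega), if_neg (by omega), if_neg (by omega), if_pos c]
      congr 1
      omega
    · rw [if_neg (by omega), if_neg c]
      congr 1
      omega

lemma rel_mono : ∀ g < 6, ∀ a b c d a' b' c' d' : Bool, (0 < ni g → a ≤ a') → (1 < ni g → b ≤ b') →
    (0 < no g → c' ≤ c) → (1 < no g → d' ≤ d) → rel g a b c d = true →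
    rel g a' b' c' d' = true := by
  intro g hg a b c d
  interval_cases g <;> cases a <;> cases b <;> cases c <;> cases d <;> decide

lemma exists_bits : ∀ g < 6, ∀ c d : Bool, ∃ o < 2 ^ no g, (0 < no g → o.testBit 0 = c) ∧
    (1 < no g → o.testBit 1 = d) ∧ no g ≤ 2 := by decide

lemma gl_lt {x w i : ℕ} (h : i < w) (r : St) : gl x w r i = x.testBit i := if_pos h

variable {q : ℕ × ℕ} {w : ℕ}

lemma fs_sound (hq : q.1 < 6) (hw : q.2 + ni q.1 ≤ w) {F : List ℕ} {y : ℕ} (h : y ∈ fs q F) :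
    ∃ x ∈ F, ∀ r, Step q (gl x w r) (gl y (w + no q.1 - ni q.1) r) := by
  obtain ⟨x, hx, h⟩ := List.mem_flatMap.1 (pr_sub h)
  obtain ⟨o, ho, rfl⟩ := List.mem_map.1 (pr_sub h)
  obtain ⟨o1, o2⟩ := List.mem_filter.1 ho
  refine ⟨x, hx, fun r => ?_⟩
  obtain ⟨a, b, c⟩ := gl_put (x := x) (w' := w + no q.1 - ni q.1) hw (by omega)
    (List.mem_range.1 o1) r
  exact ⟨fun i hi => (a i hi).le, fun i => (c i).le, rel_mono _ hq _ _ _ _ _ _ _ _
    (fun e => (gl_lt (by omega) r).ge) (fun e => (gl_lt (by omega) r).ge)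
    (fun e => (b 0 e).le) (fun e => (b 1 e).le) o2⟩

lemma bs_sound (hq : q.1 < 6) (hw : q.2 + ni q.1 ≤ w) {B : List ℕ} {x : ℕ} (h : x ∈ bs q B) :
    ∃ y ∈ B, ∀ r, Step q (gl x w r) (gl y (w + no q.1 - ni q.1) r) := by
  obtain ⟨y, hy, h⟩ := List.mem_flatMap.1 (pr_sub h)
  obtain ⟨o, ho, rfl⟩ := List.mem_map.1 (pr_sub h)
  obtain ⟨o1, o2⟩ := List.mem_filter.1 ho
  refine ⟨y, hy, fun r => ?_⟩
  obtain ⟨a, b, c⟩ := gl_put (x := y) (j := q.2) (a := no q.1) (w := w + no q.1 - ni q.1) (w' := w)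
    (by omega) (by omega) (List.mem_range.1 o1) r
  exact ⟨fun i hi => (a i hi).ge, fun i => (c i).ge, rel_mono _ hq _ _ _ _ _ _ _ _
    (fun e => (b 0 e).ge) (fun e => (b 1 e).ge)
    (fun e => (gl_lt (by omega) r).le) (fun e => (gl_lt (by omega) r).le) o2⟩

lemma fs_compl (hq : q.1 < 6) (hw : q.2 + ni q.1 ≤ w) {F : List ℕ} {x : ℕ} (hx : x ∈ F) {r s t : St}
    (hs : s ≤ gl x w r) (h : Step q s t) : ∃ y ∈ fs q F, t ≤ gl y (w + no q.1 - ni q.1) r := by
  obtain ⟨o, o1, o2, o3, o4⟩ := exists_bits _ hq (t q.2) (t (q.2 + 1))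
  obtain ⟨a, b, c⟩ := gl_put (x := x) (w' := w + no q.1 - ni q.1) hw (by omega) o1 r
  obtain ⟨z, z1, z2⟩ := pr_dom (List.mem_map_of_mem (f := put x q.2 (ni q.1) (no q.1))
    ((List.mem_filter (p := fun o => rel q.1 (x.testBit q.2) (x.testBit (q.2 + 1)) (o.testBit 0)
      (o.testBit 1))).2 ⟨List.mem_range.2 o1, rel_mono _ hq _ _ _ _ _ _ _ _
      (fun e => (hs _).trans (gl_lt (by omega) r).le)
      (fun e => (hs _).trans (gl_lt (by omega) r).le) (fun e => (o2 e).le) (fun e => (o3 e).le)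
      h.2.2⟩))
  obtain ⟨y, y1, y2⟩ : ∃ y ∈ fs q F, le z y = true := pr_dom (List.mem_flatMap.2 ⟨x, hx, z1⟩)
  refine ⟨y, y1, le_trans (fun i => ?_) (gl_mono (le_tr z2 y2) _ r)⟩
  rcases lt_or_ge i q.2 with e | e
  · exact ((h.1 i e).trans (hs i)).trans (a i e).ge
  · obtain ⟨i, rfl⟩ := Nat.exists_eq_add_of_le e
    rcases lt_or_ge i (no q.1) with e | e
    · rw [b i e]
      obtain rfl | rfl : i = 0 ∨ i = 1 := by omega
      exacts [(o2 e).ge, (o3 e).ge]
    · obtain ⟨i, rfl⟩ := Nat.exists_eq_add_of_le e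
      rw [← add_assoc, c]
      exact (h.2.1 i).trans (hs _)

lemma getD_fs (F : List (List ℕ)) (a : ℕ) : (F.map (fs q)).getD a [] = fs q (F.getD a []) :=
  List.getD_map (f := fs q) (d := []) ..

lemma getD_bs (F : List (List ℕ)) (a : ℕ) : (F.map (bs q)).getD a [] = bs q (F.getD a []) :=
  List.getD_map (f := bs q) (d := []) ..

lemma ok_sound (h : StRun) {p : Prog} {F B : List (List ℕ)} (hk : ok w F B = true)
    (hB : ∀ t, ∀ m ∈ B.getD t [], ∀ r, Run p (gl m w r) (gl t 2 r)) {j : ℕ} (hj : j < w) :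
    ∃ i < 2, ∀ a < 4, ∃ x ∈ F.getD a [], ∀ r, FRun p 0 j (gl x w r) (gl (sw a ||| 2 ^ i) 2 r) := by
  simp only [ok, List.all_eq_true, List.any_eq_true, List.mem_range] at hk
  obtain ⟨i, hi, hk⟩ := hk j hj
  refine ⟨i, hi, fun a ha => ?_⟩
  obtain ⟨x, hx, m, hm, e⟩ := hk a ha
  refine ⟨x, hx, fun r => ⟨_, le_rfl, h.1 _ _ _ _ _ (hB _ m hm r)
    ((gl_mono e w r).trans fun n => ?_) le_rfl⟩⟩
  rcases eq_or_ne n j with rfl | c
  · simp
  · simp only [Function.update_of_ne c, gl, Nat.testBit_or, Nat.testBit_two_pow_of_ne c.symm,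
      Bool.or_false, le_refl]

lemma go_sound (h : StRun) (p : Prog) : ∀ w F B, WF p w → wid p w = 2 → go p w F = some B →
    (∀ t, ∀ m ∈ B.getD t [], ∀ r, Run p (gl m w r) (gl t 2 r)) ∧
    (∀ a < 4, ∀ x ∈ F.getD a [], ∀ r s t, s ≤ gl x w r → Run p s t → t ≤ gl (sw a) 2 r) ∧
    ∀ k ≤ p.length, ∀ j < wid (p.take k) w, ∃ i < 2, ∀ a < 4, ∃ x ∈ F.getD a [], ∀ r,
      FRun p k j (gl x w r) (gl (sw a ||| 2 ^ i) 2 r) := by
  induction p with
  | nil =>
    intro w F B _ hw e
    obtain rfl : w = 2 := hw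
    simp only [go, Bool.cond_eq_ite, Option.ite_none_right_eq_some, Option.some.injEq,
      Bool.and_eq_true, List.all_eq_true, List.mem_range] at e
    obtain ⟨⟨e1, e2⟩, rfl⟩ := e
    have a : ∀ t, ∀ m ∈ [[0], [1], [2], [3]].getD t [], ∀ r, Run [] (gl m 2 r) (gl t 2 r) := by
      intro t m hm r
      obtain rfl : m = t := by
        rcases t with _ | _ | _ | _ | t <;> simp at hm <;> omega
      exact le_rfl
    refine ⟨a, fun a ha x hx r s t hs ht => (le_trans ht hs).trans (gl_mono (e2 a ha x hx) _ _),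
      fun k hk j hj => ?_⟩
    obtain rfl : k = 0 := by simpa using hk
    exact ok_sound h e1 a hj
  | cons q p ih =>
    intro w F B ⟨hq, hw, hp⟩ e2 e
    have hv : ∀ p : Prog, wid (q :: p) w = wid p (w + no q.1 - ni q.1) := fun p => by
      simp only [wid, List.map_cons, List.sum_cons]
      omega
    simp only [go, force_eq, forceM_eq, Option.bind_eq_some_iff, Bool.cond_eq_ite,
      Option.ite_none_right_eq_some, Option.some.injEq] at e
    obtain ⟨B', e3, e1, rfl⟩ := e
    obtain ⟨a1, a2, a3⟩ := ih _ _ _ hp (hv p ▸ e2) e3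
    have a : ∀ t, ∀ m ∈ (B'.map (bs q)).getD t [], ∀ r, Run (q :: p) (gl m w r) (gl t 2 r) := by
      intro t m hm r
      obtain ⟨y, hy, c⟩ := bs_sound hq hw (getD_bs B' t ▸ hm)
      exact ⟨_, c r, a1 t y hy r⟩
    refine ⟨a, fun a ha x hx r s t hs ⟨u, u1, u2⟩ => ?_, fun k hk j hj => ?_⟩
    · obtain ⟨y, y1, y2⟩ := fs_compl hq hw hx hs u1
      exact a2 a ha y (getD_fs F a ▸ y1) r u t y2 u2
    · rcases k with _ | k
      · exact ok_sound h e1 a hj
      · obtain ⟨i, hi, c⟩ := a3 k (by simpa using hk) j (hv _ ▸ hj)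
        refine ⟨i, hi, fun a ha => ?_⟩
        obtain ⟨y, y1, y2⟩ := c a ha
        obtain ⟨x, x1, x2⟩ := fs_sound hq hw (getD_fs F a ▸ y1)
        refine ⟨x, x1, fun r => ?_⟩
        obtain ⟨u, u1, u2⟩ := y2 r
        exact ⟨u, ⟨_, x2 r, u1⟩, u2⟩

/-- test for `WF` -/
def wf : Prog → ℕ → Bool
  | [], _ => true
  | q :: p, w => decide (q.1 < 6) && decide (q.2 + ni q.1 ≤ w) &&
      force (w + no q.1 - ni q.1) fun w' => wf p w'

lemma wf_sound (p : Prog) : ∀ w, wf p w = true → WF p w := by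
  induction p with
  | nil => exact fun _ _ => trivial
  | cons q p ih =>
    intro w h
    simp only [wf, force_eq, Bool.and_eq_true, decide_eq_true_eq] at h
    exact ⟨h.1.1, h.1.2, ih _ h.2⟩

lemma go_usw : go usw 2 [[0], [1], [2], [3]] = some [[0], [2], [1], [3]] := by decide +kernel

lemma wf_usw : wf usw 2 = true := by decide +kernel

lemma wid_usw : wid usw 2 = 2 := by decide +kernel

lemma exists_gl (s : St) : ∃ a < 4, ∃ r, s = gl a 2 r ∧ s ∘ Equiv.swap 0 1 = gl (sw a) 2 r := by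
  refine ⟨(s 0).toNat + 2 * (s 1).toNat, by cases s 0 <;> cases s 1 <;> decide,
    fun i => s (i + 2), funext fun i => ?_, funext fun i => ?_⟩ <;> rcases i with _ | _ | i
  · rw [gl_lt (by decide)]; cases s 0 <;> cases s 1 <;> decide
  · rw [gl_lt (by decide)]; cases s 1 <;> cases s 0 <;> decide
  · simp [gl]
  · rw [gl_lt (by decide), Function.comp_apply, Equiv.swap_apply_left]
    cases s 0 <;> cases s 1 <;> decide
  · rw [gl_lt (by decide), Function.comp_apply, zero_add, Equiv.swap_apply_right]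
    cases s 0 <;> cases s 1 <;> decide
  · rw [Function.comp_apply, Equiv.swap_apply_of_ne_of_ne (by omega) (by omega)]
    simp [gl]

end UswAux

open UswAux in
theorem usw_thm (h : StRun) : StUsw := by
  obtain ⟨a1, a2, a3⟩ := go_sound h usw 2 _ _ (wf_sound _ _ wf_usw) wid_usw go_usw
  have m1 : ∀ a < 4, a ∈ [[0], [1], [2], [3]].getD a [] := by decide
  have m2 : ∀ a < 4, a ∈ [[0], [2], [1], [3]].getD (sw a) [] := by decide
  have m3 : ∀ a < 4, ∀ x ∈ [[0], [1], [2], [3]].getD a [], x = a := by decide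
  refine ⟨⟨wf_sound _ _ wf_usw, fun s t => ?_, fun k hk j hj => ?_⟩, wid_usw⟩
  · obtain ⟨a, ha, r, e1, e2⟩ := exists_gl s
    dsimp only
    rw [e2]
    exact ⟨a2 a ha a (m1 a ha) r s t e1.le, fun e => h.1 _ _ _ _ _ (a1 _ a (m2 a ha) r) e1.ge e⟩
  · obtain ⟨i, hi, c⟩ := a3 k hk j hj
    refine ⟨i, hi.trans_eq wid_usw.symm, fun s => ?_⟩
    obtain ⟨a, ha, r, e1, e2⟩ := exists_gl s
    obtain ⟨x, x1, x2⟩ := c a ha
    obtain rfl := m3 a ha x x1
    obtain ⟨u, u1, u2⟩ := x2 r
    refine ⟨u, e1 ▸ u1, h.1 _ _ _ _ _ u2 le_rfl fun n => ?_⟩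
    dsimp only
    rw [e2]
    rcases eq_or_ne n i with rfl | c
    · simp [gl, hi]
    · simp only [Function.update_of_ne c, gl, Nat.testBit_or, Nat.testBit_two_pow_of_ne c.symm,
        Bool.or_false, le_refl]

end Pool.Agent.Lib.MP_ae8a84_co.DP
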