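import Pool.Agent.Lib.MP_ae8a84_co.DP.Hard
import Pool.Agent.Lib.MP_ae8a84_co.DP.Sound
import Pool.Agent.Lib.MP_ae8a84_co.DP.Del
import Pool.Agent.Lib.MP_ae8a84_co.DP.Mat
import Pool.Agent.Lib.MP_ae8a84_co.DP.Run
import Pool.Agent.Lib.MP_ae8a84_co.DP.Frame
import Pool.Agent.Lib.MP_ae8a84_co.DP.Usw
import Pool.Agent.Lib.MP_ae8a84_co.DP.Feed
import Pool.Agent.Lib.MP_ae8a84_co.DP.Good
import Pool.Agent.Lib.MP_ae8a84_co.DP.Both
import Pool.Agent.Lib.MP_ae8a84_co.DP.ToProg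
import Pool.Agent.Lib.MP_ae8a84_co.DP.OfProg
import Pool.Agent.Lib.MP_ae8a84_co.DP.Mid
import Pool.Agent.Lib.MP_ae8a84_co.DP.Prog
import Pool.Agent.Lib.MP_ae8a84_co.DP.Cols
import Pool.Agent.Lib.MP_ae8a84_co.DP.PW
import Pool.Agent.Lib.MP_ae8a84_co.DP.Mem

namespace Pool.Agent.Lib.MP_ae8a84_co.DP

open Pool.Agent.Lib.MP_ae8a84_co.NP (ofMatrix Rect)
open Pool.Agent.Shared.CookLevin Pool.Agent.Shared.PolyTime

/-- The bigraph attached to a formula is a minimal obstruction iff the formula is minimally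
unsatisfiable. -/
theorem fmat_iff (φ : List (List (Bool × ℕ))) :
    Rect (fmat φ) ∧ (ofMatrix (fmat φ)).TwoFerrers ∧ ((ofMatrix (fmat φ)).MinForb ↔ MU φ) := by
  have r := run_thm.1
  have f := frame_thm r
  have g := feed_thm r run_thm.2 f (usw_thm r)
  exact fmat_spec (graph_thm sound_thm del_thm.2 del_thm.1 mat_thm) (good_thm r).1 (good_thm r).2
    (both_thm r) (toProg_thm r) (ofProg_thm r) (prog_thm r (mid_thm r run_thm.2 f g.1 g.2))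
    cols_thm φ

theorem mem_dp : ∃ A ∈ N68a2faeb.NP, ∃ B ∈ N68a2faeb.NP, ∀ M : List (List Bool),
    (ofMatrix M).MinForb ↔
      A (N487b59b3.bitEncode M) = true ∧ B (N487b59b3.bitEncode M) = false := by
  obtain ⟨A, hA, a⟩ := mem_thm
  obtain ⟨B, hB, b⟩ := NP.mem_np
  refine ⟨A, hA, B, hB, fun M => ?_⟩
  rw [a, ← Bool.not_eq_true, b]
  exact and_comm

theorem hard_dp {A B : List Bool → Bool} (hA : A ∈ N68a2faeb.NP) (hB : B ∈ N68a2faeb.NP) :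
    ∃ f : List Bool → List (List Bool), PT f ∧ ∀ x, Rect (f x) ∧ (ofMatrix (f x)).TwoFerrers ∧
      ((ofMatrix (f x)).MinForb ↔ A x = true ∧ B x = false) := by
  obtain ⟨ψ, h1, h2⟩ := cook_levin_e3 hA
  obtain ⟨χ, h3, h4⟩ := cook_levin_e3 hB
  refine ⟨fun x => fmat (pw (ψ x) (χ x)), fmat_pt (pw_pt h1 h3), fun x => ?_⟩
  obtain ⟨a, b, c⟩ := fmat_iff (pw (ψ x) (χ x))
  refine ⟨a, b, c.trans ((pw_thm _ _ (h2 x).1 (h4 x).1).trans ?_)⟩
  rw [← (h2 x).2.2, ← (h4 x).2.2, Bool.not_eq_true]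

end Pool.Agent.Lib.MP_ae8a84_co.DP
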