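import Pool.Agent.Lib.MP_ae8a84_co.DP.MU
import Pool.Agent.Lib.MP_ae8a84_co.NP.Mem

/-!
Definitions and statements for the embedding of the minimally unsatisfiable formulas into the list
of minimal forbidden induced subgraphs.
-/

namespace Pool.Agent.Lib.MP_ae8a84_co.DP

open Pool.Agent.Lib.MP_ae8a84_co.NP (Cl Leg ofMatrix Rect)
open Pool.Agent.Shared.CookLevin (E3 Sat3 Distinct3)

/-! ### the bigraph of a two-page monotone formula -/

/-- a vertex `(lo, hi)`; clause points have `hi < lo` -/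
abbrev V := ℕ × ℕ

/-- adjacency -/
def adj (d e : V) : Bool := decide (e.1 ≤ d.2) && decide (d.1 ≤ e.2)

/-- the point of a clause -/
def pnt (C : Cl) : V := (8 * C.2.2 + 1, 8 * C.1 - 1)

/-- the top segment of a clause -/
def top (C : Cl) : V := (8 * C.1 - 1, 8 * C.2.2 + 1)

/-- no clause of the page ends where `C` starts -/
def freeL (P : List Cl) (C : Cl) : Bool := P.all fun D => D.2.2 != C.1

/-- no clause of the page starts where `C` ends -/
def freeR (P : List Cl) (C : Cl) : Bool := P.all fun D => D.1 != C.2.2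

/-- vertices owned by `C` on the side of its segments -/
def segs (P : List Cl) (C : Cl) : List V :=
  [top C, (8 * C.2.1, 8 * C.2.2), if C.1 < C.2.1 then (8 * C.1, 8 * C.2.1) else top C,
    cond (freeL P C) (8 * C.1 - 3, 8 * C.1) (top C),
    cond (freeR P C) (8 * C.2.2, 8 * C.2.2 + 3) (top C)]

/-- vertices owned by `C` on the side of its point -/
def pts (P : List Cl) (C : Cl) : List V :=
  [pnt C, cond (freeL P C) (8 * C.1 - 3, 8 * C.1 - 2) (pnt C),
    cond (freeR P C) (8 * C.2.2 + 2, 8 * C.2.2 + 3) (pnt C)]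

/-- one part of the bigraph -/
def verts (P N : List Cl) : List V := (P.flatMap (pts P) ++ N.flatMap (segs N)).dedup

/-- `C` lies strictly inside a gap of `D` -/
def Inside (C D : Cl) : Prop := (D.1 < C.1 ∧ C.2.2 < D.2.1) ∨ (D.2.1 < C.1 ∧ C.2.2 < D.2.2)

/-- normal form of a page -/
structure Good (P : List Cl) : Prop where
  wf : ∀ C ∈ P, 1 ≤ C.1 ∧ C.1 ≤ C.2.1 ∧ C.2.1 < C.2.2
  lam : ∀ C ∈ P, ∀ D ∈ P, C ≠ D → C.2.2 ≤ D.1 ∨ D.2.2 ≤ C.1 ∨ Inside C D ∨ Inside D C
  fr : ∀ C ∈ P, freeL P C = true ∨ freeR P C = true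

/-- every leg on the first page is a leg on the second page -/
def Both (P N : List Cl) : Prop := ∀ C ∈ P, ∀ t, Leg C t → ∃ D ∈ N, Leg D t

/-- the selected clauses can be satisfied -/
def SatX (P N : List Cl) (A B : Cl → Prop) : Prop :=
  ∃ τ : ℕ → Bool, (∀ C ∈ P, A C → ∃ t, Leg C t ∧ τ t = true) ∧
    ∀ C ∈ N, B C → ∃ t, Leg C t ∧ τ t = false

/-- minimally unsatisfiable two-page formulas -/
def MU2 (P N : List Cl) : Prop :=
  ¬ SatX P N (fun _ => True) (fun _ => True) ∧
    (∀ C ∈ P, SatX P N (fun D => D ≠ C) fun _ => True) ∧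
    ∀ C ∈ N, SatX P N (fun _ => True) fun D => D ≠ C

/-- interval representation of the subgraph on `A` and `B` -/
def Rep (A B : Set V) : Prop :=
  ∃ l r l' r' : V → ℝ, (∀ d, l d ≤ r d) ∧ (∀ d, l' d ≤ r' d) ∧
    ∀ d ∈ A, ∀ e ∈ B, (adj d e = true ↔ l' e ≤ r d ∧ l d ≤ r' e)

/-- the biadjacency matrix -/
def mat (X Y : List V) : List (List Bool) := X.map fun d => Y.map fun e => adj d e

def StSound : Prop := ∀ (P N : List Cl) (A B : Set V), Good P → Good N → Both P N → Both N P →
  Rep A B → (∀ d ∈ verts P N, d.1 ≤ d.2 → d ∈ A) → (∀ e ∈ verts N P, e.1 ≤ e.2 → e ∈ B) →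
  SatX P N (fun C => pnt C ∈ A) fun C => pnt C ∈ B

def StDel : Prop := ∀ P N : List Cl, Good P → Good N → ∀ C ∈ P,
  SatX P N (fun D => D ≠ C) (fun _ => True) →
  (∀ d ∈ pts P C, Rep {x | x ∈ verts P N ∧ x ≠ d} {y | y ∈ verts N P}) ∧
    ∀ e ∈ segs P C, Rep {x | x ∈ verts P N} {y | y ∈ verts N P ∧ y ≠ e}

def StFull : Prop := ∀ P N : List Cl, Good P → Good N →
  SatX P N (fun _ => True) (fun _ => True) → Rep {x | x ∈ verts P N} {y | y ∈ verts N P}

def StMat : Prop := ∀ X Y : List V, X ≠ [] → X.Nodup → Y.Nodup →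
  Rect (mat X Y) ∧ (ofMatrix (mat X Y)).TwoFerrers ∧ ((ofMatrix (mat X Y)).MinForb ↔
    ¬ Rep {x | x ∈ X} {y | y ∈ Y} ∧ (∀ d ∈ X, Rep {x | x ∈ X ∧ x ≠ d} {y | y ∈ Y}) ∧
      ∀ e ∈ Y, Rep {x | x ∈ X} {y | y ∈ Y ∧ y ≠ e})

def StGraph : Prop := ∀ P N : List Cl, Good P → Good N → Both P N → Both N P → P ≠ [] →
  Rect (mat (verts P N) (verts N P)) ∧ (ofMatrix (mat (verts P N) (verts N P))).TwoFerrers ∧
    ((ofMatrix (mat (verts P N) (verts N P))).MinForb ↔ MU2 P N)

/-! ### planar programs of monotone gates -/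

/-- programs: lists of pairs (gate, position); gates `0` source, `1` need, `2` or, `3` and,
`4` dup, `5` split -/
abbrev Prog := List (ℕ × ℕ)

/-- values on the wires -/
abbrev St := ℕ → Bool

/-- local times of the input ports -/
def ins (g : ℕ) : List ℕ := ([[], [0, 1], [0, 1], [0, 2], [2], [0]] : List (List ℕ)).getD g []

/-- local times of the output ports -/
def outs (g : ℕ) : List ℕ := ([[0, 1], [], [3], [0], [0, 2], [2, 3]] : List (List ℕ)).getD g []

/-- local positive clauses -/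
def lp (g : ℕ) : List Cl :=
  ([[], [(0, 0, 1)], [(0, 1, 2)], [(1, 1, 2)], [(1, 1, 2)], [(0, 0, 1)]] : List (List Cl)).getD g []

/-- local negative clauses -/
def ln (g : ℕ) : List Cl :=
  ([[(0, 0, 1)], [], [(2, 2, 3)], [(0, 0, 1)], [(0, 0, 1)], [(1, 2, 3)]] : List (List Cl)).getD g []

/-- number of inputs -/
def ni (g : ℕ) : ℕ := (ins g).length

/-- number of outputs -/
def no (g : ℕ) : ℕ := (outs g).length

/-- the relation between the inputs `a, b` and the outputs `c, d` of a gate -/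
def rel (g : ℕ) (a b c d : Bool) : Bool :=
  ([!(c && d), a || b, !c || a || b, !c || a && b, !(c || d) || a, !(c && d) || a] :
    List Bool).getD g false

/-- one gate; values may drop along wires -/
def Step (q : ℕ × ℕ) (s t : St) : Prop :=
  (∀ i < q.2, t i ≤ s i) ∧ (∀ i, t (q.2 + no q.1 + i) ≤ s (q.2 + ni q.1 + i)) ∧
    rel q.1 (s q.2) (s (q.2 + 1)) (t q.2) (t (q.2 + 1)) = true

/-- runs -/
def Run : Prog → St → St → Prop
  | [], s, t => t ≤ s
  | q :: p, s, t => ∃ u, Step q s u ∧ Run p u t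

/-- width after the program -/
def wid (p : Prog) (w : ℕ) : ℕ := w + (p.map fun q => no q.1).sum - (p.map fun q => ni q.1).sum

/-- the gates only use existing wires -/
def WF : Prog → ℕ → Prop
  | [], _ => True
  | q :: p, w => q.1 < 6 ∧ q.2 + ni q.1 ≤ w ∧ WF p (w + no q.1 - ni q.1)

/-- runs in which the wire `j` is raised after `k` gates -/
def FRun (p : Prog) (k j : ℕ) (s t : St) : Prop :=
  ∃ u, Run (p.take k) s u ∧ Run (p.drop k) (Function.update u j true) t

/-- the program computes `act`, and every fault raises one output for all inputs -/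
def Tight (p : Prog) (w : ℕ) (act : St → St) : Prop :=
  WF p w ∧ (∀ s t, Run p s t ↔ t ≤ act s) ∧ ∀ k ≤ p.length, ∀ j < wid (p.take k) w,
    ∃ i < wid p w, ∀ s, FRun p k j s (Function.update (act s) i true)

/-- minimally unsatisfiable programs -/
def MUP (p : Prog) : Prop :=
  ¬ Run p (fun _ => false) (fun _ => false) ∧ ∀ k ≤ p.length, ∀ j < wid (p.take k) 0,
    FRun p k j (fun _ => false) fun _ => false

/-- move a program to the right -/
def shift (j : ℕ) (p : Prog) : Prog := p.map fun q => (q.1, j + q.2)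

/-- the action of a moved program -/
def frame (j : ℕ) (act : St → St) (s : St) : St :=
  fun i => if i < j then s i else act (fun x => s (j + x)) (i - j)

def StRun : Prop :=
  (∀ p s s' t t', Run p s t → s ≤ s' → t' ≤ t → Run p s' t') ∧
  (∀ p q s t, Run (p ++ q) s t ↔ ∃ u, Run p s u ∧ Run q u t) ∧
  (∀ p q w, WF (p ++ q) w ↔ WF p w ∧ WF q (wid p w)) ∧
  (∀ p q w, WF p w → wid (p ++ q) w = wid q (wid p w)) ∧
  ∀ p w, WF p w → wid p w ≤ w + 2 * p.length

def StComp : Prop := (∀ w, Tight [] w id) ∧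
  ∀ p q w f g, Tight p w f → Tight q (wid p w) g → Tight (p ++ q) w (g ∘ f)

def StFrame : Prop := ∀ p w act j W, Tight p w act → j + w ≤ W →
  Tight (shift j p) W (frame j act) ∧ wid (shift j p) W + w = W + wid p w

/-- basic crossover -/
def bsw : Prog :=
  [(4, 1), (4, 0), (3, 1), (0, 0), (3, 1), (2, 1), (5, 1), (4, 2), (1, 3), (4, 1), (3, 2), (3, 0)]

/-- encoder of a wire into four rails -/
def enc : Prog := [(4, 0), (5, 1), (5, 0)]

/-- decoder -/
def dec : Prog := [(3, 2), (3, 0), (2, 0)]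

/-- crossover in which every wire is critical -/
def usw : Prog := shift 1 enc ++ enc ++
  ([3, 4, 5, 6, 2, 3, 4, 5, 1, 2, 3, 4, 0, 1, 2, 3].flatMap fun j => shift j bsw) ++
  shift 4 dec ++ dec

def StUsw : Prop := Tight usw 2 (fun s => s ∘ Equiv.swap 0 1) ∧ wid usw 2 = 2

def StGates : Prop :=
  Tight [(0, 0), (3, 0)] 0 (fun s i => if i = 0 then false else s (i - 1)) ∧
  Tight [(4, 0)] 1 (fun s i => s (i - 1)) ∧
  Tight [(2, 0)] 2 fun s i => if i = 0 then s 0 || s 1 else s (i + 1)

/-! ### compilation of programs -/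

/-- time of a port, relative to the start of the layer -/
def port (L : List ℕ) (j i : ℕ) : ℕ :=
  if i < j then 4 * i else if i < j + L.length then 4 * j + L.getD (i - j) 0
  else 4 * (i - L.length + 1)

/-- start of a layer -/
def base (n k : ℕ) : ℕ := 1 + k * (10 * n + 4)

/-- middle of a wire -/
def mT (n k i : ℕ) : ℕ := base n k + 4 * (2 * n + 1) + (2 * n - 1 - i)

/-- translation of a clause -/
def mv (o : ℕ) (C : Cl) : Cl := (o + C.1, o + C.2.1, o + C.2.2)

/-- a clause with two legs -/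
def arc (a c : ℕ) : Cl := (a, a, c)

/-- the positive page -/
def pgP (p : Prog) : List Cl := p.zipIdx.flatMap fun q =>
  (lp q.1.1).map (mv (base p.length q.2 + 4 * q.1.2)) ++
    (List.range (wid (p.take (q.2 + 1)) 0)).map fun i =>
      arc (base p.length q.2 + port (outs q.1.1) q.1.2 i) (mT p.length q.2 i)

/-- the negative page -/
def pgN (p : Prog) : List Cl := p.zipIdx.flatMap fun q =>
  (ln q.1.1).map (mv (base p.length q.2 + 4 * q.1.2)) ++
    (List.range (wid (p.take q.2) 0)).map fun i =>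
      arc (mT p.length (q.2 - 1) i) (base p.length q.2 + port (ins q.1.1) q.1.2 i)

def StGoodP : Prop := ∀ p, WF p 0 → Good (pgP p)

def StGoodN : Prop := ∀ p, WF p 0 → Good (pgN p)

def StBoth : Prop := ∀ p, WF p 0 → wid p 0 = 0 →
  Both (pgP p) (pgN p) ∧ Both (pgN p) (pgP p) ∧ (p ≠ [] → pgP p ≠ [])

def StToProg : Prop := ∀ p, WF p 0 → wid p 0 = 0 →
  (SatX (pgP p) (pgN p) (fun _ => True) (fun _ => True) → Run p (fun _ => false) fun _ => false) ∧
  (MU2 (pgP p) (pgN p) → ∀ k ≤ p.length, ∀ j < wid (p.take k) 0,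
    FRun p k j (fun _ => false) fun _ => false)

def StOfProg : Prop := ∀ p, WF p 0 → wid p 0 = 0 →
  (Run p (fun _ => false) (fun _ => false) → SatX (pgP p) (pgN p) (fun _ => True) fun _ => True) ∧
  (MUP p → (∀ C ∈ pgP p, SatX (pgP p) (pgN p) (fun D => D ≠ C) fun _ => True) ∧
    ∀ C ∈ pgN p, SatX (pgP p) (pgN p) (fun _ => True) fun D => D ≠ C)

/-! ### programs for formulas -/

/-- move the wire `a + d` to the position `a` -/
def down (a d : ℕ) : Prog := (List.range d).reverse.flatMap fun x => shift (a + x) usw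

/-- add the column `c` to the accumulator `i`, and keep the column -/
def feed (m i c : ℕ) : Prog := (4, m + c) :: down (i + 1) (m + c - (i + 1)) ++ [(2, i)]

/-- add the first column to the accumulator `i`, and remove the column -/
def last (m i : ℕ) : Prog := down (i + 1) (m - (i + 1)) ++ [(2, i)]

/-- the middle part: accumulators, taps, and removal of the columns -/
def mid (φ : List (List ℕ)) (n : ℕ) : Prog :=
  (List.replicate φ.length [(0, 0), (3, 0)]).flatten ++
    (φ.zipIdx.flatMap fun q => q.1.flatMap fun c => feed φ.length q.2 c) ++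
    (List.range (2 * n)).flatMap fun c => last φ.length (φ.findIdx fun C => decide (c ∈ C))

/-- the program of a formula on the columns `c < 2 * n` -/
def prog (φ : List (List ℕ)) (n : ℕ) : Prog :=
  List.replicate n (0, 0) ++ mid φ n ++ (List.replicate φ.length [(4, 0), (1, 0)]).flatten

/-- the columns are used, and only they -/
def Cols (φ : List (List ℕ)) (n : ℕ) : Prop :=
  (∀ C ∈ φ, ∀ c ∈ C, c < 2 * n) ∧ ∀ c < 2 * n, ∃ C ∈ φ, c ∈ C

/-- the selected clauses of a column formula can be satisfied -/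
def SatC (φ : List (List ℕ)) (n : ℕ) (A : ℕ → Prop) : Prop :=
  ∃ s : St, (∀ v < n, (s (2 * v) && s (2 * v + 1)) = false) ∧
    ∀ i < φ.length, A i → ∃ c ∈ φ.getD i [], s c = true

def StFeed : Prop := ∀ m i c W, i < m → m + c < W →
  (Tight (feed m i c) W (fun s => Function.update s i (s i || s (m + c))) ∧
    wid (feed m i c) W = W) ∧
  Tight (last m i) W (fun s x => if x = i then s i || s m else if x < m then s x else s (x + 1)) ∧
    wid (last m i) W + 1 = W

def StMid : Prop := ∀ φ n, Cols φ n → wid (mid φ n) (2 * n) = φ.length ∧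
  Tight (mid φ n) (2 * n) fun s i =>
    if i < φ.length then (φ.getD i []).any s else s (2 * n + (i - φ.length))

def StProg : Prop := ∀ φ n, Cols φ n → WF (prog φ n) 0 ∧ wid (prog φ n) 0 = 0 ∧
  (MUP (prog φ n) ↔ ¬ SatC φ n (fun _ => True) ∧ ∀ i < φ.length, SatC φ n fun j => j ≠ i)

/-- variables of a formula -/
def vs (φ : List (List (Bool × ℕ))) : List ℕ := (φ.flatMap fun C => C.map fun l => l.2).dedup

/-- the column formula -/
def cols (φ : List (List (Bool × ℕ))) : List (List ℕ) :=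
  φ.dedup.map fun C => C.map fun l => 2 * (vs φ).idxOf l.2 + l.1.toNat

/-- no pure literals -/
def noPure (φ : List (List (Bool × ℕ))) : Bool :=
  (vs φ).all fun v => (φ.any fun C => decide ((true, v) ∈ C)) && φ.any fun C => decide ((false, v) ∈ C)

def StCols : Prop := ∀ φ, (MU φ → noPure φ = true ∧ φ ≠ []) ∧ (noPure φ = true →
  Cols (cols φ) (vs φ).length ∧ (MU φ ↔ ¬ SatC (cols φ) (vs φ).length (fun _ => True) ∧
    ∀ i < (cols φ).length, SatC (cols φ) (vs φ).length fun j => j ≠ i))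

/-! ### the formulas of Papadimitriou and Wolfe -/

/-- the alarms different from `i` -/
def others (m i : ℕ) : List (Bool × ℕ) :=
  ((List.range m).filter fun j => j != i).map fun j => (true, 2 * j + 2)

/-- satisfiable iff `ψ` is, and satisfiable after the removal of any clause -/
def alarm (ψ : E3 ℕ) : List (List (Bool × ℕ)) :=
  (ψ.zipIdx.flatMap fun q =>
    [(q.1.1.1, 2 * q.1.1.2 + 1) :: (q.1.2.1.1, 2 * q.1.2.1.2 + 1) ::
        (q.1.2.2.1, 2 * q.1.2.2.2 + 1) :: others ψ.length q.2,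
      (false, 2 * q.2 + 2) :: (!q.1.1.1, 2 * q.1.1.2 + 1) :: others ψ.length q.2,
      (false, 2 * q.2 + 2) :: (!q.1.2.1.1, 2 * q.1.2.1.2 + 1) :: others ψ.length q.2,
      (false, 2 * q.2 + 2) :: (!q.1.2.2.1, 2 * q.1.2.2.2 + 1) :: others ψ.length q.2]) ++
    (List.range ψ.length).flatMap fun i => (List.range i).map fun j =>
      [(false, 2 * i + 2), (false, 2 * j + 2)]

/-- minimally unsatisfiable iff `ψ` is satisfiable and `χ` is not -/
def pw (ψ χ : E3 ℕ) : List (List (Bool × ℕ)) :=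
  (others ψ.length ψ.length :: alarm ψ).map (fun C => (true, 0) :: C) ++
    (alarm χ).map fun C => (false, 0) :: C

def StPW : Prop := ∀ ψ χ : E3 ℕ, Distinct3 ψ → Distinct3 χ → (MU (pw ψ χ) ↔ Sat3 ψ ∧ ¬ Sat3 χ)

def StMem : Prop := ∃ L ∈ N68a2faeb.NP, ∀ M : List (List Bool),
  L (N487b59b3.bitEncode M) = true ↔
    ∀ S T, ¬ (S = Set.univ ∧ T = Set.univ) → (ofMatrix M).IntervalOn S T

end Pool.Agent.Lib.MP_ae8a84_co.DP
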