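import Pool.Agent.Lib.MP_ae8a84_co.DP.Defs

namespace Pool.Agent.Lib.MP_ae8a84_co.DP

open Pool.Agent.Lib.MP_ae8a84_co.NP (Cl Leg ofMatrix Rect)

theorem adj_comm (d e : V) : adj d e = adj e d := Bool.and_comm _ _

theorem Rep.swap {A B : Set V} (h : Rep A B) : Rep B A := by
  obtain ⟨l, r, l', r', h1, h2, h3⟩ := h
  exact ⟨l', r', l, r, h2, h1, fun d hd e he => by rw [adj_comm, h3 e he d hd, and_comm]⟩

theorem SatX.swap {P N : List Cl} {A B : Cl → Prop} (h : SatX P N A B) : SatX N P B A := by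
  obtain ⟨τ, h1, h2⟩ := h
  refine ⟨fun t => !τ t, fun C hC hB => ?_, fun C hC hA => ?_⟩
  · obtain ⟨t, a, b⟩ := h2 C hC hB
    exact ⟨t, a, by simp [b]⟩
  · obtain ⟨t, a, b⟩ := h1 C hC hA
    exact ⟨t, a, by simp [b]⟩

theorem SatX.mono {P N : List Cl} {A B A' B' : Cl → Prop} (h : SatX P N A B)
    (a : ∀ C ∈ P, A' C → A C) (b : ∀ C ∈ N, B' C → B C) : SatX P N A' B' := by
  obtain ⟨τ, h1, h2⟩ := h
  exact ⟨τ, fun C hC h => h1 C hC (a C hC h), fun C hC h => h2 C hC (b C hC h)⟩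

theorem mem_verts {P N : List Cl} {d : V} :
    d ∈ verts P N ↔ (∃ C ∈ P, d ∈ pts P C) ∨ ∃ C ∈ N, d ∈ segs N C := by
  simp only [verts, List.mem_dedup, List.mem_append, List.mem_flatMap]

theorem pnt_mem {P N : List Cl} {C : Cl} (h : C ∈ P) : pnt C ∈ verts P N :=
  mem_verts.2 (Or.inl ⟨C, h, List.mem_cons_self⟩)

theorem pnt_ne {P : List Cl} (hP : Good P) {C D : Cl} (hC : C ∈ P) (hD : D ∈ P) (h : D ≠ C) :
    pnt D ≠ pnt C := by
  intro e
  have e1 := congrArg Prod.fst e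
  have e2 := congrArg Prod.snd e
  have := hP.wf C hC
  have := hP.wf D hD
  have := hP.lam D hD C hC h
  simp only [pnt, Inside] at *
  omega

theorem half (h1 : StSound) {P N : List Cl} (hP : Good P) (hN : Good N) (b1 : Both P N)
    (b2 : Both N P) {C : Cl} (hC : C ∈ P)
    (h : Rep {x | x ∈ verts P N ∧ x ≠ pnt C} {y | y ∈ verts N P}) :
    SatX P N (fun D => D ≠ C) fun _ => True := by
  refine (h1 P N _ _ hP hN b1 b2 h (fun d hd hl => ⟨hd, ?_⟩) fun e he _ => he).mono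
    (fun D hD e => ⟨pnt_mem hD, pnt_ne hP hC hD e⟩) fun D hD _ => pnt_mem hD
  rintro rfl
  have := hP.wf C hC
  simp only [pnt] at hl
  omega

theorem dels (h2 : StDel) {P N : List Cl} (hP : Good P) (hN : Good N)
    (a : ∀ C ∈ P, SatX P N (fun D => D ≠ C) fun _ => True)
    (b : ∀ C ∈ N, SatX P N (fun _ => True) fun D => D ≠ C) :
    ∀ d ∈ verts P N, Rep {x | x ∈ verts P N ∧ x ≠ d} {y | y ∈ verts N P} := by
  intro d hd
  rcases mem_verts.1 hd with ⟨C, hC, h⟩ | ⟨C, hC, h⟩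
  · exact (h2 P N hP hN C hC (a C hC)).1 d h
  · exact ((h2 N P hN hP C hC (b C hC).swap).2 d h).swap

theorem graph_thm (h1 : StSound) (h2 : StDel) (h3 : StFull) (h4 : StMat) : StGraph := by
  intro P N hP hN b1 b2 hne
  obtain ⟨C0, hC0⟩ := List.exists_mem_of_ne_nil P hne
  obtain ⟨m1, m2, m3⟩ := h4 (verts P N) (verts N P) (List.ne_nil_of_mem (pnt_mem hC0))
    (List.nodup_dedup _) (List.nodup_dedup _)
  refine ⟨m1, m2, m3.trans ⟨fun ⟨a, b, c⟩ => ⟨fun h => a (h3 P N hP hN h),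
    fun C hC => half h1 hP hN b1 b2 hC (b _ (pnt_mem hC)),
    fun C hC => (half h1 hN hP b2 b1 hC (c _ (pnt_mem hC)).swap).swap⟩, fun ⟨a, b, c⟩ =>
    ⟨fun h => a ((h1 P N _ _ hP hN b1 b2 h (fun _ hd _ => hd) fun _ he _ => he).mono
      (fun _ hD _ => pnt_mem hD) fun _ hD _ => pnt_mem hD), dels h2 hP hN b c, fun e he =>
      (dels h2 hN hP (fun C hC => (c C hC).swap) (fun C hC => (b C hC).swap) e he).swap⟩⟩⟩

end Pool.Agent.Lib.MP_ae8a84_co.DP
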