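import Pool.Agent.Lib.MP_ae8a84_co.DP.Graph

namespace Pool.Agent.Lib.MP_ae8a84_co.DP

open Pool.Agent.Lib.MP_ae8a84_co.NP (Cl Leg ofMatrix Rect)
open Pool.Agent.Shared.CookLevin Pool.Agent.Shared.PolyTime

/-- the matrix of a program -/
def pmat (p : Prog) : List (List Bool) := mat (verts (pgP p) (pgN p)) (verts (pgN p) (pgP p))

/-- the program of a formula, with truncated column numbers -/
def prog' (φ : List (List ℕ)) (n : ℕ) : Prog :=
  List.replicate n (0, 0) ++ ((List.replicate φ.length [(0, 0), (3, 0)]).flatten ++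
    (φ.zipIdx.flatMap fun q => q.1.flatMap fun c => feed φ.length q.2 (min c (2 * n))) ++
    (List.range (2 * n)).flatMap fun c => last φ.length (φ.findIdx fun C => decide (c ∈ C))) ++
    (List.replicate φ.length [(4, 0), (1, 0)]).flatten

theorem prog'_eq {φ : List (List ℕ)} {n : ℕ} (h : Cols φ n) : prog' φ n = prog φ n := by
  unfold prog' prog mid
  congr 4
  refine List.flatMap_congr fun q hq => List.flatMap_congr fun c hc => ?_
  rw [min_eq_left (h.1 q.1 (List.fst_mem_of_mem_zipIdx hq) c hc).le]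

/-- the matrix of a formula -/
def fmat (φ : List (List (Bool × ℕ))) : List (List Bool) :=
  cond (noPure φ && !φ.isEmpty) (pmat (prog' (cols φ) (vs φ).length)) []

section
variable {α : Type} [N487b59b3 α]

@[fun_prop] theorem ins_pt {g : α → ℕ} (h : PT g) : PT fun a => ins (g a) := by
  unfold ins; fun_prop

@[fun_prop] theorem outs_pt {g : α → ℕ} (h : PT g) : PT fun a => outs (g a) := by
  unfold outs; fun_prop

@[fun_prop] theorem lp_pt {g : α → ℕ} (h : PT g) : PT fun a => lp (g a) := by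
  unfold lp; fun_prop

@[fun_prop] theorem ln_pt {g : α → ℕ} (h : PT g) : PT fun a => ln (g a) := by
  unfold ln; fun_prop

@[fun_prop] theorem wid_pt {p : α → Prog} (h : PT p) : PT fun a => wid (p a) 0 := by
  unfold wid ni no; fun_prop

theorem no_le (g : ℕ) : no g ≤ 2 := by
  match g with
  | 0 | 1 | 2 | 3 | 4 | 5 => decide
  | _ + 6 => exact Nat.zero_le _

theorem wid_le (p : Prog) : wid p 0 ≤ 2 * p.length := by
  have : (p.map fun q => no q.1).sum ≤ 2 * p.length := by
    induction p with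
    | nil => simp
    | cons q p ih =>
      have := no_le q.1
      simp only [List.map_cons, List.sum_cons, List.length_cons]
      omega
  unfold wid
  omega

@[fun_prop] theorem wid_pb {p : α → Prog} (h : PT p) : PB fun a => wid (p a) 0 :=
  PB.mono (g := fun a => 2 * (p a).length) (by fun_prop) fun a => wid_le (p a)

@[fun_prop] theorem port_pt {L : α → List ℕ} {j i : α → ℕ} (hL : PT L) (hj : PT j) (hi : PT i) :
    PT fun a => port (L a) (j a) (i a) := by unfold port; fun_prop

theorem pgP_pt {p : α → Prog} (h : PT p) : PT fun a => pgP (p a) := by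
  unfold pgP mv arc mT base; fun_prop

theorem pgN_pt {p : α → Prog} (h : PT p) : PT fun a => pgN (p a) := by
  unfold pgN mv arc mT base; fun_prop

theorem verts_pt {P N : α → List Cl} (hP : PT P) (hN : PT N) :
    PT fun a => verts (P a) (N a) := by
  unfold verts pts segs freeL freeR pnt top; fun_prop

theorem mat_pt {X Y : α → List V} (hX : PT X) (hY : PT Y) : PT fun a => mat (X a) (Y a) := by
  unfold mat adj; fun_prop

theorem pmat_pt {p : α → Prog} (h : PT p) : PT fun a => pmat (p a) :=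
  mat_pt (verts_pt (pgP_pt h) (pgN_pt h)) (verts_pt (pgN_pt h) (pgP_pt h))

@[fun_prop] theorem down_pt {x d : α → ℕ} (hx : PT x) (hd : PT d) (hb : PB d) :
    PT fun a => down (x a) (d a) := by
  have hu : ∀ {β : Type} [N487b59b3 β], PT fun _ : β => usw := PT.const _
  unfold down shift; fun_prop

theorem prog'_pt {φ : α → List (List ℕ)} {u : α → List ℕ} (h : PT φ) (hu : PT u) :
    PT fun a => prog' (φ a) (u a).length := by
  unfold prog' feed last; fun_prop

@[fun_prop] theorem vs_pt {φ : α → List (List (Bool × ℕ))} (h : PT φ) :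
    PT fun a => vs (φ a) := by unfold vs; fun_prop

theorem fmat_pt {φ : α → List (List (Bool × ℕ))} (h : PT φ) : PT fun a => fmat (φ a) := by
  have h1 : PT fun a => cols (φ a) := by unfold cols; fun_prop
  have h2 : PT fun a => noPure (φ a) := by unfold noPure; fun_prop
  have h3 := pmat_pt (prog'_pt h1 (vs_pt h))
  unfold fmat; fun_prop

theorem pw_pt {ψ χ : α → E3 ℕ} (h1 : PT ψ) (h2 : PT χ) : PT fun a => pw (ψ a) (χ a) := by
  have h3 : ∀ {β : Type} [N487b59b3 β] {m i : β → ℕ}, PT m → PB m → PT i →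
      PT fun a => others (m a) (i a) := fun hm hb hi => by unfold others; fun_prop
  have h4 : ∀ {ψ : α → E3 ℕ}, PT ψ → PT fun a => alarm (ψ a) := fun {ψ} h => by
    have e : ∀ a, alarm (ψ a) = ((ψ a).zipIdx.flatMap fun q =>
      [(q.1.1.1, 2 * q.1.1.2 + 1) :: (q.1.2.1.1, 2 * q.1.2.1.2 + 1) ::
          (q.1.2.2.1, 2 * q.1.2.2.2 + 1) :: others (ψ a).length q.2,
        (false, 2 * q.2 + 2) :: (!q.1.1.1, 2 * q.1.1.2 + 1) :: others (ψ a).length q.2,
        (false, 2 * q.2 + 2) :: (!q.1.2.1.1, 2 * q.1.2.1.2 + 1) :: others (ψ a).length q.2,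
        (false, 2 * q.2 + 2) :: (!q.1.2.2.1, 2 * q.1.2.2.2 + 1) :: others (ψ a).length q.2]) ++
      (List.range (ψ a).length).flatMap fun i => (List.range (min i (ψ a).length)).map fun j =>
        [(false, 2 * i + 2), (false, 2 * j + 2)] := fun a => by
      unfold alarm
      congr 1
      exact List.flatMap_congr fun i hi => by rw [min_eq_left (List.mem_range.1 hi).le]
    refine PT.of_eq ?_ fun a => (e a).symm
    unfold others; fun_prop
  have h5 := h4 h1
  have h6 := h4 h2
  unfold pw others; fun_prop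

end

theorem fmat_spec (h1 : StGraph) (h2 : StGoodP) (h3 : StGoodN) (h4 : StBoth) (h5 : StToProg)
    (h6 : StOfProg) (h7 : StProg) (h8 : StCols) (φ : List (List (Bool × ℕ))) :
    Rect (fmat φ) ∧ (ofMatrix (fmat φ)).TwoFerrers ∧ ((ofMatrix (fmat φ)).MinForb ↔ MU φ) := by
  unfold fmat
  cases hc : (noPure φ && !φ.isEmpty)
  · refine ⟨fun _ h => absurd h List.not_mem_nil,
      ⟨fun _ => 0, fun _ => 0, fun _ => 0, fun _ => 0, fun x => x.elim0⟩,
      iff_of_false (fun h => h.1 ⟨fun _ => 0, fun _ => 0, fun _ => 0, fun _ => 0, fun _ => le_rfl,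
        fun _ => le_rfl, fun x => x.elim0⟩) fun h => ?_⟩
    obtain ⟨a, b⟩ := (h8 φ).1 h
    simp [a, b] at hc
  · simp only [Bool.and_eq_true, Bool.not_eq_true', List.isEmpty_eq_false_iff] at hc
    obtain ⟨c1, c2⟩ := (h8 φ).2 hc.1
    obtain ⟨p1, p2, p3⟩ := h7 _ _ c1
    obtain ⟨b1, b2, b3⟩ := h4 _ p1 p2
    have hne : prog (cols φ) (vs φ).length ≠ [] := by
      obtain ⟨k, hk⟩ : ∃ k, (cols φ).length = k + 1 := by
        refine Nat.exists_eq_succ_of_ne_zero fun h => hc.2 ?_
        simpa [cols] using h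
      simp [prog, hk, List.replicate_succ]
    obtain ⟨g1, g2, g3⟩ := h1 _ _ (h2 _ p1) (h3 _ p1) b1 b2 (b3 hne)
    rw [Bool.cond_true, prog'_eq c1]
    refine ⟨g1, g2, g3.trans (Iff.trans ?_ (p3.trans c2.symm))⟩
    exact ⟨fun h => ⟨fun r => h.1 ((h6 _ p1 p2).1 r), (h5 _ p1 p2).2 h⟩,
      fun h => ⟨fun s => h.1 ((h5 _ p1 p2).1 s), (h6 _ p1 p2).2 h⟩⟩

end Pool.Agent.Lib.MP_ae8a84_co.DP
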