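import Mathlib

namespace Pool.Agent.Lib.MP_ae8a84_co.DP

/-- The assignment `τ` satisfies the clause `C`; the literal `(b, v)` says that `v` has value `b`. -/
def Holds (τ : ℕ → Bool) (C : List (Bool × ℕ)) : Prop := ∃ l ∈ C, τ l.2 = l.1

/-- Minimally unsatisfiable formulas in conjunctive normal form: unsatisfiable, but satisfiable
after the removal of any one clause. -/
def MU (φ : List (List (Bool × ℕ))) : Prop :=
  ¬ (∃ τ, ∀ C ∈ φ, Holds τ C) ∧ ∀ C ∈ φ, ∃ τ, ∀ D ∈ φ, D ≠ C → Holds τ D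

end Pool.Agent.Lib.MP_ae8a84_co.DP
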