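import Pool.Agent.Lib.MP_ae8a84_co.DP.Defs

/-! From assignments of the compiled two-page formula to runs of the program. -/

namespace Pool.Agent.Lib.MP_ae8a84_co.DP

open Pool.Agent.Lib.MP_ae8a84_co.NP (Cl Leg)

namespace ToProgAux

lemma chain (h : StRun) (p : Prog) : ∀ s : ℕ → St,
    (∀ k (hk : k < p.length), Run [p[k]] (s k) (s (k + 1))) → Run p (s 0) (s p.length) := by
  induction p with
  | nil => exact fun s _ => le_refl (s 0)
  | cons q p ih =>
    intro s hs
    refine (h.2.1 [q] p _ _).2 ⟨s 1, hs 0 (Nat.zero_lt_succ _), ?_⟩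
    exact ih (fun k => s (k + 1)) fun k hk => hs (k + 1) (Nat.succ_lt_succ hk)

lemma uniq {a b L r r' : ℕ} (h : a * L + r = b * L + r') (hr : r < L) (hr' : r' < L) :
    a = b ∧ r = r' := by
  rcases lt_trichotomy a b with l | l | l
  · have := Nat.mul_le_mul_right L (Nat.succ_le_of_lt l)
    rw [Nat.succ_mul] at this
    omega
  · subst l
    omega
  · have := Nat.mul_le_mul_right L (Nat.succ_le_of_lt l)
    rw [Nat.succ_mul] at this
    omega

/-- values on the ports -/
def val (τ : ℕ → Bool) (B : ℕ) (L : List ℕ) (j w : ℕ) : St :=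
  fun i => if i < w then τ (B + port L j i) else false

lemma val_lo {τ : ℕ → Bool} {B : ℕ} {L : List ℕ} {j w i : ℕ} (h : i < j) :
    val τ B L j w i = if i < w then τ (B + 4 * i) else false := by
  simp only [val, port, if_pos h]

lemma val_hi {τ : ℕ → Bool} {B : ℕ} {L : List ℕ} {j w : ℕ} (i : ℕ) :
    val τ B L j w (j + L.length + i) =
      if j + L.length + i < w then τ (B + 4 * (j + i + 1)) else false := by
  have e : j + L.length + i - L.length + 1 = j + i + 1 := by omega
  simp only [val, port, if_neg (show ¬ j + L.length + i < j by omega),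
    if_neg (show ¬ j + L.length + i < j + L.length by omega), e]

lemma val_mid {τ : ℕ → Bool} {B : ℕ} {L : List ℕ} {j w : ℕ} (c : ℕ) (hc : c < L.length)
    (hw : j + L.length ≤ w) : val τ B L j w (j + c) = τ (B + 4 * j + L.getD c 0) := by
  simp only [val, port, if_neg (show ¬ j + c < j by omega),
    if_pos (show j + c < j + L.length by omega), if_pos (show j + c < w by omega),
    Nat.add_sub_cancel_left, Nat.add_assoc]

lemma step {τ : ℕ → Bool} {B g j w w' : ℕ} (hg : g < 6) (hj : j + ni g ≤ w)
    (hw : w' + ni g = w + no g)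
    (hp : ∀ C ∈ lp g, ∃ t, Leg (mv (B + 4 * j) C) t ∧ τ t = true)
    (hn : ∀ C ∈ ln g, ∃ t, Leg (mv (B + 4 * j) C) t ∧ τ t = false) :
    Step (g, j) (val τ B (ins g) j w) (val τ B (outs g) j w') := by
  refine ⟨fun i hi => ?_, fun i => ?_, ?_⟩
  · rw [val_lo hi, val_lo hi, if_pos (show i < w by have : i < j := hi; omega)]
    split_ifs
    · exact le_rfl
    · exact Bool.false_le _
  · show val τ B (outs g) j w' (j + (outs g).length + i) ≤
      val τ B (ins g) j w (j + (ins g).length + i)
    rw [val_hi, val_hi]
    unfold ni no at *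
    by_cases e : j + (outs g).length + i < w'
    · rw [if_pos e, if_pos (by omega)]
    · rw [if_neg e]
      exact Bool.false_le _
  · have a := fun c hc => val_mid (τ := τ) (B := B) (L := ins g) (j := j) (w := w) c hc hj
    have b := fun c hc => val_mid (τ := τ) (B := B) (L := outs g) (j := j) (w := w') c hc
      (by unfold ni no at *; omega)
    have a0 := a 0
    have a1 := a 1
    have b0 := b 0
    have b1 := b 1
    show rel g (val τ B (ins g) j w (j + 0)) (val τ B (ins g) j w (j + 1))
      (val τ B (outs g) j w' (j + 0)) (val τ B (outs g) j w' (j + 1)) = true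
    generalize val τ B (ins g) j w (j + 0) = x0 at *
    generalize val τ B (ins g) j w (j + 1) = x1 at *
    generalize val τ B (outs g) j w' (j + 0) = y0 at *
    generalize val τ B (outs g) j w' (j + 1) = y1 at *
    generalize B + 4 * j = o at *
    clear a b hj hw
    interval_cases g <;> simp [ins, outs, lp, ln, Leg, mv] at a0 a1 b0 b1 hp hn <;>
      simp [rel] <;> grind

lemma wf_take (h : StRun) {p : Prog} (hp : WF p 0) (k : ℕ) : WF (p.take k) 0 :=
  ((h.2.2.1 (p.take k) (p.drop k) 0).1 (by rwa [List.take_append_drop])).1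

lemma gate (h : StRun) {p : Prog} (hp : WF p 0) {k : ℕ} (hk : k < p.length) :
    p[k].1 < 6 ∧ p[k].2 + ni p[k].1 ≤ wid (p.take k) 0 ∧
      wid (p.take (k + 1)) 0 + ni p[k].1 = wid (p.take k) 0 + no p[k].1 := by
  have a := wf_take h hp (k + 1)
  rw [List.take_succ_eq_append_getElem hk] at a ⊢
  have b := ((h.2.2.1 _ _ 0).1 a).2
  rw [h.2.2.2.1 _ _ 0 (wf_take h hp k)]
  refine ⟨b.1, b.2.1, ?_⟩
  have := b.2.1
  simp only [wid, List.map_cons, List.map_nil, List.sum_cons, List.sum_nil] at this ⊢
  omega

lemma wid_le (h : StRun) {p : Prog} (hp : WF p 0) (k : ℕ) : wid (p.take k) 0 ≤ 2 * k := by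
  have a := h.2.2.2.2 _ 0 (wf_take h hp k)
  have b := List.length_take_le k p
  omega

lemma mem_zip {p : Prog} {k : ℕ} (hk : k < p.length) : (p[k], k) ∈ p.zipIdx :=
  List.mem_zipIdx_iff_getElem?.2 (List.getElem?_eq_getElem hk)

/-- values at the entry of a layer -/
def xin (p : Prog) (τ : ℕ → Bool) (k : ℕ) : St :=
  val τ (base p.length k) (ins (p.getD k (0, 0)).1) (p.getD k (0, 0)).2 (wid (p.take k) 0)

lemma xin_false {p : Prog} {τ : ℕ → Bool} {k : ℕ} (h : wid (p.take k) 0 = 0) :
    xin p τ k = fun _ => false := by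
  funext i
  simp [xin, val, h]

lemma layer (h : StRun) {p : Prog} (hp : WF p 0) (h0 : wid p 0 = 0) {τ : ℕ → Bool} {A : Cl → Prop}
    (hP : ∀ C ∈ pgP p, A C → ∃ t, Leg C t ∧ τ t = true)
    (hN : ∀ C ∈ pgN p, True → ∃ t, Leg C t ∧ τ t = false) {k : ℕ} (hk : k < p.length)
    (hl : ∀ C ∈ lp p[k].1, A (mv (base p.length k + 4 * p[k].2) C)) {t : St}
    (ht : t ≤ xin p τ (k + 1))
    (ha : ∀ i < wid (p.take (k + 1)) 0, t i = true →
      A (arc (base p.length k + port (outs p[k].1) p[k].2 i) (mT p.length k i))) :
    Run [p[k]] (xin p τ k) t := by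
  obtain ⟨g1, g2, g3⟩ := gate h hp hk
  refine ⟨val τ (base p.length k) (outs p[k].1) p[k].2 (wid (p.take (k + 1)) 0), ?_,
    fun i => Bool.le_iff_imp.2 fun hi => ?_⟩
  · unfold xin
    rw [List.getD_eq_getElem _ _ hk]
    refine step g1 g2 g3 (fun C hC => hP _ ?_ (hl C hC)) fun C hC => hN _ ?_ trivial
    · exact List.mem_flatMap.2 ⟨_, mem_zip hk, List.mem_append_left _ (List.mem_map_of_mem hC)⟩
    · exact List.mem_flatMap.2 ⟨_, mem_zip hk, List.mem_append_left _ (List.mem_map_of_mem hC)⟩
  · have a := Bool.le_iff_imp.1 (ht i) hi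
    unfold xin val at a
    have hw : i < wid (p.take (k + 1)) 0 := by
      by_contra e
      rw [if_neg e] at a
      exact Bool.false_ne_true a
    have hk' : k + 1 < p.length := by
      by_contra e
      rw [List.take_of_length_le (by omega), h0] at hw
      omega
    rw [if_pos hw, List.getD_eq_getElem _ _ hk'] at a
    obtain ⟨t1, l1, e1⟩ := hP _ (List.mem_flatMap.2 ⟨_, mem_zip hk, List.mem_append_right _
      (List.mem_map_of_mem (List.mem_range.2 hw))⟩) (ha i hw hi)
    obtain ⟨t2, l2, e2⟩ := hN _ (List.mem_flatMap.2 ⟨_, mem_zip hk', List.mem_append_right _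
      (List.mem_map_of_mem (List.mem_range.2 hw))⟩) trivial
    unfold val
    rw [if_pos hw]
    simp only [Leg, arc, Nat.add_sub_cancel, or_self_left] at l1 l2
    rcases l1 with rfl | rfl
    · exact e1
    · rcases l2 with rfl | rfl
      · rw [e1] at e2
        exact absurd e2 (by simp)
      · rw [a] at e2
        exact absurd e2 (by simp)

lemma lp_le (g : ℕ) (hg : g < 6) : ∀ C ∈ lp g, C.2.2 ≤ 3 := by
  interval_cases g <;> simp [lp]

end ToProgAux

open ToProgAux in
theorem toProg_thm (h : StRun) : StToProg := by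
  intro p hp h0
  have x0 : ∀ τ, xin p τ 0 = fun _ => false := fun τ => xin_false (by simp [wid])
  have xn : ∀ τ, xin p τ p.length = fun _ => false := fun τ => xin_false (by simpa using h0)
  refine ⟨fun ⟨τ, hP, hN⟩ => ?_, fun hm k hk j hj => ?_⟩
  · have := chain h p (xin p τ) fun k hk =>
      layer h hp h0 hP hN hk (fun _ _ => trivial) le_rfl fun _ _ _ => trivial
    rwa [x0, xn] at this
  · obtain ⟨k, rfl⟩ : ∃ m, k = m + 1 := by
      refine Nat.exists_eq_succ_of_ne_zero ?_
      rintro rfl
      simp [wid] at hj
    have hk' : k < p.length := hk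
    obtain ⟨τ, hP, hN⟩ := hm.2.1
      (arc (base p.length k + port (outs p[k].1) p[k].2 j) (mT p.length k j))
      (List.mem_flatMap.2 ⟨_, mem_zip hk', List.mem_append_right _
        (List.mem_map_of_mem (List.mem_range.2 hj))⟩)
    have hj' := wid_le h hp (k + 1)
    have lay : ∀ m (hm : m < p.length) (t : St), t ≤ xin p τ (m + 1) → (m = k → t j = false) →
        Run [p[m]] (xin p τ m) t := by
      intro m hm t ht hf
      obtain ⟨g1, g2, -⟩ := gate h hp hm
      refine layer h hp h0 hP hN hm (fun C hC e => ?_) ht fun i hi hti e => ?_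
      · have e1 : base p.length m + 4 * p[m].2 + C.2.2 = mT p.length k j :=
          congrArg (fun C : Cl => C.2.2) e
        have := lp_le _ g1 C hC
        have := wid_le h hp m
        unfold mT base at e1
        have := uniq (a := m) (b := k) (L := 10 * p.length + 4) (r := 4 * p[m].2 + C.2.2)
          (r' := 4 * (2 * p.length + 1) + (2 * p.length - 1 - j)) (by omega) (by omega) (by omega)
        omega
      · have e1 : mT p.length m i = mT p.length k j := congrArg (fun C : Cl => C.2.2) e
        have := wid_le h hp (m + 1)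
        unfold mT base at e1
        have := uniq (a := m) (b := k) (L := 10 * p.length + 4)
          (r := 4 * (2 * p.length + 1) + (2 * p.length - 1 - i))
          (r' := 4 * (2 * p.length + 1) + (2 * p.length - 1 - j)) (by omega) (by omega) (by omega)
        have e2 : i = j := by omega
        rw [e2, hf this.1] at hti
        exact Bool.false_ne_true hti
    refine ⟨Function.update (xin p τ (k + 1)) j false, ?_, ?_⟩
    · have := chain h (p.take (k + 1))
        (fun m => if m = k + 1 then Function.update (xin p τ (k + 1)) j false else xin p τ m)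
        (fun m hm => by
          have hm' : m < k + 1 := by rw [List.length_take] at hm; omega
          rw [List.getElem_take, if_neg hm'.ne]
          refine lay m (by omega) _ ?_ ?_
          · split_ifs with e
            · rw [e]
              exact update_le_self_iff.2 (Bool.false_le _)
            · exact le_rfl
          · rintro rfl
            simp)
      rw [List.length_take, min_eq_left hk] at this
      simpa [x0] using this
    · have := chain h (p.drop (k + 1)) (fun m => xin p τ (k + 1 + m)) (fun m hm => by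
        rw [List.getElem_drop]
        exact lay _ _ _ le_rfl (by omega))
      rw [List.length_drop, Nat.add_sub_cancel' hk, xn] at this
      refine h.1 _ _ _ _ _ this ?_ le_rfl
      rw [Function.update_idem]
      exact le_update_self_iff.2 (Bool.le_true _)

end Pool.Agent.Lib.MP_ae8a84_co.DP
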